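import Mathlib
import Pool.Agent.H359R3.IX18
import Pool.Agent.H359R3.WG2

set_option autoImplicit false
set_option linter.unusedVariables false

/-!
Statements of the pieces of the proof that the generic automorphism embeds in a flow all of whose
products have simple spectrum (S05279).
-/

namespace Pool.Agent.W744.SF

open MeasureTheory Set Filter Topology
open Pool.H359R3 Pool.H359R3.WH Pool.H359R3.IX
open scoped ENNReal

/-- total mass of the digits of value `r` -/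
noncomputable def nu {α : Type} (S : Finset α) (v m : α → ℝ) (r : ℝ) : ℝ :=
  ∑ a ∈ S.filter (fun a => v a = r), m a

/-- all quotients of entries are well separated -/
def Sep (d : ℕ) (ω : Fin d → ℝ) : Prop :=
  ∀ i i' j j' : Fin d, i < i' → j < j' → (i, i') ≠ (j, j') →
    (2 * (d : ℝ)) ^ 2 * (ω i / ω i') < ω j / ω j' ∨ (2 * (d : ℝ)) ^ 2 * (ω j / ω j') < ω i / ω i'

/-- nonzero frequencies -/
noncomputable def Jset (J : ℕ) : Finset ℤ := (Finset.Icc (-(J : ℤ)) J).erase 0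

noncomputable def JK (k J : ℕ) : Finset (Fin k → ℤ) := Fintype.piFinset fun _ => Jset J

noncomputable def Dg (k Y : ℕ) : Finset (Fin k → ℤ) := Fintype.piFinset fun _ => Finset.Icc (-(Y : ℤ)) Y

noncomputable def DD (k Y d : ℕ) : Finset (Fin d → Fin k → ℤ) := Fintype.piFinset fun _ => Dg k Y

noncomputable def dot {k : ℕ} (t : Fin k → ℝ) (n : Fin k → ℤ) : ℝ := ∑ l, t l * n l

/-- total mass of the digit sequences whose value is `z` modulo one -/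
noncomputable def PZ {α : Type} (S : Finset α) (v m : α → ℝ) (d : ℕ) (ω : Fin d → ℝ) (θ z : ℝ) : ℝ :=
  ∑ x ∈ (Fintype.piFinset fun _ : Fin d => S).filter (fun x => Int.fract (θ + ∑ i, ω i * v (x i)) = z),
    ∏ i, m (x i)

/-- lacunary overlap bound -/
def S_BC : Prop := ∀ (α : Type) [DecidableEq α] (S : Finset α) (v m m' : α → ℝ) (d : ℕ) (ω : Fin d → ℝ)
    (w θ θ' M : ℝ) (q : ℕ),
  (∀ a ∈ S, 0 ≤ m a) → (∀ a ∈ S, 0 ≤ m' a) → ∑ a ∈ S, m a ≤ 1 → ∑ a ∈ S, m' a ≤ 1 →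
  (∀ a ∈ S, |v a| ≤ M) → (∀ i, 0 < ω i) → 4 * M * ∑ i, ω i < 1 → Sep d ω →
  (((S ×ˢ S) ×ˢ (S ×ˢ S)).image
    (fun p : (α × α) × (α × α) => (v p.1.1 - v p.1.2) - (v p.2.1 - v p.2.2))).card ≤ q →
  0 ≤ w → w ≤ 1 →
  (∀ δ : ℝ, ∑ r ∈ S.image v, Real.sqrt (nu S v m (r + δ) * nu S v m' r) ≤ w) →
  ∑ z ∈ (Fintype.piFinset fun _ : Fin d => S).image (fun x => Int.fract (θ + ∑ i, ω i * v (x i))),
    Real.sqrt (PZ S v m d ω θ z * PZ S v m' d ω θ' z) ≤ (q : ℝ) ^ (2 * q ^ 2) * w ^ d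

/-- affinity of the laws of `t · n` for different frequency vectors -/
def S_Aff : Prop := ∀ (k J Y : ℕ) (μ : ℤ → ℤ → ℝ) (a b : ℝ),
  1 ≤ k → 1 ≤ Y → (∀ j n, 0 ≤ μ j n) →
  (∀ j ∈ Jset J, ∑ n ∈ Finset.Icc (-(Y : ℤ)) Y, μ j n ≤ 1) →
  (∀ j ∈ Jset J, 1 - b ≤ μ j 0) → 0 < a → 0 ≤ b → 8 * (k : ℝ) ^ 2 * b ^ 2 ≤ a → (k : ℝ) * b ≤ 1 / 25 →
  (∀ j ∈ Jset J, ∀ j' ∈ Jset J, j ≠ j' → a ≤ |μ j 1 - μ j' 1|) →
  ∀ t : Fin k → ℝ, StrictMono t → (∀ l, 0 < t l) →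
  ∀ j ∈ JK k J, ∀ j' ∈ JK k J, j ≠ j' → ∀ δ : ℝ,
    ∑ r ∈ (Dg k Y).image (dot t), Real.sqrt (nu (Dg k Y) (dot t) (fun n => ∏ l, μ (j l) (n l)) (r + δ) *
      nu (Dg k Y) (dot t) (fun n => ∏ l, μ (j' l) (n l)) r) ≤ 1 - a ^ 2 / 32

/-- a circle valued modulation whose characters have well separated Fourier data -/
def S_Four : Prop := ∀ (J : ℕ) (K : ℝ), 0 < K → ∃ (g : ℝ → ℝ) (Λ : ℝ) (c : ℤ → ℤ → ℂ) (a b C ρ : ℝ),
  (∀ x, g (x + 1) = g x) ∧ 0 ≤ Λ ∧ (∀ x y, |g x - g y| ≤ Λ * |x - y|) ∧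
  0 ≤ C ∧ 0 ≤ ρ ∧ ρ < 1 ∧ (∀ j ∈ Jset J, ∀ n : ℤ, ‖c j n‖ ≤ C * ρ ^ n.natAbs) ∧
  (∀ j ∈ Jset J, ∀ x : ℝ, HasSum (fun n : ℤ => c j n * Complex.exp (2 * Real.pi * Complex.I * n * x))
    (Complex.exp (2 * Real.pi * Complex.I * j * g x))) ∧
  (∀ j ∈ Jset J, ∀ F : Finset ℤ, ∑ n ∈ F, ‖c j n‖ ^ 2 ≤ 1) ∧
  (∀ j ∈ Jset J, 1 - b ≤ ‖c j 0‖ ^ 2) ∧
  (∀ j ∈ Jset J, ∀ j' ∈ Jset J, j ≠ j' → a ≤ |‖c j 1‖ ^ 2 - ‖c j' 1‖ ^ 2|) ∧
  0 < a ∧ 0 ≤ b ∧ K * b ^ 2 ≤ a ∧ K * b ≤ 1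

/-- the finite decoding statement -/
def S_Main : Prop := ∀ (k J : ℕ) (φ : ℤ → ℂ) (ε : ℝ), 1 ≤ k → (∀ j ∈ Jset J, φ j ≠ 0) → 0 < ε →
  ∃ (g : ℝ → ℝ) (Λ : ℝ) (c : ℤ → ℤ → ℂ) (Y d : ℕ),
  (∀ x, g (x + 1) = g x) ∧ 0 ≤ Λ ∧ (∀ x y, |g x - g y| ≤ Λ * |x - y|) ∧ 1 ≤ d ∧ 1 ≤ Y ∧
  (∀ j ∈ Jset J, ∀ v : Fin d → ℝ,
    ‖Complex.exp (2 * Real.pi * Complex.I * j * ∑ i, (g (v i) : ℂ)) -
      ∑ n ∈ Fintype.piFinset (fun _ : Fin d => Finset.Icc (-(Y : ℤ)) Y),
        (∏ i, c j (n i)) * Complex.exp (2 * Real.pi * Complex.I * ∑ i, (n i : ℂ) * v i)‖ ≤ ε) ∧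
  ∀ ω : Fin d → ℝ, (∀ i, 0 < ω i) → Sep d ω → ∀ t : Fin k → ℝ, StrictMono t → (∀ l, 0 < t l) →
    4 * ((∑ l, t l) * Y) * ∑ i, ω i < 1 → ∀ θ : (Fin k → ℤ) → ℝ, ∀ j0 ∈ JK k J,
    ∃ Q : ℝ → ℂ, (∀ x y : ℝ, Int.fract x = Int.fract y → Q x = Q y) ∧
      ∑ j ∈ JK k J, ∑ n ∈ DD k Y d,
        ‖Q (θ j + ∑ i, ω i * dot t (n i)) * (∏ l, φ (j l)) * (∏ i, ∏ l, c (j l) (n i l)) -
          (if j = j0 then ∏ i, ∏ l, c (j l) (n i l) else 0)‖ ^ 2 ≤ ε ^ 2

/-- a function with prescribed values on finitely many points of the circle is a trigonometric polynomial -/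
def S_Interp : Prop := ∀ (F : Finset ℝ) (Q : ℝ → ℂ), (∀ x y : ℝ, Int.fract x = Int.fract y → Q x = Q y) →
  ∃ (N : Finset ℤ) (c : ℤ → ℂ), ∀ z ∈ F, ∑ n ∈ N, c n * Complex.exp (2 * Real.pi * Complex.I * n * z) = Q z

/-- any permutation is close to a cyclic one -/
def S_Cyc : Prop := ∀ (n : ℕ) [NeZero n] (σ : Equiv.Perm (Fin n)) (m : ℕ), 0 < m →
  ∃ ι : Equiv.Perm (Fin (n * m)),
    nc (fun z : Fin (n * m) => ((ι⁻¹ (finRotate (n * m) (ι z)) : Fin (n * m)) : ℕ) / m ≠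
      (σ (Fin.ofNat n ((z : ℕ) / m)) : ℕ)) ≤ n

/-- tensor products of square integrable functions on a probability space -/
def S_Tens : Prop := ∀ (X : Type) [MeasurableSpace X] (μ : Measure X) [IsProbabilityMeasure μ] (k : ℕ),
  ∃ τ : ContinuousMultilinearMap ℂ (fun _ : Fin k => Lp ℂ 2 μ) (Lp ℂ 2 (Measure.pi fun _ : Fin k => μ)),
    (∀ f, (τ f : (Fin k → X) → ℂ) =ᵐ[Measure.pi fun _ : Fin k => μ] fun x => ∏ i, (f i : X → ℂ) (x i)) ∧
    ∀ f g, inner ℂ (τ f) (τ g) = ∏ i, inner ℂ (f i) (g i)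

/-- the zero mean tensor products span the common orthogonal complement of the functions which do not depend
on some coordinate -/
def S_Span : Prop := ∀ (X : Type) [MeasurableSpace X] (μ : Measure X) [IsProbabilityMeasure μ] (k : ℕ),
  (∀ (f : Fin k → X → ℂ), (∀ i, MemLp (f i) 2 μ) → (∀ i, ∫ x, f i x ∂μ = 0) → ∀ (i : Fin k)
    (g : (Fin k → X) → ℂ), MemLp g 2 (Measure.pi fun _ : Fin k => μ) →
    (∀ (x : Fin k → X) (y : X), g (Function.update x i y) = g x) →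
    ∫ x, (∏ l, f l (x l)) * starRingEnd ℂ (g x) ∂(Measure.pi fun _ : Fin k => μ) = 0) ∧
  ∀ (W : Submodule ℂ (Lp ℂ 2 (Measure.pi fun _ : Fin k => μ))), IsClosed (W : Set (Lp ℂ 2 (Measure.pi fun _ : Fin k => μ))) →
    (∀ (f : Fin k → X → ℂ), (∀ i, MemLp (f i) 2 μ) → (∀ i, ∫ x, f i x ∂μ = 0) →
      ∀ F : Lp ℂ 2 (Measure.pi fun _ : Fin k => μ),
        (F : (Fin k → X) → ℂ) =ᵐ[Measure.pi fun _ : Fin k => μ] (fun x => ∏ i, f i (x i)) → F ∈ W) →
    ∀ (h : (Fin k → X) → ℂ) (hh : MemLp h 2 (Measure.pi fun _ : Fin k => μ)),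
      (∀ i : Fin k, ∀ g : (Fin k → X) → ℂ, MemLp g 2 (Measure.pi fun _ : Fin k => μ) →
        (∀ (x : Fin k → X) (y : X), g (Function.update x i y) = g x) →
        ∫ x, h x * starRingEnd ℂ (g x) ∂(Measure.pi fun _ : Fin k => μ) = 0) →
      hh.toLp h ∈ W

/-- the family of dense sets for Lebesgue measure on the interval -/
noncomputable def F0 : DF lam := (exists_DF lam).some

/-- the uniform structure of the automorphism group -/
noncomputable abbrev us : UniformSpace Aut := un F0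

attribute [local instance] us

/-- the action on square integrable functions is continuous -/
def S_Koop : Prop := Continuous (fun p : Aut × Lp ℂ 2 lam => Lp.compMeasurePreserving (⇑p.1.1) p.1.2 p.2)

/-- trigonometric polynomials are dense -/
def S_Trig : Prop := ∀ (f : ℝ → ℂ) (ε : ℝ), MemLp f 2 lam → 0 < ε → ∃ (J : ℕ) (g : ℤ → ℂ),
  eLpNorm (fun x => f x - ∑ j ∈ Finset.Icc (-(J : ℤ)) J, g j * Complex.exp (2 * Real.pi * Complex.I * j * x)) 2 lam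
    ≤ ENNReal.ofReal ε

/-- the properties of the flow on the model space -/
def Good (Φ : ℝ → Aut) : Prop :=
  Continuous Φ ∧ (∀ s t : ℝ, ∀ᵐ x ∂lam, (Φ (s + t)).1 x = (Φ s).1 ((Φ t).1 x)) ∧
  ∃ f : ℝ → ℂ, MemLp f 2 lam ∧ ∫ x, f x ∂lam = 0 ∧
    ∀ k : ℕ, 1 ≤ k → ∀ t : Fin k → ℝ, StrictMono t → (∀ i, 0 < t i) →
      ∀ h : Fin k → ℝ → ℂ, (∀ i, MemLp (h i) 2 lam) → (∀ i, ∫ x, h i x ∂lam = 0) → ∀ ε : ℝ, 0 < ε →
        ∃ (N : Finset ℤ) (c : ℤ → ℂ),
          eLpNorm (fun x : Fin k → ℝ => ∏ i, h i (x i) - ∑ n ∈ N, c n * ∏ i, f ((Φ (n * t i)).1 (x i))) 2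
            (Measure.pi fun _ : Fin k => lam) < ENNReal.ofReal ε

def S_Model : Prop := {T : Aut | ∃ Φ : ℝ → Aut, Good Φ ∧ ∀ᵐ x ∂lam, (Φ 1).1 x = T.1 x} ∈ residual Aut

/-- the frozen statement -/
def S_Frozen : Prop :=
    {T : {T : unitInterval ≃ᵐ unitInterval //
          MeasurePreserving (⇑T) (volume : Measure unitInterval) (volume : Measure unitInterval)} |
      ∃ Φ : ℝ → {T : unitInterval ≃ᵐ unitInterval //
          MeasurePreserving (⇑T) (volume : Measure unitInterval) (volume : Measure unitInterval)},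
        (∀ s t : ℝ, ∀ᵐ x : unitInterval ∂(volume : Measure unitInterval),
          (⇑(Φ (s + t)).1) x = (⇑(Φ s).1) ((⇑(Φ t).1) x)) ∧
        (∀ A : Set unitInterval, MeasurableSet A → ∀ t₀ : ℝ,
          Tendsto (fun s : ℝ => (volume : Measure unitInterval)
              (symmDiff ((⇑(Φ s).1) '' A) ((⇑(Φ t₀).1) '' A)))
            (𝓝 t₀) (𝓝 0)) ∧
        (∀ᵐ x : unitInterval ∂(volume : Measure unitInterval), (⇑(Φ 1).1) x = (⇑T.1) x) ∧
        ∀ k : ℕ, 1 ≤ k → ∀ t : Fin k → ℝ, StrictMono t → (∀ i, 0 < t i) →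
          ∃ f : (Fin k → unitInterval) → ℂ, MemLp f 2 (volume : Measure (Fin k → unitInterval)) ∧
            (∀ i : Fin k, ∀ g : (Fin k → unitInterval) → ℂ,
              MemLp g 2 (volume : Measure (Fin k → unitInterval)) →
              (∀ (x : Fin k → unitInterval) (y : unitInterval), g (Function.update x i y) = g x) →
              ∫ x, f x * starRingEnd ℂ (g x) ∂(volume : Measure (Fin k → unitInterval)) = 0) ∧
            ∀ h : (Fin k → unitInterval) → ℂ, MemLp h 2 (volume : Measure (Fin k → unitInterval)) →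
              (∀ i : Fin k, ∀ g : (Fin k → unitInterval) → ℂ,
                MemLp g 2 (volume : Measure (Fin k → unitInterval)) →
                (∀ (x : Fin k → unitInterval) (y : unitInterval), g (Function.update x i y) = g x) →
                ∫ x, h x * starRingEnd ℂ (g x) ∂(volume : Measure (Fin k → unitInterval)) = 0) →
              ∀ ε : ℝ, 0 < ε → ∃ N : Finset ℤ, ∃ c : ℤ → ℂ,
                eLpNorm (fun x : Fin k → unitInterval => h x - ∑ n ∈ N, c n *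
                  f (fun i : Fin k =>
                    (⇑(((Φ (t i)).1.toEquiv : Equiv.Perm unitInterval) ^ n)) (x i)))
                  2 (volume : Measure (Fin k → unitInterval)) < ENNReal.ofReal ε}
    ∈ @residual {T : unitInterval ≃ᵐ unitInterval //
          MeasurePreserving (⇑T) (volume : Measure unitInterval) (volume : Measure unitInterval)}
      (TopologicalSpace.generateFrom
        {U : Set {T : unitInterval ≃ᵐ unitInterval //
            MeasurePreserving (⇑T) (volume : Measure unitInterval) (volume : Measure unitInterval)} |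
          ∃ T₀ : {T : unitInterval ≃ᵐ unitInterval //
            MeasurePreserving (⇑T) (volume : Measure unitInterval) (volume : Measure unitInterval)},
          ∃ A : Set unitInterval, MeasurableSet A ∧ ∃ ε : ℝ, 0 < ε ∧
            U = {S : {T : unitInterval ≃ᵐ unitInterval //
                  MeasurePreserving (⇑T) (volume : Measure unitInterval)
                    (volume : Measure unitInterval)} |
                (volume : Measure unitInterval) (symmDiff ((⇑S.1) '' A) ((⇑T₀.1) '' A))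
                  < ENNReal.ofReal ε}})

/-- transfer from the model space to the unit interval -/
def S_Transfer : Prop := S_Span → S_Model → S_Frozen

end Pool.Agent.W744.SF
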