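import Mathlib
import Pool.Agent.W744.SF.Stubs

set_option autoImplicit false
set_option linter.unusedSectionVars false
set_option linter.unusedVariables false

/-!
The topology of the automorphism group of the unit interval; rotations.
-/

namespace Pool.Agent.W744.SF

open MeasureTheory Set Filter Topology
open scoped ENNReal symmDiff
open Pool.H359R3 Pool.H359R3.WH Pool.H359R3.IX

attribute [local instance] us

theorem lam_ne_top (s : Set ℝ) : lam s ≠ ∞ := measure_ne_top _ _

theorem tend_real_iff {β : Type*} (l : Filter β) (s : β → Set ℝ) :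
    Tendsto (fun b => lam (s b)) l (𝓝 0) ↔ Tendsto (fun b => lam.real (s b)) l (𝓝 0) := by
  constructor
  · intro h
    have := (ENNReal.tendsto_toReal ENNReal.zero_ne_top).comp h
    exact this
  · intro h
    have := ENNReal.tendsto_ofReal h
    rw [ENNReal.ofReal_zero] at this
    refine this.congr fun b => ?_
    exact ENNReal.ofReal_toReal (lam_ne_top _)

theorem top_eq : us.toTopologicalSpace = unif.toTopologicalSpace := by
  apply le_antisymm
  · refine le_of_nhds_le_nhds fun T0 => ?_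
    have h1 : Tendsto (id : Aut → Aut) (@nhds Aut us.toTopologicalSpace T0)
        (@nhds Aut unif.toTopologicalSpace T0) := by
      apply tendsto_unif
      intro i
      exact (tend_real_iff _ _).1 (of_tendsto_un F0 (@nhds Aut us.toTopologicalSpace T0) id T0 Filter.tendsto_id
        (AA i) (AA_meas i) (measure_lt_top _ _))
    exact Filter.tendsto_id'.1 h1
  · refine le_of_nhds_le_nhds fun T0 => ?_
    have h1 : Tendsto (id : Aut → Aut) (@nhds Aut unif.toTopologicalSpace T0)
        (@nhds Aut us.toTopologicalSpace T0) := by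
      apply tendsto_un F0
      intro i
      exact (tend_real_iff _ _).2 (of_tendsto_unif (@nhds Aut unif.toTopologicalSpace T0) id T0 Filter.tendsto_id
        (F0.C i) (F0.meas i))
    exact Filter.tendsto_id'.1 h1

theorem nhds_dl0 (T : Aut) (O : Set Aut) (hO : O ∈ 𝓝 T) (H : ℕ) (hH : 0 < H) :
    ∃ m : ℕ, 0 < m ∧ ∃ θ : ℝ, 0 < θ ∧ ∀ T' : Aut, dl (H * m) T'.1 T.1 < θ → T' ∈ O := by
  apply nhds_dl T O _ H hH
  rw [← top_eq]
  exact hO

theorem dl_nhds0 (T : Aut) (H : ℕ) (hH : 0 < H) (θ : ℝ) (hθ : 0 < θ) :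
    {T' : Aut | dl H T'.1 T.1 < θ} ∈ 𝓝 T := by
  have := dl_nhds T H hH θ hθ
  rw [← top_eq] at this
  exact this

instance : (uniformity Aut).IsCountablyGenerated := un_cg F0

instance : SecondCountableTopology Aut := un_sc F0

theorem lim_exists (T : ℕ → Aut) (h : ∀ s, MeasurableSet s → ∀ ε : ℝ, 0 < ε → ∃ N, ∀ m ≥ N, ∀ n ≥ N,
    lam.real (((T m).1 ⁻¹' s) ∆ ((T n).1 ⁻¹' s)) < ε ∧
    lam.real (((T m).1.symm ⁻¹' s) ∆ ((T n).1.symm ⁻¹' s)) < ε) :
    ∃ S : Aut, Tendsto T atTop (𝓝 S) := by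
  have hc : @CauchySeq Aut ℕ unif _ T := by
    let _ := unif
    have h0 : IsUniformInducing iot := ⟨rfl⟩
    show Cauchy (atTop.map T)
    rw [← h0.cauchy_map_iff, Filter.map_map]
    rw [cauchy_pi_iff]
    intro i
    rw [Filter.map_map]
    show CauchySeq (fun n => iot (T n) i)
    rw [Metric.cauchySeq_iff]
    intro ε hε
    obtain ⟨N, hN⟩ := h (AA i) (AA_meas i) ε hε
    refine ⟨N, fun m hm n hn => ?_⟩
    rw [Prod.dist_eq]
    obtain ⟨h1, h2⟩ := hN m hm n hn
    exact max_lt h1 h2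
  have hcomp := unif_complete
  obtain ⟨S, hS⟩ := @cauchySeq_tendsto_of_complete Aut ℕ unif _ hcomp _ hc
  refine ⟨S, ?_⟩
  rw [top_eq]
  exact hS

instance : CompleteSpace Aut := by
  refine UniformSpace.complete_of_cauchySeq_tendsto fun T hT => ?_
  have hc : CauchySeq (fun n => io F0 (T n)) := by
    have : UniformContinuous (io F0 (μ := lam)) := uniformContinuous_comap
    exact this.comp_cauchySeq hT
  have h1 : ∀ i, CauchySeq (fun n => (io F0 (T n) i).1) := by
    intro i
    have : UniformContinuous (fun z : ℕ → MeasuredSets lam × MeasuredSets lam => (z i).1) :=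
      uniformContinuous_fst.comp (Pi.uniformContinuous_proj _ i)
    exact this.comp_cauchySeq hc
  have h2 : ∀ i, CauchySeq (fun n => (io F0 (T n) i).2) := by
    intro i
    have : UniformContinuous (fun z : ℕ → MeasuredSets lam × MeasuredSets lam => (z i).2) :=
      uniformContinuous_snd.comp (Pi.uniformContinuous_proj _ i)
    exact this.comp_cauchySeq hc
  have L1 := lim_of_cauchy F0 (fun k => (T k).1) (fun k => (T k).2) (by
    intro i ε hε
    obtain ⟨N, hN⟩ := EMetric.cauchySeq_iff.1 (h1 i) ε hε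
    exact ⟨N, fun m hm n hn => hN m hm n hn⟩)
  have L2 := lim_of_cauchy F0 (fun k => (T k).1.symm) (fun k => mp_symm (T k)) (by
    intro i ε hε
    obtain ⟨N, hN⟩ := EMetric.cauchySeq_iff.1 (h2 i) ε hε
    exact ⟨N, fun m hm n hn => hN m hm n hn⟩)
  apply lim_exists
  intro s hs ε hε
  have aux : ∀ (g : ℕ → ℝ → ℝ) (B : Set ℝ), Tendsto (fun k => lam ((g k ⁻¹' s) ∆ B)) atTop (𝓝 0) →
      ∃ N, ∀ m ≥ N, ∀ n ≥ N, lam.real ((g m ⁻¹' s) ∆ (g n ⁻¹' s)) < ε := by
    intro g B hB
    have h3 := ((tend_real_iff _ _).1 hB).eventually (gt_mem_nhds (half_pos hε))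
    obtain ⟨N, hN⟩ := eventually_atTop.1 h3
    refine ⟨N, fun m hm n hn => ?_⟩
    have h4 := real_symmDiff_tri (g m ⁻¹' s) B (g n ⁻¹' s)
    rw [symmDiff_comm B] at h4
    have h5 := hN m hm
    have h6 := hN n hn
    linarith
  obtain ⟨B1, _, hB1⟩ := L1 s hs (measure_lt_top _ _)
  obtain ⟨B2, _, hB2⟩ := L2 s hs (measure_lt_top _ _)
  obtain ⟨N1, hN1⟩ := aux _ B1 hB1
  obtain ⟨N2, hN2⟩ := aux _ B2 hB2
  refine ⟨max N1 N2, fun m hm n hn => ⟨hN1 m ((le_max_left _ _).trans hm) n ((le_max_left _ _).trans hn),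
    hN2 m ((le_max_right _ _).trans hm) n ((le_max_right _ _).trans hn)⟩⟩

end Pool.Agent.W744.SF
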