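import Mathlib
import Pool.Agent.W744.SF.Top

set_option autoImplicit false
set_option linter.unusedSectionVars false
set_option linter.unusedVariables false

/-!
Rotations of the unit interval, conjugated rotation flows.
-/

namespace Pool.Agent.W744.SF

open MeasureTheory Set Filter Topology
open scoped ENNReal symmDiff
open Pool.H359R3 Pool.H359R3.WH Pool.H359R3.IX

attribute [local instance] us

/-- rotation -/
noncomputable def rotf (s x : ℝ) : ℝ := if x ∈ Ico (0 : ℝ) 1 then Int.fract (x + s) else x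

theorem rotf_pos (s x : ℝ) (hx : x ∈ Ico (0 : ℝ) 1) : rotf s x = Int.fract (x + s) := if_pos hx

theorem rotf_neg (s x : ℝ) (hx : x ∉ Ico (0 : ℝ) 1) : rotf s x = x := if_neg hx

theorem rotf_mem (s x : ℝ) (hx : x ∈ Ico (0 : ℝ) 1) : rotf s x ∈ Ico (0 : ℝ) 1 := by
  rw [rotf_pos s x hx]
  exact ⟨Int.fract_nonneg _, Int.fract_lt_one _⟩

theorem rotf_comp (s t x : ℝ) : rotf s (rotf t x) = rotf (s + t) x := by
  by_cases hx : x ∈ Ico (0 : ℝ) 1
  · rw [rotf_pos s _ (rotf_mem t x hx), rotf_pos t x hx, rotf_pos _ x hx]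
    have : Int.fract (x + t) + s = (x + (s + t)) - ((⌊x + t⌋ : ℤ) : ℝ) := by
      unfold Int.fract
      ring
    rw [this, Int.fract_sub_intCast]
  · rw [rotf_neg t x hx, rotf_neg s x hx, rotf_neg _ x hx]

theorem rotf_int (n : ℤ) (x : ℝ) : rotf n x = x := by
  by_cases hx : x ∈ Ico (0 : ℝ) 1
  · rw [rotf_pos _ x hx, Int.fract_add_intCast, Int.fract_eq_self.2 hx]
  · rw [rotf_neg _ x hx]

theorem rotf_zero (x : ℝ) : rotf 0 x = x := by
  have := rotf_int 0 x
  rwa [Int.cast_zero] at this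

theorem rotf_meas (s : ℝ) : Measurable (rotf s) := by
  unfold rotf
  apply Measurable.ite measurableSet_Ico
  · exact measurable_fract.comp (measurable_id.add_const _)
  · exact measurable_id

theorem rotf_ps (s x : ℝ) (hx : x ∈ Ico (0 : ℝ) 1) : rotf s x = ps 1 1 s x := by
  rw [rotf_pos s x hx]
  unfold ps
  rw [if_pos hx.1, one_zpow, Equiv.Perm.one_apply]
  have h1 : fl 1 x = 0 := by
    unfold fl
    rw [Nat.floor_eq_zero]
    push_cast
    linarith [hx.2]
  have h2 : Int.fract (x * ((1 : ℕ) : ℝ)) = x := by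
    rw [Nat.cast_one, mul_one]
    exact Int.fract_eq_self.2 hx
  rw [h1, h2]
  unfold pt
  simp

theorem rotf_mp (s : ℝ) : MeasurePreserving (rotf s) lam lam := by
  refine ⟨rotf_meas s, ?_⟩
  ext A hA
  rw [Measure.map_apply (rotf_meas s) hA, lam_eq _ (rotf_meas s hA), lam_eq _ hA]
  have h0 : ∀ B : Set ℝ, MeasurableSet B → B ⊆ Ico (0 : ℝ) 1 → volume B = mu B := by
    intro B hB hB1
    rw [Measure.restrict_apply hB, inter_eq_left.2]
    exact fun x hx => (hB1 hx).1
  have h1 := (ps_mp 1 one_pos 1 s).measure_preimage (hA.inter (measurableSet_Ico (a := (0:ℝ)) (b := 1))).nullMeasurableSet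
  rw [h0 _ ((rotf_meas s hA).inter measurableSet_Ico) inter_subset_right,
    h0 _ (hA.inter measurableSet_Ico) inter_subset_right, ← h1]
  apply measure_congr
  filter_upwards [ae_nonneg] with x hx
  apply propext
  constructor
  · rintro ⟨h2, h3⟩
    show ps 1 1 s x ∈ A ∩ Ico 0 1
    rw [← rotf_ps s x h3]
    exact ⟨h2, rotf_mem s x h3⟩
  · intro h2
    have h2' : ps 1 1 s x ∈ A ∩ Ico (0 : ℝ) 1 := h2
    have h3 : x ∈ Ico (0 : ℝ) 1 := by
      refine ⟨hx, ?_⟩
      obtain ⟨i, u, h3, h4, rfl⟩ := exists_pt 1 one_pos x hx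
      rw [ps_pt 1 one_pos 1 s i u h3 h4, one_zpow, Equiv.Perm.one_apply] at h2'
      have h5 := h2'.2.2
      unfold pt at h5 ⊢
      rw [Nat.cast_one, div_one] at h5 ⊢
      have h6 := Int.fract_nonneg (u + s)
      have h7 : (i : ℝ) < 1 := by linarith
      have h8 : i = 0 := by
        have : i < 1 := by exact_mod_cast h7
        omega
      rw [h8]
      simpa using h4
    refine ⟨?_, h3⟩
    show rotf s x ∈ A
    rw [rotf_ps s x h3]
    exact h2'.1

/-- the rotation as an automorphism -/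
noncomputable def Rt (s : ℝ) : Aut :=
  ⟨{ toFun := rotf s
     invFun := rotf (-s)
     left_inv := fun x => by rw [rotf_comp, neg_add_cancel, rotf_zero]
     right_inv := fun x => by rw [rotf_comp, add_neg_cancel, rotf_zero]
     measurable_toFun := rotf_meas s
     measurable_invFun := rotf_meas (-s) }, rotf_mp s⟩

theorem Rt_apply (s x : ℝ) : (Rt s).1 x = rotf s x := rfl

theorem aut_ext (S T : Aut) (h : ∀ x, S.1 x = T.1 x) : S = T := by
  apply Subtype.ext
  apply MeasurableEquiv.ext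
  funext x
  exact h x

theorem Rt_add (s t : ℝ) : Rt (s + t) = mulA (Rt s) (Rt t) := aut_ext _ _ fun x => (rotf_comp s t x).symm

/-- conjugated rotation flow -/
noncomputable def FLo (P : Aut) (s : ℝ) : Aut := mulA (invA P) (mulA (Rt s) P)

theorem FLo_apply (P : Aut) (s x : ℝ) : (FLo P s).1 x = P.1.symm (rotf s (P.1 x)) := rfl

theorem FLo_add (P : Aut) (s t : ℝ) : FLo P (s + t) = mulA (FLo P s) (FLo P t) := by
  apply aut_ext
  intro x
  show P.1.symm (rotf (s + t) (P.1 x)) = P.1.symm (rotf s (P.1 (P.1.symm (rotf t (P.1 x)))))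
  rw [P.1.apply_symm_apply, rotf_comp]

theorem FLo_int (P : Aut) (n : ℤ) : FLo P n = oneA := by
  apply aut_ext
  intro x
  show P.1.symm (rotf n (P.1 x)) = x
  rw [rotf_int, P.1.symm_apply_apply]

theorem FLo_zero (P : Aut) : FLo P 0 = oneA := by
  have := FLo_int P 0
  rwa [Int.cast_zero] at this

theorem FLo_add_int (P : Aut) (s : ℝ) (n : ℤ) : FLo P (s + n) = FLo P s := by
  rw [FLo_add, FLo_int]
  exact aut_ext _ _ fun x => rfl

theorem FLo_neg (P : Aut) (s : ℝ) : invA (FLo P s) = FLo P (-s) := aut_ext _ _ fun x => rfl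

theorem lam_le_mu : (lam : Measure ℝ) ≤ mu := Measure.restrict_mono (fun x hx => hx.1) le_rfl

theorem dl_rot (H : ℕ) (hH : 0 < H) (h : ℝ) (h0 : 0 ≤ h) : dl H (rotf h) id ≤ h * H := by
  have h1 := ps_close 1 1 H one_pos hH 1 h h0
  unfold dl
  have h2 : lam {x | fl H (rotf h x) ≠ fl H (id x)} ≤ ENNReal.ofReal (h * H) := by
    have h3 : lam {x | fl H (rotf h x) ≠ fl H (id x)} ≤
        lam {x | x < ((1 : ℕ) : ℝ) ∧ fl (1 * H) (ps 1 1 h x) ≠ fl (1 * H) (id x)} := by
      apply measure_mono_ae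
      filter_upwards [ae_Ico] with x hx hmem
      refine ⟨by simpa using hx.2, ?_⟩
      have hmem' : fl H (rotf h x) ≠ fl H (id x) := hmem
      rw [← rotf_ps h x hx, one_mul]
      exact hmem'
    refine h3.trans ((lam_le_mu _).trans (h1.trans ?_))
    rw [Nat.cast_one, one_mul]
  rw [measureReal_def]
  have h4 := ENNReal.toReal_mono ENNReal.ofReal_ne_top h2
  rwa [ENNReal.toReal_ofReal (by positivity)] at h4

theorem Rt_small : Tendsto Rt (𝓝 0) (𝓝 oneA) := by
  intro O hO
  have hO2 : {T : Aut | T ∈ O ∧ invA T ∈ O} ∈ 𝓝 (oneA : Aut) := by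
    refine Filter.inter_mem hO ?_
    have h1 := tend_inv F0 (𝓝 (oneA : Aut)) id oneA Filter.tendsto_id
    have e : invA (oneA : Aut) = oneA := aut_ext _ _ (fun x => rfl)
    rw [e] at h1
    exact h1 hO
  obtain ⟨m, hm, θ, hθ, h1⟩ := nhds_dl0 oneA _ hO2 1 one_pos
  have hm0 : (0 : ℝ) < ((1 * m : ℕ) : ℝ) := by
    have : 0 < 1 * m := by omega
    exact_mod_cast this
  rw [mem_map, Metric.mem_nhds_iff]
  refine ⟨θ / ((1 * m : ℕ) : ℝ), by positivity, ?_⟩
  intro h hh
  rw [Metric.mem_ball, dist_zero_right, Real.norm_eq_abs] at hh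
  have key : ∀ g : ℝ, 0 ≤ g → g < θ / ((1 * m : ℕ) : ℝ) → Rt g ∈ O ∧ invA (Rt g) ∈ O := by
    intro g g0 g1
    apply h1
    have h2 := dl_rot (1 * m) (by omega) g g0
    rw [lt_div_iff₀ hm0] at g1
    exact lt_of_le_of_lt h2 g1
  show Rt h ∈ O
  rcases le_total 0 h with h0 | h0
  · exact (key h h0 (by rwa [abs_of_nonneg h0] at hh)).1
  · have := (key (-h) (by linarith) (by rwa [abs_of_nonpos h0] at hh)).2
    have e : invA (Rt (-h)) = Rt h := by
      apply aut_ext
      intro x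
      show rotf (- -h) x = rotf h x
      rw [neg_neg]
    rwa [e] at this

theorem FLo_small (P : Aut) : Tendsto (fun h => FLo P h) (𝓝 0) (𝓝 oneA) := by
  have h1 := tend_mul F0 (𝓝 (0 : ℝ)) _ _ _ _ Rt_small (tendsto_const_nhds (x := P))
  have h2 := tend_mul F0 (𝓝 (0 : ℝ)) _ _ _ _ (tendsto_const_nhds (x := invA P)) h1
  have e : mulA (invA P) (mulA oneA P) = oneA := by
    apply aut_ext
    intro x
    exact P.1.symm_apply_apply x
  rw [e] at h2
  exact h2

theorem FLo_cont (P : Aut) : Continuous (fun s => FLo P s) := by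
  rw [continuous_iff_continuousAt]
  intro t0
  have h1 : Tendsto (fun t : ℝ => t - t0) (𝓝 t0) (𝓝 0) := by
    have h0 : Continuous (fun t : ℝ => t - t0) := by fun_prop
    have h := h0.tendsto t0
    rwa [sub_self] at h
  have h2 := (FLo_small P).comp h1
  have h4 := tend_mul F0 (𝓝 t0) _ _ _ _ h2 (tendsto_const_nhds (x := FLo P t0))
  have e1 : mulA oneA (FLo P t0) = FLo P t0 := aut_ext _ _ fun x => rfl
  rw [e1] at h4
  refine h4.congr fun t => ?_
  show mulA (FLo P (t - t0)) (FLo P t0) = FLo P t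
  rw [← FLo_add, sub_add_cancel]

/-- the flow with speed `v` as a path -/
noncomputable def path (P : Aut) (v : ℝ) : C(ℝ, Aut) :=
  ⟨fun t => FLo P (v * t), (FLo_cont P).comp (continuous_const.mul continuous_id)⟩

theorem path_apply (P : Aut) (v t : ℝ) : path P v t = FLo P (v * t) := rfl

/-- the flows used: rotation flows conjugated by interval permutations -/
def DD0 : Set C(ℝ, Aut) := {φ | ∃ (K : ℕ) (_ : NeZero K) (ι : Equiv.Perm (Fin K)) (p : ℕ),
  φ = path (rz K ι) ((p : ℝ) / K)}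

/-- integer powers -/
noncomputable def zpL (T : Aut) : ℤ → Aut
  | Int.ofNat k => powA T k
  | Int.negSucc k => powA (invA T) (k + 1)

theorem tend_zpL {β : Type*} (l : Filter β) (T : β → Aut) (T0 : Aut)
    (hT : Tendsto T l (𝓝 T0)) (c : ℤ) :
    Tendsto (fun b => zpL (T b) c) l (𝓝 (zpL T0 c)) := by
  cases c with
  | ofNat k => exact tend_pow F0 l T T0 hT k
  | negSucc k => exact tend_pow F0 l _ _ (tend_inv F0 l T T0 hT) (k + 1)

theorem FLo_pow (P : Aut) (s : ℝ) (k : ℕ) : powA (FLo P s) k = FLo P (k * s) := by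
  induction k with
  | zero =>
    rw [Nat.cast_zero, zero_mul, FLo_zero]
    rfl
  | succ k ih =>
    show mulA _ (powA _ k) = _
    rw [ih, ← FLo_add]
    congr 1
    push_cast
    ring

theorem FLo_zp (P : Aut) (s : ℝ) (k : ℤ) : zpL (FLo P s) k = FLo P (k * s) := by
  cases k with
  | ofNat k =>
    show powA (FLo P s) k = _
    rw [FLo_pow]
    simp
  | negSucc k =>
    show powA (invA (FLo P s)) (k + 1) = _
    rw [FLo_neg, FLo_pow]
    congr 1
    push_cast
    ring

end Pool.Agent.W744.SF
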