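import Mathlib
import Pool.Agent.W744.SF.Rot

set_option autoImplicit false
set_option linter.unusedSectionVars false
set_option linter.unusedVariables false

/-!
Cells, interval permutations and rotations.
-/

namespace Pool.Agent.W744.SF

open MeasureTheory Set Filter Topology
open scoped ENNReal symmDiff
open Pool.H359R3 Pool.H359R3.WH Pool.H359R3.IX

attribute [local instance] us

theorem pt_Ico (K : ℕ) [NeZero K] (i : Fin K) (u : ℝ) (h0 : 0 ≤ u) (h1 : u < 1) :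
    pt K i u ∈ Ico (0 : ℝ) 1 := by
  have hK : (0 : ℝ) < K := by exact_mod_cast NeZero.pos K
  unfold pt
  have h2 : ((i : ℕ) : ℝ) + 1 ≤ K := by exact_mod_cast i.2
  constructor
  · positivity
  · rw [div_lt_one hK]
    linarith

theorem exists_ptf (K : ℕ) [NeZero K] (x : ℝ) (hx : x ∈ Ico (0 : ℝ) 1) :
    ∃ (i : Fin K) (u : ℝ), 0 ≤ u ∧ u < 1 ∧ x = pt K i u := by
  obtain ⟨i, u, h0, h1, h2⟩ := exists_pt K (NeZero.pos K) x hx.1
  have h3 : i < K := by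
    have := fl_lt K x hx (NeZero.pos K)
    rwa [h2, fl_pt K (NeZero.pos K) i u h0 h1] at this
  exact ⟨⟨i, h3⟩, u, h0, h1, h2⟩

theorem flf_pt (K : ℕ) [NeZero K] (i : Fin K) (u : ℝ) (h0 : 0 ≤ u) (h1 : u < 1) : flf K (pt K i u) = i := by
  apply Fin.ext
  rw [flf_val K _ (pt_Ico K i u h0 h1), fl_pt K (NeZero.pos K) i u h0 h1]

theorem rzf_pt (K : ℕ) [NeZero K] (σ : Equiv.Perm (Fin K)) (i : Fin K) (u : ℝ) (h0 : 0 ≤ u) (h1 : u < 1) :
    rzf K σ (pt K i u) = pt K (σ i) u := by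
  rw [rzf_pos K σ _ (pt_Ico K i u h0 h1), flf_pt K i u h0 h1]
  have hK : (K : ℝ) ≠ 0 := by exact_mod_cast (NeZero.ne K)
  unfold pt
  field_simp
  ring

theorem fr_val (K : ℕ) [NeZero K] (i : Fin K) : ∃ q : ℤ, ((finRotate K i : Fin K) : ℤ) = i + 1 + q * K := by
  obtain ⟨n, rfl⟩ : ∃ n, K = n + 1 := ⟨K - 1, by have := NeZero.pos K; omega⟩
  rw [finRotate_apply]
  have h := Fin.val_add_one i
  split_ifs at h with h2
  · refine ⟨-1, ?_⟩
    rw [h, h2, Fin.val_last]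
    push_cast
    ring
  · refine ⟨0, ?_⟩
    rw [h]
    push_cast
    ring

theorem fr_zpow (K : ℕ) [NeZero K] (n : ℤ) (i : Fin K) :
    ∃ q : ℤ, (((finRotate K ^ n) i : Fin K) : ℤ) = i + n + q * K := by
  induction n using Int.induction_on with
  | zero => exact ⟨0, by simp⟩
  | succ n ih =>
    obtain ⟨q, hq⟩ := ih
    obtain ⟨q', hq'⟩ := fr_val K ((finRotate K ^ (n : ℤ)) i)
    refine ⟨q + q', ?_⟩
    rw [add_comm (n : ℤ) 1, zpow_add, zpow_one, Equiv.Perm.mul_apply, hq', hq]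
    ring
  | pred n ih =>
    obtain ⟨q, hq⟩ := ih
    obtain ⟨q', hq'⟩ := fr_val K ((finRotate K ^ (-(n : ℤ) - 1)) i)
    refine ⟨q - q', ?_⟩
    rw [← Equiv.Perm.mul_apply, ← zpow_one_add, show (1 : ℤ) + (-(n : ℤ) - 1) = -n by ring, hq] at hq'
    linarith

theorem fin_of_cong (K : ℕ) [NeZero K] (i j : Fin K) (q : ℤ) (h : ((i : ℕ) : ℤ) = (j : ℕ) + q * K) : i = j := by
  have h1 := i.2
  have h2 := j.2
  have hK : (0 : ℤ) < K := by exact_mod_cast NeZero.pos K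
  have hq : q = 0 := by
    by_contra hne
    rcases lt_or_gt_of_ne hne with h3 | h3
    · have : q * K ≤ -1 * K := mul_le_mul_of_nonneg_right (by omega) hK.le
      omega
    · have : 1 * K ≤ q * K := mul_le_mul_of_nonneg_right (by omega) hK.le
      omega
  rw [hq, zero_mul, add_zero] at h
  apply Fin.ext
  exact_mod_cast h

theorem rotf_pt (K : ℕ) [NeZero K] (s : ℝ) (i : Fin K) (u : ℝ) (h0 : 0 ≤ u) (h1 : u < 1) :
    rotf (s / K) (pt K i u) = pt K ((finRotate K ^ ⌊u + s⌋) i) (Int.fract (u + s)) := by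
  have hK : (0 : ℝ) < K := by exact_mod_cast NeZero.pos K
  rw [rotf_pos _ _ (pt_Ico K i u h0 h1)]
  obtain ⟨q, hq⟩ := fr_zpow K ⌊u + s⌋ i
  have hq' : ((((finRotate K ^ ⌊u + s⌋) i : Fin K) : ℕ) : ℝ) = (i : ℕ) + (⌊u + s⌋ : ℤ) + q * K := by
    exact_mod_cast congrArg (fun z : ℤ => (z : ℝ)) hq
  have h2 := pt_Ico K ((finRotate K ^ ⌊u + s⌋) i) (Int.fract (u + s)) (Int.fract_nonneg _) (Int.fract_lt_one _)
  rw [Int.fract_eq_iff]
  refine ⟨h2.1, h2.2, -q, ?_⟩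
  unfold pt
  rw [hq']
  have h3 := Int.floor_add_fract (u + s)
  field_simp
  push_cast
  linarith

/-- the cyclic permutation of the cells -/
def cyc (K : ℕ) (ι : Equiv.Perm (Fin K)) : Equiv.Perm (Fin K) := ι⁻¹ * finRotate K * ι

theorem cyc_zpow (K : ℕ) (ι : Equiv.Perm (Fin K)) (n : ℤ) : cyc K ι ^ n = ι⁻¹ * finRotate K ^ n * ι := by
  have h : cyc K ι = ι⁻¹ * finRotate K * (ι⁻¹)⁻¹ := by rw [inv_inv]; rfl
  rw [h, conj_zpow, inv_inv]

theorem FLo_pt (K : ℕ) [NeZero K] (ι : Equiv.Perm (Fin K)) (s : ℝ) (i : Fin K) (u : ℝ) (h0 : 0 ≤ u) (h1 : u < 1) :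
    (FLo (rz K ι) (s / K)).1 (pt K i u) = pt K ((cyc K ι ^ ⌊u + s⌋) i) (Int.fract (u + s)) := by
  show rzf K ι⁻¹ (rotf (s / K) (rzf K ι (pt K i u))) = _
  rw [rzf_pt K ι i u h0 h1, rotf_pt K s _ u h0 h1, rzf_pt K _ _ _ (Int.fract_nonneg _) (Int.fract_lt_one _),
    cyc_zpow]
  rfl

theorem FLo_pt_int (K : ℕ) [NeZero K] (ι : Equiv.Perm (Fin K)) (n : ℤ) (i : Fin K) (u : ℝ) (h0 : 0 ≤ u)
    (h1 : u < 1) : (FLo (rz K ι) ((n : ℝ) / K)).1 (pt K i u) = pt K ((cyc K ι ^ n) i) u := by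
  rw [FLo_pt K ι n i u h0 h1, Int.floor_add_intCast, Int.floor_eq_zero_iff.2 ⟨h0, h1⟩, zero_add,
    Int.fract_add_intCast, Int.fract_eq_self.2 ⟨h0, h1⟩]

theorem FLo_pt_one (K : ℕ) [NeZero K] (ι : Equiv.Perm (Fin K)) (i : Fin K) (u : ℝ) (h0 : 0 ≤ u)
    (h1 : u < 1) : (FLo (rz K ι) (1 / (K : ℝ))).1 (pt K i u) = pt K (cyc K ι i) u := by
  have := FLo_pt_int K ι 1 i u h0 h1
  rwa [Int.cast_one, zpow_one] at this

theorem FLo_zpow_pt (K : ℕ) [NeZero K] (ι : Equiv.Perm (Fin K)) (n : ℤ) (i : Fin K) (u : ℝ) (h0 : 0 ≤ u)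
    (h1 : u < 1) : (zpL (FLo (rz K ι) (1 / (K : ℝ))) n).1 (pt K i u) = pt K ((cyc K ι ^ n) i) u := by
  rw [FLo_zp, mul_one_div]
  exact FLo_pt_int K ι n i u h0 h1

theorem fl_pt_div (K0 c : ℕ) [NeZero (K0 * c)] (hK0 : 0 < K0) (hc : 0 < c) (i : Fin (K0 * c)) (u : ℝ) (h0 : 0 ≤ u)
    (h1 : u < 1) : fl K0 (pt (K0 * c) i u) = (i : ℕ) / c := by
  rw [fl_div K0 c hK0 hc, fl_pt (K0 * c) (NeZero.pos _) i u h0 h1]

/-- moving less than one cell changes the label at most where moving one cell does -/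
theorem susp_dl (K0 c : ℕ) [NeZero (K0 * c)] (hK0 : 0 < K0) (hc : 0 < c) (ι : Equiv.Perm (Fin (K0 * c))) (r : ℝ)
    (hr0 : 0 ≤ r) (hr1 : r < 1) :
    dl K0 (FLo (rz (K0 * c) ι) (r / ((K0 * c : ℕ) : ℝ))).1 id ≤
      dl K0 (FLo (rz (K0 * c) ι) (1 / ((K0 * c : ℕ) : ℝ))).1 id := by
  unfold dl
  rw [measureReal_def, measureReal_def]
  apply ENNReal.toReal_mono (lam_ne_top _)
  apply measure_mono_ae
  filter_upwards [ae_Ico] with x hx hmem h
  apply hmem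
  obtain ⟨i, u, h0, h1, rfl⟩ := exists_ptf (K0 * c) x hx
  rw [FLo_pt_one _ ι i u h0 h1, id_eq, fl_pt_div K0 c hK0 hc _ u h0 h1, fl_pt_div K0 c hK0 hc _ u h0 h1] at h
  rw [FLo_pt _ ι r i u h0 h1, id_eq, fl_pt_div K0 c hK0 hc _ _ (Int.fract_nonneg _) (Int.fract_lt_one _),
    fl_pt_div K0 c hK0 hc _ u h0 h1]
  rcases lt_or_ge (u + r) 1 with h5 | h5
  · rw [Int.floor_eq_zero_iff.2 ⟨by linarith, h5⟩, zpow_zero, Equiv.Perm.one_apply]
  · have h6 : ⌊u + r⌋ = 1 := by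
      rw [Int.floor_eq_iff]
      push_cast
      constructor <;> linarith
    rw [h6, zpow_one, h]

theorem dens_cyc (hC : S_Cyc) (T : Aut) (O : Set Aut) (hO : O ∈ 𝓝 T) (H : ℕ) (hH : 0 < H) :
    ∃ (K : ℕ) (_ : NeZero K) (ι : Equiv.Perm (Fin K)), H ∣ K ∧ FLo (rz K ι) (1 / (K : ℝ)) ∈ O := by
  obtain ⟨m, hm, θ, hθ, h1⟩ := nhds_dl0 T O hO H hH
  obtain ⟨n, hn, hdvd, t, ht⟩ := perm_dense T (H * m) (by positivity) (θ / 2) (by positivity)
  obtain ⟨j, hj⟩ := exists_nat_gt (2 / θ)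
  have hj0 : 0 < j := by
    have : (0 : ℝ) < j := lt_trans (by positivity) hj
    exact_mod_cast this
  obtain ⟨ι, hι⟩ := hC n t j hj0
  have hnp : 0 < n := NeZero.pos n
  have hK : NeZero (n * j) := ⟨by positivity⟩
  refine ⟨n * j, hK, ι, ((Dvd.intro _ rfl).trans hdvd).trans (Dvd.intro _ rfl), ?_⟩
  apply h1
  have h2 : dl n (FLo (rz (n * j) ι) (1 / ((n * j : ℕ) : ℝ))).1 (rz n t).1 ≤ 1 / j := by
    have h3 : dl n (FLo (rz (n * j) ι) (1 / ((n * j : ℕ) : ℝ))).1 (rz n t).1 ≤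
        lam.real {x | (fun z : Fin (n * j) => ((ι⁻¹ (finRotate (n * j) (ι z)) : Fin (n * j)) : ℕ) / j ≠
          (t (Fin.ofNat n ((z : ℕ) / j)) : ℕ)) (flf (n * j) x)} := by
      unfold dl
      rw [measureReal_def, measureReal_def]
      apply ENNReal.toReal_mono (lam_ne_top _)
      apply measure_mono_ae
      filter_upwards [ae_Ico] with x hx hmem h
      apply hmem
      obtain ⟨i, u, h0, h4, rfl⟩ := exists_ptf (n * j) x hx
      rw [flf_pt _ i u h0 h4] at h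
      rw [FLo_pt_one _ ι i u h0 h4, fl_pt_div n j hnp hj0 _ u h0 h4]
      have h5 := rzf_mem n t _ (pt_Ico (n * j) i u h0 h4)
      have h6 : fl n (rzf n t (pt (n * j) i u)) = (t (flf n (pt (n * j) i u)) : ℕ) := by
        rw [← flf_val n _ h5.1, h5.2]
      rw [rz_apply, h6]
      have h7 : flf n (pt (n * j) i u) = Fin.ofNat n ((i : ℕ) / j) := by
        unfold flf
        rw [fl_pt_div n j hnp hj0 i u h0 h4]
      rw [h7]
      exact h
    have h3' := lam_lab (n * j) (fun z : Fin (n * j) => ((ι⁻¹ (finRotate (n * j) (ι z)) : Fin (n * j)) : ℕ) / j ≠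
          (t (Fin.ofNat n ((z : ℕ) / j)) : ℕ))
    refine h3.trans (h3'.le.trans ?_)
    have hnr : (0 : ℝ) < n := by exact_mod_cast hnp
    have hjr : (0 : ℝ) < j := by exact_mod_cast hj0
    push_cast
    rw [div_le_div_iff₀ (by positivity) hjr]
    nlinarith
  have h3 := dl_tri (H * m) (FLo (rz (n * j) ι) (1 / ((n * j : ℕ) : ℝ))).1 (rz n t).1 T.1
  have h4 := dl_dvd (H * m) n (by positivity) hnp hdvd (FLo (rz (n * j) ι) (1 / ((n * j : ℕ) : ℝ))).1 (rz n t).1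
  have h5 : (1 : ℝ) / j < θ / 2 := by
    have hjr : (0 : ℝ) < j := by exact_mod_cast hj0
    rw [div_lt_iff₀ hθ] at hj
    rw [div_lt_div_iff₀ hjr (by norm_num)]
    linarith
  linarith

end Pool.Agent.W744.SF
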