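import Mathlib
import Pool.Agent.H359R3.IX18

set_option autoImplicit false
set_option linter.unusedSectionVars false
set_option linter.unusedVariables false

/-!
A Baire category lemma for images, with countably many additional open conditions.
-/

namespace Pool.Agent.W744.SF

open Set Filter Topology

theorem baire2 {E F : Type*} [PseudoMetricSpace E] [CompleteSpace E] [SecondCountableTopology E]
    [PseudoMetricSpace F] (π : E → F) (hπ : Continuous π) (D : Set E) (O : ℕ → Set E) (hO : ∀ n, IsOpen (O n))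
    (hOD : ∀ n, ∀ U : Set E, IsOpen U → (U ∩ D).Nonempty → (U ∩ O n ∩ D).Nonempty)
    (h1 : ∀ U : Set E, IsOpen U → (U ∩ D).Nonempty → (interior (closure (π '' (U ∩ D)))).Nonempty)
    (h2 : Dense (π '' D)) :
    {y | ∃ x ∈ closure D ∩ ⋂ n, O n, dist y (π x) = 0} ∈ residual F := by
  classical
  let b := TopologicalSpace.countableBasis E
  have hb : TopologicalSpace.IsTopologicalBasis b := TopologicalSpace.isBasis_countableBasis E
  have hbc : b.Countable := TopologicalSpace.countable_countableBasis E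
  let V : Set E → Set F := fun U => interior (closure (π '' (U ∩ D)))
  let G : Set E → ℕ → Set F := fun U n => ⋃ U' ∈ {U' | U' ∈ b ∧ closure U' ⊆ U ∩ O n ∧ (U' ∩ D).Nonempty ∧
    ∀ x ∈ U', ∀ y ∈ U', dist x y ≤ 1 / ((n : ℝ) + 1)}, V U'
  have hGo : ∀ U n, IsOpen (G U n) := fun U n => isOpen_biUnion (fun U' _ => isOpen_interior)
  -- density step
  have key : ∀ U n, IsOpen U → ∀ Q : Set F, IsOpen Q → (∃ x ∈ U ∩ D, π x ∈ Q) → (Q ∩ G U n).Nonempty := by
    rintro U n hU Q hQ ⟨x0', ⟨hx0', hx0D'⟩, hx0Q'⟩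
    obtain ⟨x0, ⟨⟨hx0, hx0Q⟩, hx0O⟩, hx0D⟩ := hOD n (U ∩ π ⁻¹' Q) (hU.inter (hQ.preimage hπ))
      ⟨x0', ⟨hx0', hx0Q'⟩, hx0D'⟩
    have hU1 : IsOpen ((U ∩ O n) ∩ π ⁻¹' Q) := (hU.inter (hO n)).inter (hQ.preimage hπ)
    obtain ⟨r, hr, hrU⟩ := Metric.isOpen_iff.1 hU1 x0 ⟨⟨hx0, hx0O⟩, hx0Q⟩
    set r' := min (r / 2) (1 / (2 * ((n : ℝ) + 1))) with hr'
    have hr'0 : 0 < r' := by
      rw [hr']
      apply lt_min
      · linarith
      · positivity
    obtain ⟨U', hU'b, hxU', hU'sub⟩ := hb.exists_subset_of_mem_open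
      (Metric.mem_ball_self hr'0 : x0 ∈ Metric.ball x0 r') Metric.isOpen_ball
    have hcl : closure U' ⊆ (U ∩ O n) ∩ π ⁻¹' Q := by
      refine subset_trans (closure_mono hU'sub) (subset_trans Metric.closure_ball_subset_closedBall ?_)
      refine subset_trans (Metric.closedBall_subset_ball ?_) hrU
      have := min_le_left (r / 2) (1 / (2 * ((n : ℝ) + 1)))
      rw [← hr'] at this
      linarith
    have hU'o : IsOpen U' := hb.isOpen hU'b
    have hU'sub2 : U' ⊆ (U ∩ O n) ∩ π ⁻¹' Q := subset_trans subset_closure hcl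
    obtain ⟨z, hz⟩ := h1 U' hU'o ⟨x0, hxU', hx0D⟩
    have hz2 : z ∈ closure Q := by
      refine closure_mono ?_ (interior_subset hz)
      rintro _ ⟨x, ⟨hx, _⟩, rfl⟩
      exact (hU'sub2 hx).2
    obtain ⟨w, hw1, hw2⟩ := mem_closure_iff.1 hz2 _ isOpen_interior hz
    refine ⟨w, hw2, ?_⟩
    simp only [G, mem_iUnion, exists_prop]
    refine ⟨U', ⟨hU'b, fun x hx => (hcl hx).1, ⟨x0, hxU', hx0D⟩, ?_⟩, hw1⟩
    intro x hx y hy
    have e1 := Metric.mem_ball.1 (hU'sub hx)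
    have e2 := Metric.mem_ball.1 (hU'sub hy)
    have e3 : r' ≤ 1 / (2 * ((n : ℝ) + 1)) := min_le_right _ _
    have e4 := dist_triangle_right x y x0
    have e5 : 1 / (2 * ((n : ℝ) + 1)) + 1 / (2 * ((n : ℝ) + 1)) = 1 / ((n : ℝ) + 1) := by
      field_simp
      norm_num
    linarith
  -- the residual sets
  have hroot : G univ 0 ∈ residual F := by
    refine residual_of_dense_open (hGo univ 0) ?_
    rw [dense_iff_inter_open]
    intro Q hQ hne
    obtain ⟨_, hy, ⟨x, hx, rfl⟩⟩ := (dense_iff_inter_open.1 h2) Q hQ hne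
    exact key univ 0 isOpen_univ Q hQ ⟨x, ⟨mem_univ _, hx⟩, hy⟩
  have hstep : ∀ U ∈ b, ∀ n, (V U)ᶜ ∪ G U n ∈ residual F := by
    intro U hU n
    refine Filter.mem_of_superset (x := (closure (V U))ᶜ ∪ G U n)
      (residual_of_dense_open (isClosed_closure.isOpen_compl.union (hGo U n)) ?_) ?_
    · rw [dense_iff_inter_open]
      intro P hP hne
      by_cases h : (P ∩ V U).Nonempty
      · obtain ⟨z, hz1, hz2⟩ := h
        have hz3 : z ∈ closure (π '' (U ∩ D)) := interior_subset hz2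
        obtain ⟨_, hw1, ⟨x, hx, rfl⟩⟩ := mem_closure_iff.1 hz3 (P ∩ V U) (hP.inter isOpen_interior) ⟨hz1, hz2⟩
        obtain ⟨w, hw2, hw3⟩ := key U n (hb.isOpen hU) (P ∩ V U) (hP.inter isOpen_interior) ⟨x, hx, hw1⟩
        exact ⟨w, hw2.1, Or.inr hw3⟩
      · obtain ⟨z, hz⟩ := hne
        refine ⟨z, hz, Or.inl ?_⟩
        intro hz2
        obtain ⟨w, hw1, hw2⟩ := mem_closure_iff.1 hz2 P hP hz
        exact h ⟨w, hw1, hw2⟩
    · exact union_subset_union_left _ (compl_subset_compl.2 subset_closure)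
  have hall : (⋂ U ∈ b, ⋂ n : ℕ, ((V U)ᶜ ∪ G U n)) ∩ G univ 0 ∈ residual F := by
    refine Filter.inter_mem ?_ hroot
    rw [countable_bInter_mem hbc]
    intro U hU
    rw [countable_iInter_mem]
    exact hstep U hU
  refine Filter.mem_of_superset hall ?_
  rintro y ⟨hy1, hy2⟩
  simp only [mem_iInter] at hy1
  -- the nested sequence
  have hnext : ∀ (U : {U : Set E // U ∈ b ∧ y ∈ V U}) (n : ℕ),
      ∃ U' : {U : Set E // U ∈ b ∧ y ∈ V U}, closure U'.1 ⊆ U.1 ∩ O n ∧ (U'.1 ∩ D).Nonempty ∧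
        ∀ x ∈ U'.1, ∀ z ∈ U'.1, dist x z ≤ 1 / ((n : ℝ) + 1) := by
    rintro ⟨U, hU1, hU3⟩ n
    have h := hy1 U hU1 n
    rcases h with h | h
    · exact absurd hU3 h
    · simp only [G, mem_iUnion, exists_prop] at h
      obtain ⟨U', ⟨h3, h4, h5, h6⟩, h7⟩ := h
      exact ⟨⟨U', h3, h7⟩, h4, h5, h6⟩
  simp only [G, mem_iUnion, exists_prop] at hy2
  obtain ⟨U0, ⟨h3, h4, h5, h6⟩, h7⟩ := hy2
  let s0 : {U : Set E // U ∈ b ∧ y ∈ V U} := ⟨U0, h3, h7⟩
  choose nx hnx1 hnx2 hnx3 using hnext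
  let s : ℕ → {U : Set E // U ∈ b ∧ y ∈ V U} := fun n => Nat.rec s0 (fun k U => nx U k) n
  have hs : ∀ n, s (n + 1) = nx (s n) n := fun n => rfl
  have hsub' : ∀ n, closure (s (n + 1)).1 ⊆ (s n).1 ∩ O n := fun n => hnx1 (s n) n
  have hsub : ∀ n, closure (s (n + 1)).1 ⊆ (s n).1 := fun n x hx => (hsub' n hx).1
  have hmono : ∀ n k, (s (n + k)).1 ⊆ (s n).1 := by
    intro n k
    induction k with
    | zero => exact subset_rfl
    | succ k ih => exact subset_trans (subset_trans subset_closure (hsub (n + k))) ih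
  have hne : ∀ n, ((s (n + 1)).1 ∩ D).Nonempty := fun n => hnx2 (s n) n
  choose x hx using hne
  have hcau : CauchySeq x := by
    rw [Metric.cauchySeq_iff]
    intro ε hε
    obtain ⟨N, hN⟩ := exists_nat_one_div_lt hε
    refine ⟨N, fun m hm n hn => ?_⟩
    have e1 : x m ∈ (s (N + 1)).1 := by
      obtain ⟨k, rfl⟩ := Nat.exists_eq_add_of_le hm
      have := hmono (N + 1) k
      have h8 := (hx (N + k)).1
      rw [show N + k + 1 = N + 1 + k by ring] at h8
      exact this h8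
    have e2 : x n ∈ (s (N + 1)).1 := by
      obtain ⟨k, rfl⟩ := Nat.exists_eq_add_of_le hn
      have := hmono (N + 1) k
      have h8 := (hx (N + k)).1
      rw [show N + k + 1 = N + 1 + k by ring] at h8
      exact this h8
    exact lt_of_le_of_lt (hnx3 (s N) N _ e1 _ e2) hN
  obtain ⟨a, ha⟩ := cauchySeq_tendsto_of_complete hcau
  have hacl : ∀ n, a ∈ closure (s (n + 1)).1 := by
    intro n
    refine mem_closure_of_tendsto ha ?_
    filter_upwards [eventually_ge_atTop n] with m hm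
    obtain ⟨k, rfl⟩ := Nat.exists_eq_add_of_le hm
    have h8 := (hx (n + k)).1
    rw [show n + k + 1 = n + 1 + k by ring] at h8
    exact hmono (n + 1) k h8
  have ha' : ∀ n, a ∈ (s n).1 := fun n => hsub n (hacl n)
  refine ⟨a, ⟨?_, ?_⟩, ?_⟩
  · exact mem_closure_of_tendsto ha (Eventually.of_forall (fun n => (hx n).2))
  · exact mem_iInter.2 fun n => (hsub' n (hacl n)).2
  · by_contra hne0
    have hpos : 0 < dist y (π a) := lt_of_le_of_ne dist_nonneg (Ne.symm hne0)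
    obtain ⟨δ, hδ, hδ'⟩ := Metric.continuous_iff.1 hπ a (dist y (π a) / 2) (by linarith)
    obtain ⟨N, hN⟩ := exists_nat_one_div_lt hδ
    have hyV : y ∈ closure (π '' ((s (N + 1)).1 ∩ D)) := interior_subset (s (N + 1)).2.2
    have hsubb : π '' ((s (N + 1)).1 ∩ D) ⊆ Metric.closedBall (π a) (dist y (π a) / 2) := by
      rintro _ ⟨z, ⟨hz, _⟩, rfl⟩
      rw [Metric.mem_closedBall]
      have e1 : dist z a ≤ 1 / ((N : ℝ) + 1) := hnx3 (s N) N _ hz _ (ha' (N + 1))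
      exact (hδ' z (lt_of_le_of_lt e1 hN)).le
    have h9 : y ∈ Metric.closedBall (π a) (dist y (π a) / 2) :=
      (closure_minimal hsubb Metric.isClosed_closedBall) hyV
    rw [Metric.mem_closedBall] at h9
    linarith

/-- category lemma for path spaces times a Polish space of vectors -/
theorem flow_baire2 {A B : Type*} [UniformSpace A] [CompleteSpace A] [SecondCountableTopology A]
    [(uniformity A).IsCountablyGenerated] [UniformSpace B] [CompleteSpace B] [SecondCountableTopology B]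
    [(uniformity B).IsCountablyGenerated] [Nonempty B] (D : Set C(ℝ, A)) (O : ℕ → Set (C(ℝ, A) × B))
    (hO : ∀ n, IsOpen (O n))
    (hOD : ∀ n, ∀ U : Set C(ℝ, A), ∀ W : Set B, IsOpen U → IsOpen W → (U ∩ D).Nonempty → W.Nonempty →
      ∃ φ ∈ U ∩ D, ∃ f ∈ W, (φ, f) ∈ O n)
    (h1 : ∀ U : Set C(ℝ, A), IsOpen U → (U ∩ D).Nonempty →
      (interior (closure ((fun φ : C(ℝ, A) => φ 1) '' (U ∩ D)))).Nonempty)
    (h2 : Dense ((fun φ : C(ℝ, A) => φ 1) '' D)) :
    {y : A | ∃ φ ∈ closure D, ∃ f : B, (∀ n, (φ, f) ∈ O n) ∧ Inseparable y (φ 1)} ∈ residual A := by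
  classical
  let pE : PseudoMetricSpace C(ℝ, A) := UniformSpace.pseudoMetricSpace C(ℝ, A)
  let pB : PseudoMetricSpace B := UniformSpace.pseudoMetricSpace B
  have key : Continuous (fun p : C(ℝ, A) × B => p.1 1) := (continuous_eval_const (1 : ℝ)).comp continuous_fst
  let pA : PseudoMetricSpace A := UniformSpace.pseudoMetricSpace A
  have main := baire2 (E := C(ℝ, A) × B) (F := A) (fun p => p.1 1) key (D ×ˢ univ) O hO ?_ ?_ ?_
  · refine Filter.mem_of_superset main ?_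
    rintro y ⟨⟨φ, f⟩, ⟨hφ, hO'⟩, hy⟩
    rw [closure_prod_eq] at hφ
    exact ⟨φ, hφ.1, f, fun n => mem_iInter.1 hO' n, Metric.inseparable_iff.2 hy⟩
  · rintro n U hU ⟨⟨φ, f⟩, hφU, hφD⟩
    obtain ⟨U1, W1, hU1, hW1, h3, h4, h5⟩ := isOpen_prod_iff.1 hU φ f hφU
    obtain ⟨ψ, hψ, g, hg, h6⟩ := hOD n U1 W1 hU1 hW1 ⟨φ, h3, hφD.1⟩ ⟨f, h4⟩
    exact ⟨(ψ, g), ⟨h5 ⟨hψ.1, hg⟩, h6⟩, hψ.2, mem_univ _⟩
  · rintro U hU ⟨⟨φ, f⟩, hφU, hφD⟩
    obtain ⟨U1, W1, hU1, hW1, h3, h4, h5⟩ := isOpen_prod_iff.1 hU φ f hφU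
    refine (h1 U1 hU1 ⟨φ, h3, hφD.1⟩).mono (interior_mono (closure_mono ?_))
    rintro _ ⟨ψ, hψ, rfl⟩
    exact ⟨(ψ, f), ⟨h5 ⟨hψ.1, h4⟩, hψ.2, mem_univ _⟩, rfl⟩
  · refine h2.mono ?_
    rintro _ ⟨ψ, hψ, rfl⟩
    exact ⟨(ψ, Classical.arbitrary B), ⟨hψ, mem_univ _⟩, rfl⟩

end Pool.Agent.W744.SF
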