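import Mathlib
import Pool.Agent.W744.SF.Cell
import Pool.Agent.W744.SF.Cat

set_option autoImplicit false
set_option linter.unusedSectionVars false
set_option linter.unusedVariables false

/-!
Time one maps of cyclic suspension flows in an open set are somewhere dense.
-/

namespace Pool.Agent.W744.SF

open MeasureTheory Set Filter Topology
open scoped ENNReal symmDiff
open Pool.H359R3 Pool.H359R3.WH Pool.H359R3.IX

attribute [local instance] us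

theorem ctop : (inferInstance : CompleteSpace Aut) = (inferInstance : CompleteSpace Aut) := rfl

theorem tri3 (P Q A0 A : Aut) (C : Set ℝ) (hC : MeasurableSet C) :
    lam (((mulA A0 P).1 ⁻¹' C) ∆ ((mulA A Q).1 ⁻¹' C)) ≤
      lam ((A0.1 ⁻¹' C) ∆ C) + (lam ((P.1 ⁻¹' C) ∆ (Q.1 ⁻¹' C)) + lam ((A.1 ⁻¹' C) ∆ C)) := by
  have h1 := sd_tri (μ := lam) (P.1 ⁻¹' (A0.1 ⁻¹' C)) (P.1 ⁻¹' C) (Q.1 ⁻¹' (A.1 ⁻¹' C))
  have h2 := sd_tri (μ := lam) (P.1 ⁻¹' C) (Q.1 ⁻¹' C) (Q.1 ⁻¹' (A.1 ⁻¹' C))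
  rw [pre_sd P.2 _ _ (A0.1.measurable hC) hC] at h1
  rw [pre_sd Q.2 _ _ hC (A.1.measurable hC), symmDiff_comm C] at h2
  exact h1.trans (add_le_add le_rfl h2)

/-- neighbourhoods of a path: only preimages of finitely many sets matter -/
theorem path_red (U : Set C(ℝ, Aut)) (hU : IsOpen U) (P1 : Aut) (v1 : ℝ) (h : path P1 v1 ∈ U) :
    ∃ (R n : ℕ) (δ : ℝ), 0 < δ ∧ ∀ (P : Aut) (v : ℝ),
      (∀ t : ℝ, |t| ≤ R → ∀ i < n, lam.real (((path P1 v1 t).1 ⁻¹' F0.C i) ∆ ((path P v t).1 ⁻¹' F0.C i)) < δ) →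
      path P v ∈ U := by
  obtain ⟨R, V, hV, hφ⟩ := nhds_path U hU _ h
  obtain ⟨n, ε, hε, hST⟩ := un_basis F0 V hV
  obtain ⟨δ, hδ, hδε⟩ := ofReal_small ε hε
  refine ⟨R, n, δ, hδ, fun P v hh => ?_⟩
  apply hφ
  have aux : ∀ s : Set ℝ, lam.real s < δ → lam s < ε := by
    intro s hs
    refine lt_of_lt_of_le ?_ hδε
    rw [measureReal_def] at hs
    rwa [ENNReal.lt_ofReal_iff_toReal_lt (lam_ne_top _)]
  have hneg : ∀ (P : Aut) (v t : ℝ), ((path P v (-t)).1 : ℝ → ℝ) = (path P v t).1.symm := by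
    intro P v t
    funext x
    show P.1.symm (rotf (v * -t) (P.1 x)) = P.1.symm (rotf (-(v * t)) (P.1 x))
    rw [mul_neg]
  intro t ht
  apply hST
  intro i hi
  refine ⟨aux _ (hh t ht i hi), ?_⟩
  have h2 := hh (-t) (by rwa [abs_neg]) i hi
  rw [hneg, hneg] at h2
  exact aux _ h2

theorem claimB (U : Set C(ℝ, Aut)) (hU : IsOpen U) (P1 : Aut) (v1 : ℝ) (hv1 : 0 ≤ v1)
    (h : path P1 v1 ∈ U) :
    ∃ (p K0 : ℕ), 0 < p ∧ 0 < K0 ∧ ∃ O : Set Aut, IsOpen O ∧ FLo P1 (v1 / p) ∈ O ∧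
      ∀ (K : ℕ) [NeZero K] (ι : Equiv.Perm (Fin K)), K0 ∣ K → FLo (rz K ι) (1 / (K : ℝ)) ∈ O →
        path (rz K ι) ((p : ℝ) / K) ∈ U := by
  classical
  obtain ⟨R, n, δ, hδ, red⟩ := path_red U hU P1 v1 h
  set η : ℝ := δ / 16 with hη
  have hη0 : 0 < η := by positivity
  obtain ⟨m, hm, hB⟩ := Apx_multi F0.C F0.meas n 1 one_pos η hη0
  set K0 := 1 * m with hK0
  have hK0p : 0 < K0 := by rw [hK0, one_mul]; exact hm
  choose! B hB using hB
  -- near the identity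
  have hG : ∀ᶠ T : Aut in 𝓝 oneA, (∀ i ∈ Finset.range n, lam.real ((T.1 ⁻¹' F0.C i) ∆ F0.C i) < η) ∧
      dl K0 T.1 (oneA : Aut).1 < η := by
    refine Filter.Eventually.and ?_ (dl_nhds0 oneA K0 hK0p η hη0)
    rw [Filter.eventually_all_finset]
    intro i _
    exact ((tend_real_iff _ _).1 (of_tendsto_un F0 (𝓝 oneA) id oneA Filter.tendsto_id (F0.C i) (F0.meas i)
      (measure_lt_top _ _))).eventually (gt_mem_nhds hη0)
  have hG2 := (FLo_small P1).eventually hG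
  rw [Metric.eventually_nhds_iff] at hG2
  obtain ⟨ρ, hρ, hG3⟩ := hG2
  obtain ⟨p, hp⟩ := exists_nat_gt (v1 / ρ)
  have hpr : (0 : ℝ) < p := lt_of_le_of_lt (by positivity) hp
  have hp0 : 0 < p := by exact_mod_cast hpr
  have hp1 : ∀ r : ℝ, 0 ≤ r → r ≤ 1 → dist (v1 * (r / p)) 0 < ρ := by
    intro r h0 h1
    rw [dist_zero_right, Real.norm_eq_abs, abs_of_nonneg (by positivity)]
    rw [div_lt_iff₀ hρ] at hp
    rw [mul_div_assoc', div_lt_iff₀ hpr]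
    have : v1 * r ≤ v1 := by nlinarith
    linarith
  set S1 : Aut := FLo P1 (v1 / p) with hS1
  have hO : ∀ᶠ S : Aut in 𝓝 S1, (∀ k ∈ Finset.Icc (-((p : ℤ) * R + 1)) ((p : ℤ) * R + 1), ∀ i ∈ Finset.range n,
      lam.real (((zpL S k).1 ⁻¹' F0.C i) ∆ ((zpL S1 k).1 ⁻¹' F0.C i)) < η) ∧ dl K0 S.1 S1.1 < η := by
    refine Filter.Eventually.and ?_ (dl_nhds0 S1 K0 hK0p η hη0)
    rw [Filter.eventually_all_finset]
    intro k _
    rw [Filter.eventually_all_finset]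
    intro i _
    exact ((tend_real_iff _ _).1 (of_tendsto_un F0 (𝓝 S1) _ _ (tend_zpL (𝓝 S1) id S1 Filter.tendsto_id k) (F0.C i)
      (F0.meas i) (measure_lt_top _ _))).eventually (gt_mem_nhds hη0)
  obtain ⟨O, hOsub, hOo, hS1O⟩ := mem_nhds_iff.1 hO
  refine ⟨p, K0, hp0, hK0p, O, hOo, hS1O, ?_⟩
  intro K _ ι hdvd hmem
  obtain ⟨hk1, hk2⟩ := hOsub hmem
  apply red
  intro t ht i hi
  set k := ⌊(p : ℝ) * t⌋ with hk
  set r := Int.fract ((p : ℝ) * t) with hr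
  have hr0 : 0 ≤ r := Int.fract_nonneg _
  have hr1 : r < 1 := Int.fract_lt_one _
  have hkr : (p : ℝ) * t = k + r := (Int.floor_add_fract _).symm
  have hkI : k ∈ Finset.Icc (-((p : ℤ) * R + 1)) ((p : ℤ) * R + 1) := by
    rw [abs_le] at ht
    have h1 : (p : ℝ) * t ≤ p * R := mul_le_mul_of_nonneg_left ht.2 hpr.le
    have h2 : -((p : ℝ) * R) ≤ p * t := by nlinarith [ht.1]
    rw [Finset.mem_Icc]
    constructor
    · rw [hk, Int.le_floor]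
      push_cast
      linarith
    · have h3 : (k : ℝ) ≤ p * t := Int.floor_le _
      have h4 : (k : ℝ) ≤ (((p : ℤ) * R + 1 : ℤ) : ℝ) := by
        push_cast
        linarith
      exact_mod_cast h4
  have hKr : (0 : ℝ) < K := by exact_mod_cast NeZero.pos K
  have e1 : path P1 v1 t = mulA (FLo P1 (v1 * (r / p))) (zpL S1 k) := by
    rw [path_apply, hS1, FLo_zp, ← FLo_add]
    congr 1
    have : t = (k + r) / p := by rw [← hkr]; field_simp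
    rw [this]
    field_simp
    ring
  have e2 : path (rz K ι) ((p : ℝ) / K) t = mulA (FLo (rz K ι) (r / K)) (zpL (FLo (rz K ι) (1 / (K : ℝ))) k) := by
    rw [path_apply, FLo_zp, ← FLo_add]
    congr 1
    have : (p : ℝ) / K * t = (p * t) / K := by ring
    rw [this, hkr]
    ring
  rw [e1, e2]
  have t3 := tri3 (zpL S1 k) (zpL (FLo (rz K ι) (1 / (K : ℝ))) k) (FLo P1 (v1 * (r / p))) (FLo (rz K ι) (r / K))
    (F0.C i) (F0.meas i)
  have t4 : lam.real (((mulA (FLo P1 (v1 * (r / p))) (zpL S1 k)).1 ⁻¹' F0.C i) ∆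
      ((mulA (FLo (rz K ι) (r / K)) (zpL (FLo (rz K ι) (1 / (K : ℝ))) k)).1 ⁻¹' F0.C i)) ≤
      lam.real (((FLo P1 (v1 * (r / p))).1 ⁻¹' F0.C i) ∆ F0.C i) +
      (lam.real (((zpL S1 k).1 ⁻¹' F0.C i) ∆ ((zpL (FLo (rz K ι) (1 / (K : ℝ))) k).1 ⁻¹' F0.C i)) +
      lam.real (((FLo (rz K ι) (r / K)).1 ⁻¹' F0.C i) ∆ F0.C i)) := by
    have := ENNReal.toReal_mono (by finiteness) t3
    rwa [ENNReal.toReal_add (lam_ne_top _) (by finiteness), ENNReal.toReal_add (lam_ne_top _) (lam_ne_top _)] at this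
  have b1 : lam.real (((FLo P1 (v1 * (r / p))).1 ⁻¹' F0.C i) ∆ F0.C i) < η :=
    (hG3 (hp1 r hr0 hr1.le)).1 i (Finset.mem_range.2 hi)
  have b2 : lam.real (((zpL S1 k).1 ⁻¹' F0.C i) ∆ ((zpL (FLo (rz K ι) (1 / (K : ℝ))) k).1 ⁻¹' F0.C i)) < η := by
    rw [symmDiff_comm]
    exact hk1 k hkI i (Finset.mem_range.2 hi)
  have b3 : lam.real (((FLo (rz K ι) (r / K)).1 ⁻¹' F0.C i) ∆ F0.C i) ≤ 2 * η + (η + η) := by
    have hcs := close_set K0 (B i) (F0.C i) (F0.meas i) η (hB i hi) (FLo (rz K ι) (r / K)).1 id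
      (FLo (rz K ι) (r / K)).2 (MeasurePreserving.id _)
    rw [preimage_id] at hcs
    refine hcs.trans (add_le_add le_rfl ?_)
    obtain ⟨c, hc⟩ := hdvd
    subst hc
    have hcp : 0 < c := Nat.pos_of_mul_pos_left (NeZero.pos (K0 * c))
    refine (susp_dl K0 c hK0p hcp ι r hr0 hr1).trans ?_
    refine (dl_tri K0 _ S1.1 _).trans (add_le_add hk2.le ?_)
    have h5 := hp1 1 zero_le_one le_rfl
    have h6 := (hG3 h5).2.le
    rw [mul_one_div] at h6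
    exact h6
  linarith

theorem ap_inv {α : Type*} (σ : Equiv.Perm α) (x : α) : σ (σ⁻¹ x) = x := by
  rw [← Equiv.Perm.mul_apply, mul_inv_cancel, Equiv.Perm.one_apply]

theorem inv_ap {α : Type*} (σ : Equiv.Perm α) (x : α) : σ⁻¹ (σ x) = x := by
  rw [← Equiv.Perm.mul_apply, inv_mul_cancel, Equiv.Perm.one_apply]

theorem z_comp {α : Type*} (σ : Equiv.Perm α) (a b : ℤ) (x : α) : (σ ^ a) ((σ ^ b) x) = (σ ^ (a + b)) x := by
  rw [← Equiv.Perm.mul_apply, ← zpow_add]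

/-- the skew rearrangement of the cells -/
def skw (K4 p : ℕ) (ι4 : Equiv.Perm (Fin K4)) (N : ℕ → ℤ) : Equiv.Perm (Fin K4 × Fin p) where
  toFun z := ((finRotate K4 ^ (-(N z.2))) (ι4 z.1), z.2)
  invFun z := (ι4⁻¹ ((finRotate K4 ^ (N z.2)) z.1), z.2)
  left_inv z := by
    simp only
    rw [z_comp, add_neg_cancel, zpow_zero, Equiv.Perm.one_apply, inv_ap]
  right_inv z := by
    simp only
    rw [ap_inv, z_comp, neg_add_cancel, zpow_zero, Equiv.Perm.one_apply]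

/-- the corresponding permutation of `K4 * p` cells -/
def skι (K4 p : ℕ) (ι4 : Equiv.Perm (Fin K4)) (N : ℕ → ℤ) : Equiv.Perm (Fin (K4 * p)) :=
  finProdFinEquiv.permCongr (skw K4 p ι4 N)

theorem skι_apply (K4 p : ℕ) (ι4 : Equiv.Perm (Fin K4)) (N : ℕ → ℤ) (z : Fin K4) (r : Fin p) :
    skι K4 p ι4 N (finProdFinEquiv (z, r)) = finProdFinEquiv ((finRotate K4 ^ (-(N r))) (ι4 z), r) := by
  unfold skι
  rw [Equiv.permCongr_apply, Equiv.symm_apply_apply]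
  rfl

theorem eq_of_zpow (K : ℕ) [NeZero K] (n : ℤ) (i j : Fin K) (q : ℤ)
    (h : ((j : ℕ) : ℤ) = (i : ℕ) + n + q * K) : (finRotate K ^ n) i = j := by
  obtain ⟨q', hq'⟩ := fr_zpow K n i
  apply fin_of_cong K _ _ (q' - q)
  rw [hq', h]
  ring

theorem sk_step (K4 p : ℕ) [NeZero K4] [NeZero p] [NeZero (K4 * p)] (ι4 : Equiv.Perm (Fin K4)) (N : ℕ → ℤ)
    (s : ℕ → ℤ) (hN0 : N 0 = 0) (hN : ∀ r, N (r + 1) = N r + s r) (hNp : N p = 1) (z : Fin K4) (r : Fin p) :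
    ∃ r' : Fin p, cyc (K4 * p) (skι K4 p ι4 N) (finProdFinEquiv (z, r)) =
      finProdFinEquiv ((cyc K4 ι4 ^ (s r)) z, r') := by
  have hp : 0 < p := NeZero.pos p
  have key : ∀ (r' : Fin p) (e : ℤ), (r' : ℤ) = r + 1 - e * p → N r' = N r + s r - e →
      cyc (K4 * p) (skι K4 p ι4 N) (finProdFinEquiv (z, r)) = finProdFinEquiv ((cyc K4 ι4 ^ (s r)) z, r') := by
    intro r' e he1 he2
    unfold cyc
    rw [Equiv.Perm.mul_apply, Equiv.Perm.mul_apply, Equiv.Perm.inv_eq_iff_eq, skι_apply, skι_apply]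
    have h1 : ι4 ((cyc K4 ι4 ^ (s r)) z) = (finRotate K4 ^ (s r)) (ι4 z) := by
      rw [cyc_zpow, Equiv.Perm.mul_apply, Equiv.Perm.mul_apply, ap_inv]
    have h1' : ι4 (((ι4⁻¹ * finRotate K4 * ι4) ^ (s r)) z) = (finRotate K4 ^ (s r)) (ι4 z) := h1
    rw [h1', z_comp]
    obtain ⟨q1, hq1⟩ := fr_zpow K4 (-(N r)) (ι4 z)
    obtain ⟨q2, hq2⟩ := fr_zpow K4 (-(N r') + s r) (ι4 z)
    have h2 := eq_of_zpow (K4 * p) 1 (finProdFinEquiv ((finRotate K4 ^ (-(N r))) (ι4 z), r))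
      (finProdFinEquiv ((finRotate K4 ^ (-(N r') + s r)) (ι4 z), r')) (q2 - q1) (by
        rw [finProdFinEquiv_apply_val, finProdFinEquiv_apply_val]
        simp only
        push_cast
        rw [hq1, hq2, he1, he2]
        ring)
    rw [zpow_one] at h2
    exact h2
  rcases Nat.lt_or_ge (r + 1 : ℕ) p with h | h
  · refine ⟨⟨r + 1, h⟩, key _ 0 ?_ ?_⟩
    · push_cast
      ring
    · simp only
      rw [hN]
      ring
  · have h3 : (r : ℕ) + 1 = p := by have := r.2; omega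
    refine ⟨⟨0, hp⟩, key _ 1 ?_ ?_⟩
    · have : ((r : ℕ) : ℤ) + 1 = p := by exact_mod_cast h3
      push_cast
      linarith
    · simp only
      have h4 := hN r
      rw [h3, hNp] at h4
      rw [hN0]
      linarith

theorem sk_pow_step (K4 p : ℕ) [NeZero K4] [NeZero p] [NeZero (K4 * p)] (ι4 : Equiv.Perm (Fin K4)) (N : ℕ → ℤ)
    (z : Fin K4) (r : Fin p) :
    (cyc (K4 * p) (skι K4 p ι4 N) ^ (p : ℤ)) (finProdFinEquiv (z, r)) =
      finProdFinEquiv (cyc K4 ι4 z, r) := by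
  rw [cyc_zpow, Equiv.Perm.mul_apply, Equiv.Perm.mul_apply, Equiv.Perm.inv_eq_iff_eq, skι_apply, skι_apply]
  have h1 : ι4 (cyc K4 ι4 z) = finRotate K4 (ι4 z) := by
    unfold cyc
    rw [Equiv.Perm.mul_apply, Equiv.Perm.mul_apply, ap_inv]
  rw [h1]
  obtain ⟨q1, hq1⟩ := fr_zpow K4 (-(N r)) (ι4 z)
  obtain ⟨q2, hq2⟩ := fr_zpow K4 (-(N r)) (finRotate K4 (ι4 z))
  obtain ⟨q3, hq3⟩ := fr_val K4 (ι4 z)
  apply eq_of_zpow (K4 * p) p _ _ (q2 + q3 - q1)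
  rw [finProdFinEquiv_apply_val, finProdFinEquiv_apply_val]
  simp only
  push_cast
  rw [hq1, hq2, hq3]
  ring

theorem pt_prod (K4 p : ℕ) [NeZero K4] [NeZero p] (z : Fin K4) (r : Fin p) (u : ℝ) :
    pt (K4 * p) ((finProdFinEquiv (z, r) : Fin (K4 * p)) : ℕ) u = pt K4 z (((r : ℕ) + u) / p) := by
  have h1 : (K4 : ℝ) ≠ 0 := by exact_mod_cast NeZero.ne K4
  have h2 : (p : ℝ) ≠ 0 := by exact_mod_cast NeZero.ne p
  unfold pt
  rw [finProdFinEquiv_apply_val]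
  simp only
  push_cast
  field_simp
  ring

/-- the time one map of the skew flow -/
theorem sk_time_one (K4 p : ℕ) [NeZero K4] [NeZero p] [NeZero (K4 * p)] (ι4 : Equiv.Perm (Fin K4)) (N : ℕ → ℤ) :
    path (rz (K4 * p) (skι K4 p ι4 N)) ((p : ℝ) / ((K4 * p : ℕ) : ℝ)) 1 = FLo (rz K4 ι4) (1 / (K4 : ℝ)) := by
  rw [path_apply, mul_one]
  apply aut_ext
  intro x
  by_cases hx : x ∈ Ico (0 : ℝ) 1
  · obtain ⟨i, u, h0, h1, rfl⟩ := exists_ptf (K4 * p) x hx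
    obtain ⟨⟨z, r⟩, rfl⟩ := finProdFinEquiv.surjective i
    have h2 := FLo_pt_int (K4 * p) (skι K4 p ι4 N) p (finProdFinEquiv (z, r)) u h0 h1
    rw [Int.cast_natCast, sk_pow_step] at h2
    rw [h2, pt_prod K4 p, pt_prod K4 p]
    have hp : (0 : ℝ) < p := by exact_mod_cast NeZero.pos p
    have hr : ((r : ℕ) : ℝ) + 1 ≤ p := by exact_mod_cast r.2
    rw [FLo_pt_one K4 ι4 z _ (by positivity) (by rw [div_lt_one hp]; linarith)]
  · have h3 : ∀ (K : ℕ) [NeZero K] (ι : Equiv.Perm (Fin K)) (s : ℝ), (FLo (rz K ι) s).1 x = x := by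
      intro K _ ι s
      show rzf K ι⁻¹ (rotf s (rzf K ι x)) = x
      rw [rzf_not_mem K ι x hx, rotf_neg s x hx, rzf_not_mem K _ x hx]
    rw [h3, h3]

/-- closeness of the skew permutation -/
theorem sk_close (K0 K4 p : ℕ) [NeZero K4] [NeZero p] [NeZero (K4 * p)] (hK0 : 0 < K0) (hdvd : K0 ∣ K4)
    (ι4 : Equiv.Perm (Fin K4)) (N : ℕ → ℤ)
    (s : ℕ → ℤ) (hN0 : N 0 = 0) (hN : ∀ r, N (r + 1) = N r + s r) (hNp : N p = 1) (g : ℝ → ℝ) (δ : ℝ)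
    (hδ : ∀ r < p, dl K0 (zpL (FLo (rz K4 ι4) (1 / (K4 : ℝ))) (s r)).1 g ≤ δ) :
    dl K0 (FLo (rz (K4 * p) (skι K4 p ι4 N)) (1 / ((K4 * p : ℕ) : ℝ))).1 g ≤ p * δ := by
  classical
  have h1 : dl K0 (FLo (rz (K4 * p) (skι K4 p ι4 N)) (1 / ((K4 * p : ℕ) : ℝ))).1 g ≤
      ∑ r ∈ Finset.range p, dl K0 (zpL (FLo (rz K4 ι4) (1 / (K4 : ℝ))) (s r)).1 g := by
    unfold dl
    have h2 : lam.real {x | fl K0 ((FLo (rz (K4 * p) (skι K4 p ι4 N)) (1 / ((K4 * p : ℕ) : ℝ))).1 x) ≠ fl K0 (g x)} ≤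
        lam.real (⋃ r ∈ Finset.range p, {x | fl K0 ((zpL (FLo (rz K4 ι4) (1 / (K4 : ℝ))) (s r)).1 x) ≠ fl K0 (g x)}) := by
      rw [measureReal_def, measureReal_def]
      apply ENNReal.toReal_mono (lam_ne_top _)
      apply measure_mono_ae
      filter_upwards [ae_Ico] with x hx hmem
      obtain ⟨i, u, h0, h1, rfl⟩ := exists_ptf (K4 * p) x hx
      obtain ⟨⟨z, r⟩, rfl⟩ := finProdFinEquiv.surjective i
      show _ ∈ (⋃ r ∈ Finset.range p, {x | fl K0 ((zpL (FLo (rz K4 ι4) (1 / (K4 : ℝ))) (s r)).1 x) ≠ fl K0 (g x)})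
      rw [mem_iUnion₂]
      refine ⟨r, Finset.mem_range.2 r.2, ?_⟩
      have hp : (0 : ℝ) < p := by exact_mod_cast NeZero.pos p
      have hr : ((r : ℕ) : ℝ) + 1 ≤ p := by exact_mod_cast r.2
      have hmem' : fl K0 ((FLo (rz (K4 * p) (skι K4 p ι4 N)) (1 / ((K4 * p : ℕ) : ℝ))).1
        (pt (K4 * p) ((finProdFinEquiv (z, r) : Fin (K4 * p)) : ℕ) u)) ≠
        fl K0 (g (pt (K4 * p) ((finProdFinEquiv (z, r) : Fin (K4 * p)) : ℕ) u)) := hmem
      obtain ⟨r', hr'⟩ := sk_step K4 p ι4 N s hN0 hN hNp z r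
      rw [FLo_pt_one _ _ _ u h0 h1, hr', pt_prod K4 p, pt_prod K4 p] at hmem'
      rw [pt_prod K4 p]
      show fl K0 ((zpL (FLo (rz K4 ι4) (1 / (K4 : ℝ))) (s r)).1 (pt K4 z (((r : ℕ) + u) / p))) ≠ _
      rw [FLo_zpow_pt K4 ι4 (s r) z _ (by positivity) (by rw [div_lt_one hp]; linarith)]
      obtain ⟨c, rfl⟩ := hdvd
      have hc : 0 < c := Nat.pos_of_mul_pos_left (NeZero.pos (K0 * c))
      have hr'' : ((r' : ℕ) : ℝ) + 1 ≤ p := by exact_mod_cast r'.2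
      rw [fl_pt_div K0 c hK0 hc _ _ (by positivity) (by rw [div_lt_one hp]; linarith)]
      rw [fl_pt_div K0 c hK0 hc _ _ (by positivity) (by rw [div_lt_one hp]; linarith)] at hmem'
      exact hmem'
    exact h2.trans (measureReal_biUnion_finset_le _ _)
  refine h1.trans ((Finset.sum_le_sum fun r hr => hδ r (Finset.mem_range.1 hr)).trans ?_)
  rw [Finset.sum_const, Finset.card_range, nsmul_eq_mul]

end Pool.Agent.W744.SF
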