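import Mathlib
import Pool.Agent.W744.SF.Some

set_option autoImplicit false
set_option linter.unusedSectionVars false
set_option linter.unusedVariables false

/-!
The generic automorphism is the time one map of a flow satisfying countably many open conditions.
-/

namespace Pool.Agent.W744.SF

open MeasureTheory Set Filter Topology
open scoped ENNReal symmDiff
open Pool.H359R3 Pool.H359R3.WH Pool.H359R3.IX

attribute [local instance] us

theorem someDense (hC : S_Cyc) (U : Set C(ℝ, Aut)) (hU : IsOpen U) (hne : (U ∩ DD0).Nonempty) :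
    (interior (closure ((fun φ : C(ℝ, Aut) => φ 1) '' (U ∩ DD0)))).Nonempty := by
  classical
  obtain ⟨_, hφ, K1, _, ι1, p1, rfl⟩ := hne
  obtain ⟨p, K0, hp, hK0, O, hO, hS1, hmain⟩ := claimB U hU (rz K1 ι1) ((p1 : ℝ) / K1) (by positivity) hφ
  have : NeZero p := ⟨hp.ne'⟩
  have hpr : (0 : ℝ) < p := by exact_mod_cast hp
  set P := rz K1 ι1 with hP
  set v : ℝ := (p1 : ℝ) / K1 with hv
  -- a rotation number of denominator prime to p
  have hcont : Tendsto (fun s => FLo P s) (𝓝 (v / p)) (𝓝 (FLo P (v / p))) := (FLo_cont P).tendsto _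
  have hev := hcont.eventually (hO.mem_nhds hS1)
  rw [Metric.eventually_nhds_iff] at hev
  obtain ⟨ρ, hρ, hev⟩ := hev
  obtain ⟨j, hj⟩ := exists_nat_gt (1 / ρ)
  set L : ℕ := p * j + 1 with hL
  have hLr : (0 : ℝ) < L := by rw [hL]; positivity
  set l : ℤ := ⌊(L : ℝ) * (v / p)⌋ with hl
  set w : ℝ := (l : ℝ) / L with hw
  have hwO : FLo P w ∈ O := by
    apply hev
    rw [Real.dist_eq]
    have h1 := Int.floor_le ((L : ℝ) * (v / p))
    have h2 := Int.lt_floor_add_one ((L : ℝ) * (v / p))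
    rw [← hl] at h1 h2
    have h3 : w ≤ v / p := by rw [hw, div_le_iff₀ hLr]; linarith
    have h4 : v / p - w < 1 / L := by
      rw [hw, lt_div_iff₀ hLr, sub_mul, div_mul_cancel₀ _ hLr.ne']
      linarith
    rw [abs_sub_comm, abs_of_nonneg (by linarith)]
    refine h4.trans ?_
    rw [div_lt_iff₀ hρ] at hj
    rw [div_lt_iff₀ hLr]
    have h5 : (j : ℝ) ≤ L := by
      have : j ≤ L := by
        rw [hL]
        have := Nat.le_mul_of_pos_left j hp
        omega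
      exact_mod_cast this
    nlinarith
  set S2 := FLo P w with hS2
  -- the inverse power
  have hcop : Nat.Coprime p L := by rw [hL]; simp
  obtain ⟨a, b, hab⟩ := Nat.isCoprime_iff_coprime.2 hcop
  -- a * p + b * L = 1
  let s : ℕ → ℤ := fun r => a + (if r = 0 then b * L else 0)
  let N : ℕ → ℤ := fun r => ∑ i ∈ Finset.range r, s i
  have hN0 : N 0 = 0 := rfl
  have hN : ∀ r, N (r + 1) = N r + s r := fun r => Finset.sum_range_succ _ _
  have hNp : N p = 1 := by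
    show ∑ i ∈ Finset.range p, (a + (if i = 0 then b * L else 0)) = 1
    rw [Finset.sum_add_distrib, Finset.sum_const, Finset.card_range, Finset.sum_ite_eq' (Finset.range p) 0]
    rw [if_pos (Finset.mem_range.2 hp), nsmul_eq_mul]
    linarith
  set ρ0 : Aut := FLo P (p * w) with hρ0
  have hpow : ∀ r, zpL ρ0 (s r) = S2 := by
    intro r
    rw [hρ0, FLo_zp, hS2]
    have h6 : (L : ℝ) * w = l := by rw [hw]; field_simp
    have h7 : (a : ℝ) * p = 1 - b * L := by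
      have := congrArg (fun z : ℤ => (z : ℝ)) hab
      push_cast at this
      linarith
    simp only [s]
    split_ifs
    · have e : (((a + b * L : ℤ)) : ℝ) * (p * w) = w + (((-(b * l) + b * p * l : ℤ)) : ℝ) := by
        push_cast
        have e1 : ((a : ℝ) + b * L) * (p * w) = (a * p) * w + b * p * (L * w) := by ring
        rw [e1, h6, h7]
        have e2 : (1 - (b : ℝ) * L) * w = w - b * (L * w) := by ring
        rw [e2, h6]
        ring
      rw [e, FLo_add_int]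
    · have e : (((a + 0 : ℤ)) : ℝ) * (p * w) = w + (((-(b * l) : ℤ)) : ℝ) := by
        push_cast
        have e1 : ((a : ℝ) + 0) * (p * w) = (a * p) * w := by ring
        rw [e1, h7]
        have e2 : (1 - (b : ℝ) * L) * w = w - b * (L * w) := by ring
        rw [e2, h6]
        ring
      rw [e, FLo_add_int]
  obtain ⟨m3, hm3, θ3, hθ3, h6⟩ := nhds_dl0 S2 O (hO.mem_nhds hwO) K0 hK0
  have hK3 : 0 < K0 * m3 := by positivity
  let V : Set Aut := {T | ∀ r : Fin p, dl (K0 * m3) (zpL T (s r)).1 S2.1 < θ3 / (p + 1)}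
  have hV : V ∈ 𝓝 ρ0 := by
    have h7 : ∀ r : Fin p, ∀ᶠ T in 𝓝 ρ0, dl (K0 * m3) (zpL T (s r)).1 S2.1 < θ3 / (p + 1) := by
      intro r
      have h8 := tend_zpL (𝓝 ρ0) id ρ0 Filter.tendsto_id (s r)
      have h9 := h8.eventually (dl_nhds0 (zpL ρ0 (s r)) (K0 * m3) hK3 (θ3 / (p + 1)) (by positivity))
      filter_upwards [h9] with T hT
      have hT' : dl (K0 * m3) (zpL T (s r)).1 (zpL ρ0 (s r)).1 < θ3 / (p + 1) := hT
      rwa [hpow] at hT'
    exact Filter.eventually_all.2 h7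
  refine ⟨ρ0, ?_⟩
  have hsub : interior V ⊆ closure ((fun φ : C(ℝ, Aut) => φ 1) '' (U ∩ DD0)) := by
    intro T' hT'
    rw [mem_closure_iff_nhds]
    intro W hW
    have h11 : interior V ∩ W ∈ 𝓝 T' := Filter.inter_mem (isOpen_interior.mem_nhds hT') hW
    obtain ⟨K4, _, ι4, hd4, h12⟩ := dens_cyc hC T' _ h11 (K0 * m3) hK3
    have hK4p : 0 < K4 * p := Nat.mul_pos (NeZero.pos K4) hp
    have : NeZero (K4 * p) := ⟨hK4p.ne'⟩
    refine ⟨FLo (rz K4 ι4) (1 / (K4 : ℝ)), h12.2, path (rz (K4 * p) (skι K4 p ι4 N)) ((p : ℝ) / ((K4 * p : ℕ) : ℝ)),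
      ⟨?_, ?_⟩, sk_time_one K4 p ι4 N⟩
    · apply hmain
      · exact ((Dvd.intro _ rfl).trans hd4).trans (Dvd.intro _ rfl)
      · apply h6
        have h13 : FLo (rz K4 ι4) (1 / (K4 : ℝ)) ∈ V := interior_subset h12.1
        refine lt_of_le_of_lt (sk_close (K0 * m3) K4 p hK3 hd4 ι4 N s hN0 hN hNp S2.1 (θ3 / (p + 1)) ?_) ?_
        · intro r hr
          exact (h13 ⟨r, hr⟩).le
        · rw [mul_div_assoc', div_lt_iff₀ (by positivity)]
          nlinarith
    · exact ⟨K4 * p, inferInstance, _, p, rfl⟩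
  exact mem_interior.2 ⟨interior V, hsub, isOpen_interior, mem_interior_iff_mem_nhds.2 hV⟩

theorem dense_one (hC : S_Cyc) : Dense ((fun φ : C(ℝ, Aut) => φ 1) '' DD0) := by
  rw [dense_iff_inter_open]
  rintro W hW ⟨T, hT⟩
  obtain ⟨K, _, ι, _, h⟩ := dens_cyc hC T W (hW.mem_nhds hT) 1 one_pos
  refine ⟨_, h, path (rz K ι) (((1 : ℕ) : ℝ) / K), ⟨K, inferInstance, ι, 1, rfl⟩, ?_⟩
  show path (rz K ι) (((1 : ℕ) : ℝ) / K) 1 = _
  rw [path_apply, mul_one, Nat.cast_one]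

/-- measure preserving maps with equal preimages agree almost everywhere -/
theorem ae_of_sd1 (f g : ℝ → ℝ) (hf : MeasurePreserving f lam lam) (hg : MeasurePreserving g lam lam)
    (h : ∀ A, MeasurableSet A → lam ((f ⁻¹' A) ∆ (g ⁻¹' A)) = 0) :
    ∀ᵐ x ∂lam, f x = g x := by
  have h2 : ∀ᵐ x ∂lam, ∀ i : ℕ, ¬ (x ∈ (f ⁻¹' (AA i)) ∆ (g ⁻¹' (AA i))) := by
    rw [ae_all_iff]
    intro i
    rw [ae_iff]
    simp only [not_not]
    exact h _ (AA_meas i)
  filter_upwards [h2] with x h2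
  apply AA_sep
  intro i
  have h7 := h2 i
  rw [Set.mem_symmDiff] at h7
  simp only [mem_preimage] at h7
  tauto

theorem closure_flow1 (φ : C(ℝ, Aut)) (hφ : φ ∈ closure DD0) (s t : ℝ) :
    ∀ᵐ x ∂lam, (φ (s + t)).1 x = (φ s).1 ((φ t).1 x) := by
  obtain ⟨u, hu, hle⟩ := mem_closure_iff_ultrafilter.1 hφ
  have ev : ∀ r : ℝ, Tendsto (fun ψ : C(ℝ, Aut) => ψ r) (u : Filter C(ℝ, Aut)) (𝓝 (φ r)) := fun r =>
    ((continuous_eval_const r).tendsto φ).mono_left hle
  have hm := tend_mul F0 (u : Filter C(ℝ, Aut)) _ _ _ _ (ev s) (ev t)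
  have hD : ∀ᶠ ψ in (u : Filter C(ℝ, Aut)), ψ ∈ DD0 := hu
  refine ae_of_sd1 (φ (s + t)).1 (mulA (φ s) (φ t)).1 (φ (s + t)).2 (mulA (φ s) (φ t)).2 ?_
  intro A hA
  have t1 := of_tendsto_un F0 _ _ _ (ev (s + t)) A hA (measure_lt_top _ _)
  have t2 := of_tendsto_un F0 _ _ _ hm A hA (measure_lt_top _ _)
  have t3 := t1.add t2
  rw [add_zero] at t3
  refine le_antisymm (ge_of_tendsto t3 ?_) zero_le
  filter_upwards [hD] with ψ hψ
  obtain ⟨K, _, σ, p, rfl⟩ := hψ
  have e : path (rz K σ) ((p : ℝ) / K) (s + t) =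
      mulA (path (rz K σ) ((p : ℝ) / K) s) (path (rz K σ) ((p : ℝ) / K) t) := by
    rw [path_apply, path_apply, path_apply, ← FLo_add, mul_add]
  have h4 := sd_tri (μ := lam) ((φ (s + t)).1 ⁻¹' A) ((path (rz K σ) ((p : ℝ) / K) (s + t)).1 ⁻¹' A)
    ((mulA (φ s) (φ t)).1 ⁻¹' A)
  rw [symmDiff_comm ((φ (s + t)).1 ⁻¹' A) ((path (rz K σ) ((p : ℝ) / K) (s + t)).1 ⁻¹' A)] at h4
  rw [← e]
  exact h4

/-- the generic automorphism is the time one map of a flow with a vector satisfying open conditions -/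
theorem flow_generic (hC : S_Cyc) {B : Type} [UniformSpace B] [CompleteSpace B] [SecondCountableTopology B]
    [(uniformity B).IsCountablyGenerated] [Nonempty B] (O : ℕ → Set (C(ℝ, Aut) × B))
    (hO : ∀ n, IsOpen (O n))
    (hOD : ∀ n, ∀ U : Set C(ℝ, Aut), ∀ W : Set B, IsOpen U → IsOpen W → (U ∩ DD0).Nonempty → W.Nonempty →
      ∃ φ ∈ U ∩ DD0, ∃ f ∈ W, (φ, f) ∈ O n) :
    {T : Aut | ∃ φ : C(ℝ, Aut), (∃ f : B, ∀ n, (φ, f) ∈ O n) ∧
      (∀ s t : ℝ, ∀ᵐ x ∂lam, (φ (s + t)).1 x = (φ s).1 ((φ t).1 x)) ∧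
      ∀ᵐ x ∂lam, (φ 1).1 x = T.1 x} ∈ residual Aut := by
  refine Filter.mem_of_superset (flow_baire2 DD0 O hO hOD (someDense hC) (dense_one hC)) ?_
  rintro T ⟨φ, hφ, f, hf, hT⟩
  refine ⟨φ, ⟨f, hf⟩, closure_flow1 φ hφ, ?_⟩
  refine ae_of_sd1 (φ 1).1 T.1 (φ 1).2 T.2 (fun A hA => ?_)
  rw [symmDiff_comm]
  exact sd_of_insep F0 _ _ hT A hA (measure_lt_top _ _)

end Pool.Agent.W744.SF
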