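import Mathlib
import Pool.Agent.W744.SF.Some

set_option autoImplicit false
set_option linter.unusedSectionVars false
set_option linter.unusedVariables false

/-!
Uniform closeness on the circle implies closeness of measure preserving maps.
-/

namespace Pool.Agent.W744.SF

open MeasureTheory Set Filter Topology
open scoped ENNReal symmDiff
open Pool.H359R3 Pool.H359R3.WH Pool.H359R3.IX

attribute [local instance] us

/-- closeness modulo one -/
def cc (a b κ : ℝ) : Prop := ∃ m : ℤ, |a - b - m| ≤ κ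

theorem cc_symm {a b κ : ℝ} (h : cc a b κ) : cc b a κ := by
  obtain ⟨m, h⟩ := h
  refine ⟨-m, ?_⟩
  push_cast
  rw [show b - a - -(m : ℝ) = -(a - b - m) by ring, abs_neg]
  exact h

theorem cc_trans {a b c κ κ' : ℝ} (h : cc a b κ) (h' : cc b c κ') : cc a c (κ + κ') := by
  obtain ⟨m, h⟩ := h
  obtain ⟨m', h'⟩ := h'
  refine ⟨m + m', ?_⟩
  push_cast
  rw [show a - c - ((m : ℝ) + m') = (a - b - m) + (b - c - m') by ring]
  exact (abs_add_le _ _).trans (add_le_add h h')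

theorem cc_mono {a b κ κ' : ℝ} (h : cc a b κ) (h' : κ ≤ κ') : cc a b κ' := by
  obtain ⟨m, h⟩ := h
  exact ⟨m, h.trans h'⟩

theorem cc_of_abs {a b κ : ℝ} (h : |a - b| ≤ κ) : cc a b κ := ⟨0, by simpa using h⟩

theorem cc_fract (a : ℝ) : cc (Int.fract a) a 0 := by
  refine ⟨-⌊a⌋, ?_⟩
  push_cast
  have := Int.floor_add_fract a
  rw [show Int.fract a - a - -(⌊a⌋ : ℝ) = 0 by linarith, abs_zero]

theorem cc_add {a b a' b' κ κ' : ℝ} (h : cc a b κ) (h' : cc a' b' κ') : cc (a + a') (b + b') (κ + κ') := by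
  obtain ⟨m, h⟩ := h
  obtain ⟨m', h'⟩ := h'
  refine ⟨m + m', ?_⟩
  push_cast
  rw [show a + a' - (b + b') - ((m : ℝ) + m') = (a - b - m) + (a' - b' - m') by ring]
  exact (abs_add_le _ _).trans (add_le_add h h')

/-- different labels at small distance: one of the points is close to the end of its cell -/
theorem cc_cells (H : ℕ) [NeZero H] (a b κ : ℝ) (ha : a ∈ Ico (0 : ℝ) 1) (hb : b ∈ Ico (0 : ℝ) 1)
    (h : cc a b κ) (h0 : 0 ≤ κ) (h1 : κ * H < 1) (hne : fl H a ≠ fl H b) :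
    fl H (rotf κ a) ≠ fl H a ∨ fl H (rotf κ b) ≠ fl H b := by
  have hH : 0 < H := NeZero.pos H
  have hHr : (0 : ℝ) < H := by exact_mod_cast hH
  obtain ⟨i, u, u0, u1, rfl⟩ := exists_ptf H a ha
  obtain ⟨j, w, w0, w1, rfl⟩ := exists_ptf H b hb
  rw [fl_pt H hH _ u u0 u1, fl_pt H hH _ w w0 w1] at hne
  have hne' : i ≠ j := fun h => hne (by rw [h])
  -- the end of a cell is moved to the next cell
  have key : ∀ (i : Fin H) (u : ℝ), 0 ≤ u → u < 1 → 1 ≤ u + κ * H → (∃ j : Fin H, i ≠ j) →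
      fl H (rotf κ (pt H i u)) ≠ fl H (pt H i u) := by
    intro i u u0 u1 hu hex
    have e : κ = (κ * H) / H := by field_simp
    rw [e, rotf_pt H (κ * H) i u u0 u1, fl_pt H hH _ _ (Int.fract_nonneg _) (Int.fract_lt_one _),
      fl_pt H hH _ _ u0 u1]
    have hf : ⌊u + κ * H⌋ = 1 := by
      rw [Int.floor_eq_iff]
      push_cast
      constructor <;> linarith
    rw [hf, zpow_one]
    intro h2
    obtain ⟨q, hq⟩ := fr_val H i
    rw [h2] at hq
    have h3 : (1 : ℤ) = -q * H := by linarith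
    have h4 : (H : ℤ) ∣ 1 := ⟨-q, by linarith⟩
    have h5 : H = 1 := by
      have := Int.eq_one_of_dvd_one (by positivity) h4
      exact_mod_cast this
    obtain ⟨j, hj⟩ := hex
    apply hj
    apply Fin.ext
    have := i.2
    have := j.2
    omega
  obtain ⟨m, hm⟩ := h
  have e1 : pt H i u - pt H j w - m = (((i : ℕ) : ℤ) - ((j : ℕ) : ℤ) - m * H + (u - w)) / H := by
    unfold pt
    field_simp
    push_cast
    ring
  rw [e1, abs_div, abs_of_pos hHr, div_le_iff₀ hHr] at hm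
  set z : ℤ := ((i : ℕ) : ℤ) - ((j : ℕ) : ℤ) - m * H with hz
  have hm' : |((z : ℤ) : ℝ) + (u - w)| ≤ κ * H := by
    rw [hz]
    push_cast
    push_cast at hm
    exact hm
  rw [abs_le] at hm'
  have hz0 : z ≠ 0 := by
    intro h0
    rw [hz] at h0
    exact hne' (fin_of_cong H i j m (by linarith))
  rcases lt_or_gt_of_ne hz0 with h2 | h2
  · left
    apply key i u u0 u1 _ ⟨j, hne'⟩
    have : ((z : ℤ) : ℝ) ≤ -1 := by exact_mod_cast (by omega : z ≤ -1)
    linarith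
  · right
    apply key j w w0 w1 _ ⟨i, hne'.symm⟩
    have : (1 : ℝ) ≤ ((z : ℤ) : ℝ) := by exact_mod_cast (by omega : 1 ≤ z)
    linarith

theorem mp_Ico (F : ℝ → ℝ) (hF : MeasurePreserving F lam lam) : ∀ᵐ x ∂lam, F x ∈ Ico (0 : ℝ) 1 :=
  hF.quasiMeasurePreserving.ae ae_Ico

theorem dl_cc (H : ℕ) [NeZero H] (F G : ℝ → ℝ) (hF : MeasurePreserving F lam lam) (hG : MeasurePreserving G lam lam)
    (κ : ℝ) (h0 : 0 ≤ κ) (h1 : κ * H < 1) (h : ∀ᵐ x ∂lam, cc (F x) (G x) κ) :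
    dl H F G ≤ 2 * (κ * H) := by
  have hH : 0 < H := NeZero.pos H
  have hm : MeasurableSet {y | fl H (rotf κ y) ≠ fl H (id y)} :=
    (measurableSet_eq_fun ((fl_meas H).comp (rotf_meas κ)) ((fl_meas H).comp measurable_id)).compl
  have h2 := dl_rot H hH κ h0
  unfold dl at h2 ⊢
  have h3 : lam.real {x | fl H (F x) ≠ fl H (G x)} ≤
      lam.real (F ⁻¹' {y | fl H (rotf κ y) ≠ fl H (id y)} ∪ G ⁻¹' {y | fl H (rotf κ y) ≠ fl H (id y)}) := by
    rw [measureReal_def, measureReal_def]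
    apply ENNReal.toReal_mono (lam_ne_top _)
    apply measure_mono_ae
    filter_upwards [mp_Ico F hF, mp_Ico G hG, h] with x hx1 hx2 hx3 hne
    exact cc_cells H (F x) (G x) κ hx1 hx2 hx3 h0 h1 hne
  refine h3.trans ((measureReal_union_le _ _).trans ?_)
  rw [mp_real hF hm, mp_real hG hm]
  linarith

/-- uniform closeness criterion -/
theorem close_crit (P : Aut) (C : ℕ → Set ℝ) (hC : ∀ i, MeasurableSet (C i)) (n : ℕ) (δ : ℝ) (hδ : 0 < δ) :
    ∃ κ : ℝ, 0 < κ ∧ ∀ f g : Aut, (∀ᵐ x ∂lam, cc (P.1 (f.1 x)) (P.1 (g.1 x)) κ) →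
      ∀ i < n, lam.real ((f.1 ⁻¹' C i) ∆ (g.1 ⁻¹' C i)) < δ := by
  obtain ⟨m, hm, hB⟩ := Apx_multi (fun i => P.1.symm ⁻¹' C i) (fun i => P.1.symm.measurable (hC i)) n 1 one_pos
    (δ / 4) (by positivity)
  set H := 1 * m with hH
  have hHp : 0 < H := by omega
  have : NeZero H := ⟨hHp.ne'⟩
  have hHr : (0 : ℝ) < H := by exact_mod_cast hHp
  set κ : ℝ := min (δ / (8 * H)) (1 / (2 * H)) with hκ
  have hκ0 : 0 < κ := by
    rw [hκ]
    apply lt_min <;> positivity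
  refine ⟨κ, hκ0, fun f g hfg i hi => ?_⟩
  obtain ⟨B, hB⟩ := hB i hi
  have hκ1 : κ * H ≤ δ / 8 := by
    calc κ * H ≤ δ / (8 * H) * H := mul_le_mul_of_nonneg_right (min_le_left _ _) hHr.le
      _ = δ / 8 := by field_simp
  have hκ2 : κ * H < 1 := by
    calc κ * H ≤ 1 / (2 * H) * H := mul_le_mul_of_nonneg_right (min_le_right _ _) hHr.le
      _ = 1 / 2 := by field_simp
      _ < 1 := by norm_num
  have h1 := dl_cc H _ _ (P.2.comp f.2) (P.2.comp g.2) κ hκ0.le hκ2 hfg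
  have h2 := close_set H B (P.1.symm ⁻¹' C i) (P.1.symm.measurable (hC i)) (δ / 4) hB _ _ (P.2.comp f.2) (P.2.comp g.2)
  have h3 : ∀ f : Aut, (⇑P.1 ∘ ⇑f.1) ⁻¹' (P.1.symm ⁻¹' C i) = f.1 ⁻¹' C i := by
    intro f
    ext x
    simp
  rw [h3, h3] at h2
  linarith

end Pool.Agent.W744.SF
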