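import Mathlib
import Pool.Agent.W744.SF.Close

set_option autoImplicit false
set_option linter.unusedSectionVars false
set_option linter.unusedVariables false

/-!
The rearrangement of the circle which modulates a rotation.
-/

namespace Pool.Agent.W744.SF

open MeasureTheory Set Filter Topology
open scoped ENNReal symmDiff
open Pool.H359R3 Pool.H359R3.WH Pool.H359R3.IX

attribute [local instance] us

/-- refinement of a permutation of cells -/
def lift (K0 c : ℕ) (ι0 : Equiv.Perm (Fin K0)) : Equiv.Perm (Fin (K0 * c)) :=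
  finProdFinEquiv.permCongr (Equiv.prodCongr ι0 (Equiv.refl (Fin c)))

theorem rz_lift (K0 c : ℕ) [NeZero K0] [NeZero c] [NeZero (K0 * c)] (ι0 : Equiv.Perm (Fin K0)) :
    rz (K0 * c) (lift K0 c ι0) = rz K0 ι0 := by
  apply aut_ext
  intro x
  rw [rz_apply, rz_apply]
  by_cases hx : x ∈ Ico (0 : ℝ) 1
  · obtain ⟨i, u, h0, h1, rfl⟩ := exists_ptf (K0 * c) x hx
    obtain ⟨⟨z, r⟩, rfl⟩ := finProdFinEquiv.surjective i
    have hc : (0 : ℝ) < c := by exact_mod_cast NeZero.pos c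
    have hr : ((r : ℕ) : ℝ) + 1 ≤ c := by exact_mod_cast r.2
    rw [rzf_pt _ _ _ u h0 h1]
    have e : lift K0 c ι0 (finProdFinEquiv (z, r)) = finProdFinEquiv (ι0 z, r) := by
      unfold lift
      rw [Equiv.permCongr_apply, Equiv.symm_apply_apply]
      rfl
    rw [e, pt_prod K0 c, pt_prod K0 c, rzf_pt K0 ι0 z _ (by positivity) (by rw [div_lt_one hc]; linarith)]
  · rw [rzf_not_mem _ _ x hx, rzf_not_mem _ _ x hx]

theorem rz_mul (K : ℕ) [NeZero K] (a b : Equiv.Perm (Fin K)) : mulA (rz K a) (rz K b) = rz K (a * b) :=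
  aut_ext _ _ fun x => rzf_comp K a b x

def swp (H M : ℕ) (s : ℕ → ℤ) : Fin H × Fin M ≃ Fin M × Fin H where
  toFun z := (z.2, (finRotate H ^ (-(s z.2))) z.1)
  invFun w := ((finRotate H ^ (s w.1)) w.2, w.1)
  left_inv z := by
    simp only
    rw [z_comp, add_neg_cancel, zpow_zero, Equiv.Perm.one_apply]
  right_inv z := by
    simp only
    rw [z_comp, neg_add_cancel, zpow_zero, Equiv.Perm.one_apply]

/-- the modulating permutation -/
def io2 (H M : ℕ) (s : ℕ → ℤ) : Equiv.Perm (Fin (H * M)) :=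
  finProdFinEquiv.symm.trans ((swp H M s).trans (finProdFinEquiv.trans (finCongr (mul_comm M H))))

theorem io2_val (H M : ℕ) (s : ℕ → ℤ) (a : Fin H) (N : Fin M) :
    ((io2 H M s (finProdFinEquiv (a, N)) : Fin (H * M)) : ℕ) = ((finRotate H ^ (-(s N))) a : ℕ) + H * (N : ℕ) := by
  unfold io2
  rw [Equiv.trans_apply, Equiv.trans_apply, Equiv.trans_apply, Equiv.symm_apply_apply]
  show ((finProdFinEquiv ((swp H M s) (a, N)) : Fin (M * H)) : ℕ) = _
  rw [finProdFinEquiv_apply_val]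
  rfl

theorem rel (H M : ℕ) [NeZero H] [NeZero M] [NeZero (H * M)] (G : ℝ → ℝ) (Λ : ℝ)
    (hG : ∀ x y, |G x - G y| ≤ Λ * |x - y|) (hΛ : 0 ≤ Λ) (y : ℝ) (hy : y ∈ Ico (0 : ℝ) 1) :
    cc y (M * rzf (H * M) (io2 H M (fun N => ⌊(H : ℝ) * G N⌋)) y +
      G (M * rzf (H * M) (io2 H M (fun N => ⌊(H : ℝ) * G N⌋)) y)) (2 / H + Λ) := by
  have hH : (0 : ℝ) < H := by exact_mod_cast NeZero.pos H
  have hM : (0 : ℝ) < M := by exact_mod_cast NeZero.pos M
  obtain ⟨i, u, h0, h1, rfl⟩ := exists_ptf (H * M) y hy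
  obtain ⟨⟨a, N⟩, rfl⟩ := finProdFinEquiv.surjective i
  set s : ℕ → ℤ := fun N => ⌊(H : ℝ) * G N⌋ with hs
  rw [rzf_pt _ _ _ u h0 h1]
  obtain ⟨q, hq⟩ := fr_zpow H (-(s N)) a
  have hq' : ((((finRotate H ^ (-(s N))) a : Fin H) : ℕ) : ℝ) = (a : ℕ) - (s N : ℤ) + q * H := by
    have := congrArg (fun z : ℤ => (z : ℝ)) hq
    push_cast at this
    linarith
  have e1 : (M : ℝ) * pt (H * M) ((io2 H M s (finProdFinEquiv (a, N)) : Fin (H * M)) : ℕ) u =
      ((a : ℕ) - (s N : ℤ) + u) / H + (q + (N : ℕ)) := by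
    unfold pt
    rw [io2_val]
    push_cast
    rw [hq']
    field_simp
    ring
  have e2 : pt (H * M) ((finProdFinEquiv (a, N) : Fin (H * M)) : ℕ) u = ((a : ℕ) + ((N : ℕ) + u) / M) / H := by
    rw [pt_prod H M]
    rfl
  have hNM : (((N : ℕ) : ℝ) + u) / M ≤ 1 := by
    rw [div_le_one hM]
    have : ((N : ℕ) : ℝ) + 1 ≤ M := by exact_mod_cast N.2
    linarith
  have hNM0 : 0 ≤ (((N : ℕ) : ℝ) + u) / M := by positivity
  -- the block number
  have e3 : (M : ℝ) * pt (H * M) ((io2 H M s (finProdFinEquiv (a, N)) : Fin (H * M)) : ℕ) u =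
      (N : ℕ) + (((finRotate H ^ (-(s N))) a : ℕ) + u) / H := by
    rw [e1, hq']
    field_simp
    ring
  have hb0 : 0 ≤ ((((finRotate H ^ (-(s N))) a : ℕ) : ℝ) + u) / H := by positivity
  have hb1 : ((((finRotate H ^ (-(s N))) a : ℕ) : ℝ) + u) / H ≤ 1 := by
    rw [div_le_one hH]
    have : (((finRotate H ^ (-(s N))) a : ℕ) : ℝ) + 1 ≤ H := by exact_mod_cast ((finRotate H ^ (-(s N))) a).2
    linarith
  set W : ℝ := (M : ℝ) * pt (H * M) ((io2 H M s (finProdFinEquiv (a, N)) : Fin (H * M)) : ℕ) u with hW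
  have hGN : |G (N : ℕ) - G W| ≤ Λ := by
    refine (hG _ _).trans ?_
    have : |((N : ℕ) : ℝ) - W| ≤ 1 := by
      rw [e3, abs_le]
      constructor <;> linarith
    nlinarith [abs_nonneg (((N : ℕ) : ℝ) - W)]
  have hfl1 := Int.floor_le ((H : ℝ) * G (N : ℕ))
  have hfl2 := Int.lt_floor_add_one ((H : ℝ) * G (N : ℕ))
  refine ⟨-(q + N), ?_⟩
  rw [e2]
  push_cast
  have hsN : s N = ⌊(H : ℝ) * G (N : ℕ)⌋ := rfl
  rw [← hsN] at hfl1 hfl2
  have e4 : ((a : ℕ) + (((N : ℕ) : ℝ) + u) / M) / H - (((a : ℕ) - (s N : ℤ) + u) / H + (q + (N : ℕ)) + G W) -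
      -((q : ℝ) + (N : ℕ)) = ((((N : ℕ) : ℝ) + u) / M - u) / H + (s N - H * G (N : ℕ)) / H + (G (N : ℕ) - G W) := by
    field_simp
    ring
  rw [← e1] at e4
  rw [e4]
  have a1 : |((((N : ℕ) : ℝ) + u) / M - u) / H| ≤ 1 / H := by
    rw [abs_div, abs_of_pos hH]
    apply div_le_div_of_nonneg_right _ hH.le
    rw [abs_le]
    constructor <;> linarith
  have a2 : |((s N : ℝ) - H * G (N : ℕ)) / H| ≤ 1 / H := by
    rw [abs_div, abs_of_pos hH]
    apply div_le_div_of_nonneg_right _ hH.le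
    rw [abs_le]
    constructor <;> linarith
  calc _ ≤ |((((N : ℕ) : ℝ) + u) / M - u) / H + (s N - H * G (N : ℕ)) / H| + |G (N : ℕ) - G W| := abs_add_le _ _
    _ ≤ (|((((N : ℕ) : ℝ) + u) / M - u) / H| + |(s N - H * G (N : ℕ)) / H|) + |G (N : ℕ) - G W| :=
        add_le_add (abs_add_le _ _) le_rfl
    _ ≤ (1 / H + 1 / H) + Λ := add_le_add (add_le_add a1 a2) hGN
    _ = 2 / H + Λ := by ring

/-- the composite automorphism and the modulated rotation -/
structure Mod (P0 P : Aut) (M : ℕ) (G : ℝ → ℝ) (κ : ℝ) : Prop where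
  ico : ∀ x, P0.1 x ∈ Ico (0 : ℝ) 1 → P.1 x ∈ Ico (0 : ℝ) 1
  ico' : ∀ x, P.1 x ∈ Ico (0 : ℝ) 1 → P0.1 x ∈ Ico (0 : ℝ) 1
  cl : ∀ x, P0.1 x ∈ Ico (0 : ℝ) 1 → cc (P0.1 x) (M * P.1 x + G (M * P.1 x)) κ

theorem exists_mod (K0 c M : ℕ) [NeZero K0] [NeZero c] [NeZero M] [NeZero (K0 * c)] [NeZero (K0 * c * M)]
    (ι0 : Equiv.Perm (Fin K0)) (G : ℝ → ℝ) (Λ : ℝ) (hG : ∀ x y, |G x - G y| ≤ Λ * |x - y|) (hΛ : 0 ≤ Λ) :
    ∃ ι : Equiv.Perm (Fin (K0 * c * M)), Mod (rz K0 ι0) (rz (K0 * c * M) ι) M G (2 / ((K0 * c : ℕ) : ℝ) + Λ) := by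
  have hcM : NeZero (c * M) := ⟨by have := NeZero.pos c; have := NeZero.pos M; positivity⟩
  have e0 : rz (K0 * c * M) (lift (K0 * c) M (lift K0 c ι0)) = rz K0 ι0 := by rw [rz_lift, rz_lift]
  set ι2 := io2 (K0 * c) M (fun N => ⌊((K0 * c : ℕ) : ℝ) * G N⌋) with hι2
  refine ⟨ι2 * lift (K0 * c) M (lift K0 c ι0), ?_⟩
  have e1 : ∀ x, (rz (K0 * c * M) (ι2 * lift (K0 * c) M (lift K0 c ι0))).1 x =
      rzf (K0 * c * M) ι2 ((rz K0 ι0).1 x) := by
    intro x
    rw [← rz_mul, e0]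
    rfl
  refine ⟨?_, ?_, ?_⟩
  · intro x hx
    rw [e1]
    exact (rzf_mem _ ι2 _ hx).1
  · intro x hx
    rw [e1] at hx
    by_contra hn
    rw [rzf_not_mem _ ι2 _ hn] at hx
    exact hn hx
  · intro x hx
    rw [e1]
    exact rel (K0 * c) M G Λ hG hΛ _ hx

/-- closeness of the modulated flow to the rotation flow -/
theorem mod_close (P0 P : Aut) (M : ℕ) (G : ℝ → ℝ) (κ Λ : ℝ) (hmod : Mod P0 P M G κ)
    (hG : ∀ x y, |G x - G y| ≤ Λ * |x - y|) (hper : ∀ x, G (x + M) = G x) (v v1 v0 : ℝ) (hv : M * v = v1)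
    (x t : ℝ) (hx : P0.1 x ∈ Ico (0 : ℝ) 1) :
    cc (P0.1 ((path P v t).1 x)) (P0.1 ((path P0 v0 t).1 x)) (2 * κ + Λ * |v1 * t| + |(v1 - v0) * t|) := by
  have hPx := hmod.ico x hx
  have e1 : P.1 ((path P v t).1 x) = rotf (v * t) (P.1 x) := P.1.apply_symm_apply _
  have e2 : P0.1 ((path P0 v0 t).1 x) = rotf (v0 * t) (P0.1 x) := P0.1.apply_symm_apply _
  have h1 : P.1 ((path P v t).1 x) ∈ Ico (0 : ℝ) 1 := by
    rw [e1]
    exact rotf_mem _ _ hPx
  have h2 := hmod.cl _ (hmod.ico' _ h1)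
  have h3 := hmod.cl x hx
  have hperq : ∀ (q : ℤ) (x : ℝ), G (x + q * M) = G x := by
    have hn : ∀ (q : ℕ) (x : ℝ), G (x + q * M) = G x := by
      intro q
      induction q with
      | zero => intro x; simp
      | succ q ih =>
        intro x
        rw [← ih x, ← hper (x + q * M)]
        congr 1
        push_cast
        ring
    intro q x
    cases q with
    | ofNat q => exact_mod_cast hn q x
    | negSucc q =>
      rw [← hn (q + 1) (x + _)]
      congr 1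
      push_cast
      ring
  rw [e1, rotf_pos _ _ hPx] at h2
  set w := P.1 x with hw
  set q := ⌊w + v * t⌋ with hq
  have hfr : Int.fract (w + v * t) = w + v * t + ((-q : ℤ) : ℝ) := by
    have := Int.floor_add_fract (w + v * t)
    push_cast
    linarith
  rw [hfr] at h2
  have e3 : (M : ℝ) * (w + v * t + ((-q : ℤ) : ℝ)) = (M * w + v1 * t) + ((-q : ℤ) : ℝ) * M := by
    rw [← hv]
    ring
  rw [e3, hperq] at h2
  -- remove the integer
  have h4 : cc ((M * w + v1 * t) + ((-q : ℤ) : ℝ) * M + G (M * w + v1 * t)) ((M * w + G (M * w)) + v1 * t)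
      (Λ * |v1 * t|) := by
    refine ⟨-q * M, ?_⟩
    push_cast
    have e : (M : ℝ) * w + v1 * t + -(q : ℝ) * M + G (M * w + v1 * t) - (M * w + G (M * w) + v1 * t) - -(q : ℝ) * M =
        G (M * w + v1 * t) - G (M * w) := by ring
    rw [e]
    refine (hG _ _).trans (le_of_eq ?_)
    congr 2
    ring
  have h5 : cc ((M * w + G (M * w)) + v1 * t) (P0.1 x + v0 * t) (κ + |(v1 - v0) * t|) := by
    refine cc_add (cc_symm h3) (cc_of_abs ?_)
    rw [show v1 * t - v0 * t = (v1 - v0) * t by ring]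
  have h6 : cc (P0.1 x + v0 * t) (P0.1 ((path P0 v0 t).1 x)) 0 := by
    rw [e2, rotf_pos _ _ hx]
    exact cc_symm (cc_fract _)
  have h7 := cc_trans (cc_trans (cc_trans h2 h4) h5) h6
  exact cc_mono h7 (le_of_eq (by ring))

end Pool.Agent.W744.SF
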