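import Mathlib
import Pool.Agent.W744.SF.Perm

set_option autoImplicit false
set_option linter.unusedSectionVars false
set_option linter.unusedVariables false

/-!
Characters of the conjugated rotation.
-/

namespace Pool.Agent.W744.SF

open MeasureTheory Set Filter Topology
open scoped ENNReal symmDiff
open Pool.H359R3 Pool.H359R3.WH Pool.H359R3.IX

attribute [local instance] us

/-- the exponential -/
noncomputable def ee (x : ℝ) : ℂ := Complex.exp (2 * Real.pi * Complex.I * x)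

theorem ee_add (x y : ℝ) : ee (x + y) = ee x * ee y := by
  unfold ee
  rw [← Complex.exp_add]
  congr 1
  push_cast
  ring

theorem ee_int (n : ℤ) : ee n = 1 := by
  unfold ee
  rw [Complex.exp_eq_one_iff]
  exact ⟨n, by push_cast; ring⟩

theorem ee_norm (x : ℝ) : ‖ee x‖ = 1 := by
  unfold ee
  rw [show (2 * Real.pi * Complex.I * x : ℂ) = ((2 * Real.pi * x : ℝ) : ℂ) * Complex.I by push_cast; ring]
  exact Complex.norm_exp_ofReal_mul_I _

theorem ee_meas : Measurable ee := by unfold ee; fun_prop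

theorem ee_neg (x : ℝ) : ee (-x) = starRingEnd ℂ (ee x) := by
  unfold ee
  rw [← Complex.exp_conj]
  congr 1
  simp only [map_mul, Complex.conj_I, Complex.conj_ofReal, map_ofNat]
  push_cast
  ring

theorem ee_lip (x y : ℝ) : ‖ee x - ee y‖ ≤ 2 * Real.pi * |x - y| := by
  have h1 : ee x - ee y = ee y * (ee (x - y) - 1) := by
    rw [mul_sub, ← ee_add, mul_one]
    congr 2
    ring
  rw [h1, norm_mul, ee_norm, one_mul]
  have h2 : ee (x - y) = Complex.exp (Complex.I * ((2 * Real.pi * (x - y) : ℝ) : ℂ)) := by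
    unfold ee
    congr 1
    push_cast
    ring
  rw [h2]
  refine (Real.norm_exp_I_mul_ofReal_sub_one_le).trans ?_
  rw [Real.norm_eq_abs, abs_mul, abs_of_pos (by positivity)]

theorem ee_cc {x y κ : ℝ} (j : ℤ) (h : cc x y κ) : ‖ee (j * x) - ee (j * y)‖ ≤ 2 * Real.pi * (|(j : ℝ)| * κ) := by
  obtain ⟨m, h⟩ := h
  have e : ee (j * y) = ee (j * (y + m)) := by
    rw [mul_add, ee_add]
    have := ee_int (j * m)
    push_cast at this
    rw [this, mul_one]
  rw [e]
  refine (ee_lip _ _).trans ?_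
  apply mul_le_mul_of_nonneg_left _ (by positivity)
  rw [← mul_sub, abs_mul]
  apply mul_le_mul_of_nonneg_left _ (abs_nonneg _)
  rwa [show x - (y + m) = x - y - m by ring]

theorem int_ee (n : ℤ) (hn : n ≠ 0) : ∫ x, ee (n * x) ∂lam = 0 := by
  show ∫ x in Icc (0 : ℝ) 1, ee (n * x) = 0
  rw [integral_Icc_eq_integral_Ioc, ← intervalIntegral.integral_of_le zero_le_one]
  have hc : (2 * Real.pi * Complex.I * n : ℂ) ≠ 0 := by
    have h1 : (Real.pi : ℂ) ≠ 0 := by exact_mod_cast Real.pi_ne_zero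
    have h2 : (n : ℂ) ≠ 0 := by exact_mod_cast hn
    simp [h1, h2]
  have e : ∀ x : ℝ, ee (n * x) = Complex.exp ((2 * Real.pi * Complex.I * n : ℂ) * x) := by
    intro x
    unfold ee
    congr 1
    push_cast
    ring
  simp_rw [e]
  rw [integral_exp_mul_complex hc]
  have h3 : Complex.exp ((2 * Real.pi * Complex.I * n : ℂ) * ((1 : ℝ) : ℂ)) = 1 := by
    have := ee_int n
    unfold ee at this
    rw [← this]
    congr 1
    push_cast
    ring
  rw [h3]
  simp

theorem chi_mem (P : Aut) (l : ℤ) : MemLp (fun x => ee (l * P.1 x)) 2 lam := by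
  refine MemLp.of_bound (C := 1) ?_ ?_
  · exact (ee_meas.comp (P.1.measurable.const_mul _)).aestronglyMeasurable
  · exact Eventually.of_forall fun x => (ee_norm _).le

/-- character -/
noncomputable def chi (P : Aut) (l : ℤ) : Lp ℂ 2 lam := (chi_mem P l).toLp _

theorem chi_ae (P : Aut) (l : ℤ) : (chi P l : ℝ → ℂ) =ᵐ[lam] fun x => ee (l * P.1 x) := MemLp.coeFn_toLp _

theorem chi_inner (P : Aut) (l l' : ℤ) : inner ℂ (chi P l) (chi P l') = if l = l' then 1 else 0 := by
  rw [L2.inner_def]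
  have h1 : ∫ x, inner ℂ ((chi P l : ℝ → ℂ) x) ((chi P l' : ℝ → ℂ) x) ∂lam =
      ∫ x, ee (((l' - l : ℤ) : ℝ) * P.1 x) ∂lam := by
    apply integral_congr_ae
    filter_upwards [chi_ae P l, chi_ae P l'] with x h1 h2
    rw [h1, h2]
    show ee (l' * P.1 x) * starRingEnd ℂ (ee (l * P.1 x)) = _
    rw [← ee_neg, ← ee_add]
    congr 1
    push_cast
    ring
  rw [h1]
  have h2 : ∫ x, ee (((l' - l : ℤ) : ℝ) * P.1 x) ∂lam = ∫ y, ee (((l' - l : ℤ) : ℝ) * y) ∂lam :=
    P.2.integral_comp P.1.measurableEmbedding (fun y => ee (((l' - l : ℤ) : ℝ) * y))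
  rw [h2]
  split_ifs with h
  · rw [h, sub_self]
    simp [ee]
  · exact int_ee _ (sub_ne_zero.2 (Ne.symm h))

/-- Koopman operator -/
noncomputable def koop (T : Aut) (f : Lp ℂ 2 lam) : Lp ℂ 2 lam := Lp.compMeasurePreserving (⇑T.1) T.2 f

theorem koop_ae (T : Aut) (f : Lp ℂ 2 lam) : (koop T f : ℝ → ℂ) =ᵐ[lam] fun x => (f : ℝ → ℂ) (T.1 x) :=
  Lp.coeFn_compMeasurePreserving f T.2

theorem koop_add (T : Aut) (f g : Lp ℂ 2 lam) : koop T (f + g) = koop T f + koop T g :=
  map_add (Lp.compMeasurePreserving (⇑T.1) T.2) f g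

theorem koop_smul (T : Aut) (c : ℂ) (f : Lp ℂ 2 lam) : koop T (c • f) = c • koop T f := by
  apply Lp.ext
  have h1 := koop_ae T (c • f)
  have h2 := Lp.coeFn_smul c (koop T f)
  have h3 := koop_ae T f
  have h4 := T.2.quasiMeasurePreserving.ae (Lp.coeFn_smul c f)
  filter_upwards [h1, h2, h3, h4] with x h1 h2 h3 h4
  rw [h1, h2, h4, Pi.smul_apply, Pi.smul_apply, h3]

theorem koop_sum {ι : Type*} (T : Aut) (S : Finset ι) (f : ι → Lp ℂ 2 lam) :
    koop T (∑ i ∈ S, f i) = ∑ i ∈ S, koop T (f i) :=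
  map_sum (Lp.compMeasurePreserving (⇑T.1) T.2) f S

theorem koop_norm (T : Aut) (f : Lp ℂ 2 lam) : ‖koop T f‖ = ‖f‖ := Lp.norm_compMeasurePreserving f T.2

theorem aut_Ico (P : Aut) : ∀ᵐ x ∂lam, P.1 x ∈ Ico (0 : ℝ) 1 := P.2.quasiMeasurePreserving.ae ae_Ico

theorem koop_chi (P : Aut) (v s : ℝ) (l : ℤ) : koop (path P v s) (chi P l) = ee (l * (v * s)) • chi P l := by
  apply Lp.ext
  have h1 := koop_ae (path P v s) (chi P l)
  have h2 := Lp.coeFn_smul (ee (l * (v * s))) (chi P l)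
  have h3 := chi_ae P l
  have h4 := (path P v s).2.quasiMeasurePreserving.ae (chi_ae P l)
  filter_upwards [h1, h2, h3, h4, aut_Ico P] with x h1 h2 h3 h4 h5
  rw [h1, h2, h4, Pi.smul_apply, h3, smul_eq_mul]
  have e1 : P.1 ((path P v s).1 x) = rotf (v * s) (P.1 x) := P.1.apply_symm_apply _
  rw [e1, rotf_pos _ _ h5]
  have h6 : (l : ℝ) * (P.1 x + v * s) = l * Int.fract (P.1 x + v * s) + ((l * ⌊P.1 x + v * s⌋ : ℤ) : ℝ) := by
    have := Int.floor_add_fract (P.1 x + v * s)
    push_cast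
    rw [← mul_add]
    congr 1
    linarith
  have h7 : ee (l * Int.fract (P.1 x + v * s)) = ee (l * (P.1 x + v * s)) := by
    rw [h6, ee_add, ee_int, mul_one]
  rw [h7, mul_add, ee_add, mul_comm]

/-- the constant function -/
noncomputable def one : Lp ℂ 2 lam := chi oneA 0

theorem chi_zero (P : Aut) : chi P 0 = one := by
  apply Lp.ext
  filter_upwards [chi_ae P 0, chi_ae oneA 0] with x h1 h2
  unfold one
  rw [h1, h2]
  simp

theorem inner_one (f : Lp ℂ 2 lam) : inner ℂ one f = ∫ x, (f : ℝ → ℂ) x ∂lam := by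
  rw [L2.inner_def]
  apply integral_congr_ae
  filter_upwards [chi_ae oneA 0] with x h1
  unfold one
  rw [h1]
  show (f : ℝ → ℂ) x * starRingEnd ℂ (ee (((0 : ℤ) : ℝ) * _)) = _
  simp [ee]

theorem one_inner_one : inner ℂ one one = (1 : ℂ) := by
  unfold one
  rw [chi_inner, if_pos rfl]

/-- the zero mean part -/
noncomputable def pr (f : Lp ℂ 2 lam) : Lp ℂ 2 lam := f - inner ℂ one f • one

theorem pr_cont : Continuous pr := by
  unfold pr
  fun_prop

theorem pr_add (f g : Lp ℂ 2 lam) : pr (f + g) = pr f + pr g := by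
  unfold pr
  rw [inner_add_right, add_smul]
  abel

theorem pr_smul (c : ℂ) (f : Lp ℂ 2 lam) : pr (c • f) = c • pr f := by
  unfold pr
  rw [inner_smul_right, smul_sub, smul_smul]

theorem pr_zero : pr 0 = 0 := by
  unfold pr
  simp

theorem pr_sum {ι : Type*} (S : Finset ι) (f : ι → Lp ℂ 2 lam) : pr (∑ i ∈ S, f i) = ∑ i ∈ S, pr (f i) := by
  classical
  induction S using Finset.induction_on with
  | empty => simp [pr_zero]
  | insert a S ha ih => rw [Finset.sum_insert ha, Finset.sum_insert ha, pr_add, ih]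

theorem inner_one_pr (f : Lp ℂ 2 lam) : inner ℂ one (pr f) = (0 : ℂ) := by
  unfold pr
  rw [inner_sub_right, inner_smul_right, one_inner_one, mul_one, sub_self]

theorem pr_of_zero (f : Lp ℂ 2 lam) (h : inner ℂ one f = (0 : ℂ)) : pr f = f := by
  unfold pr
  rw [h, zero_smul, sub_zero]

theorem pr_one : pr one = 0 := by
  unfold pr
  rw [one_inner_one, one_smul, sub_self]

theorem pr_chi (P : Aut) (l : ℤ) (hl : l ≠ 0) : pr (chi P l) = chi P l := by
  apply pr_of_zero
  rw [← chi_zero P, chi_inner, if_neg (Ne.symm hl)]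

theorem pr_norm (f : Lp ℂ 2 lam) : ‖pr f‖ ≤ ‖f‖ := by
  have h1 : ‖f‖ ^ 2 = ‖pr f‖ ^ 2 + ‖inner ℂ one f • one‖ ^ 2 := by
    have h2 : f = pr f + inner ℂ one f • one := by unfold pr; abel
    have h3 : inner ℂ (pr f) (inner ℂ one f • one) = (0 : ℂ) := by
      have h0 : inner ℂ (pr f) one = (0 : ℂ) := by rw [← inner_conj_symm, inner_one_pr, map_zero]
      rw [inner_smul_right, h0, mul_zero]
    have h4 := norm_add_sq_eq_norm_sq_add_norm_sq_of_inner_eq_zero (pr f) (inner ℂ one f • one) h3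
    rw [← h2] at h4
    nlinarith [h4]
  nlinarith [norm_nonneg (pr f), norm_nonneg f, sq_nonneg ‖inner ℂ one f • one‖]

end Pool.Agent.W744.SF
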