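import Mathlib
import Pool.Agent.W744.SF.Chi

set_option autoImplicit false
set_option linter.unusedSectionVars false
set_option linter.unusedVariables false

/-!
Decoding: tensor expansion in characters.
-/

namespace Pool.Agent.W744.SF

open MeasureTheory Set Filter Topology
open scoped ENNReal symmDiff
open Pool.H359R3 Pool.H359R3.WH Pool.H359R3.IX

attribute [local instance] us

abbrev HH : Type := Lp ℂ 2 lam
abbrev VV (k : ℕ) : Type := Lp ℂ 2 (Measure.pi fun _ : Fin k => lam)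

/-- boxes of digit sequences -/
noncomputable def Bx (Y d : ℕ) : Finset (Fin d → ℤ) := Fintype.piFinset fun _ => Finset.Icc (-(Y : ℤ)) Y

/-- integer frequency -/
def lfr {d : ℕ} (M : ℤ) (L : Fin d → ℤ) (j : ℤ) (n : Fin d → ℤ) : ℤ := j * M + ∑ i, n i * L i

/-- the modulated characters -/
noncomputable def Fj {d : ℕ} (P : Aut) (M : ℤ) (L : Fin d → ℤ) (Y : ℕ) (c : ℤ → ℤ → ℂ) (j : ℤ) : HH :=
  ∑ n ∈ Bx Y d, (∏ i, c j (n i)) • chi P (lfr M L j n)

/-- the vector -/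
noncomputable def Fv {d : ℕ} (P : Aut) (M : ℤ) (L : Fin d → ℤ) (Y : ℕ) (c : ℤ → ℤ → ℂ) (φ : ℤ → ℂ) (J : ℕ) : HH :=
  ∑ j ∈ Jset J, φ j • Fj P M L Y c j

theorem Fv_eq {d : ℕ} (P : Aut) (M : ℤ) (L : Fin d → ℤ) (Y : ℕ) (c : ℤ → ℤ → ℂ) (φ : ℤ → ℂ) (J : ℕ) :
    Fv P M L Y c φ J = ∑ x ∈ Jset J ×ˢ Bx Y d, (φ x.1 * ∏ i, c x.1 (x.2 i)) • chi P (lfr M L x.1 x.2) := by
  unfold Fv Fj
  rw [Finset.sum_product]
  apply Finset.sum_congr rfl
  intro j _
  rw [Finset.smul_sum]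
  apply Finset.sum_congr rfl
  intro n _
  rw [smul_smul]

theorem reidx {β : Type*} [AddCommMonoid β] (k J Y d : ℕ) (F : (Fin k → ℤ) → (Fin d → Fin k → ℤ) → β) :
    ∑ r ∈ Fintype.piFinset (fun _ : Fin k => Jset J ×ˢ Bx Y d), F (fun i => (r i).1) (fun m i => (r i).2 m) =
      ∑ j ∈ JK k J, ∑ n ∈ DD k Y d, F j n := by
  rw [← Finset.sum_product']
  refine Finset.sum_bij' (fun r _ => ((fun i => (r i).1), (fun m i => (r i).2 m)))
    (fun x _ => fun i => (x.1 i, fun m => x.2 m i)) ?_ ?_ ?_ ?_ ?_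
  · intro r hr
    rw [Fintype.mem_piFinset] at hr
    rw [Finset.mem_product]
    unfold JK DD Dg
    simp only [Fintype.mem_piFinset]
    refine ⟨fun i => (Finset.mem_product.1 (hr i)).1, fun m i => ?_⟩
    have h := (Finset.mem_product.1 (hr i)).2
    unfold Bx at h
    rw [Fintype.mem_piFinset] at h
    exact h m
  · intro x hx
    rw [Finset.mem_product] at hx
    unfold JK DD Dg at hx
    simp only [Fintype.mem_piFinset] at hx
    rw [Fintype.mem_piFinset]
    intro i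
    rw [Finset.mem_product]
    refine ⟨hx.1 i, ?_⟩
    unfold Bx
    rw [Fintype.mem_piFinset]
    exact fun m => hx.2 m i
  · intro r _
    rfl
  · intro x _
    rfl
  · intro r _
    rfl

/-- expansion of the tensor of modulated combinations -/
theorem tau_expand {k d : ℕ} (τ : ContinuousMultilinearMap ℂ (fun _ : Fin k => HH) (VV k)) (P : Aut) (M : ℤ)
    (L : Fin d → ℤ) (J Y : ℕ) (A : Fin k → ℤ → (Fin d → ℤ) → ℂ) :
    τ (fun i => ∑ x ∈ Jset J ×ˢ Bx Y d, A i x.1 x.2 • chi P (lfr M L x.1 x.2)) =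
      ∑ j ∈ JK k J, ∑ n ∈ DD k Y d, (∏ i, A i (j i) (fun m => n m i)) •
        τ (fun i => chi P (lfr M L (j i) (fun m => n m i))) := by
  classical
  have h := MultilinearMap.map_sum_finset τ.toMultilinearMap
    (fun i (x : ℤ × (Fin d → ℤ)) => A i x.1 x.2 • chi P (lfr M L x.1 x.2)) (fun _ => Jset J ×ˢ Bx Y d)
  have h' : τ (fun i => ∑ x ∈ Jset J ×ˢ Bx Y d, A i x.1 x.2 • chi P (lfr M L x.1 x.2)) =
      ∑ r ∈ Fintype.piFinset (fun _ : Fin k => Jset J ×ˢ Bx Y d),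
        τ (fun i => A i (r i).1 (r i).2 • chi P (lfr M L (r i).1 (r i).2)) := h
  rw [h']
  have h2 := reidx (β := VV k) k J Y d (fun j n => (∏ i, A i (j i) (fun m => n m i)) •
        τ (fun i => chi P (lfr M L (j i) (fun m => n m i))))
  rw [← h2]
  apply Finset.sum_congr rfl
  intro r _
  exact τ.map_smul_univ (fun i => A i (r i).1 (r i).2) (fun i => chi P (lfr M L (r i).1 (r i).2))

theorem koop_Fv {d : ℕ} (P : Aut) (M : ℤ) (L : Fin d → ℤ) (Y : ℕ) (c : ℤ → ℤ → ℂ) (φ : ℤ → ℂ) (J : ℕ) (v s : ℝ) :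
    koop (path P v s) (Fv P M L Y c φ J) = ∑ x ∈ Jset J ×ˢ Bx Y d,
      (φ x.1 * (∏ i, c x.1 (x.2 i)) * ee (lfr M L x.1 x.2 * (v * s))) • chi P (lfr M L x.1 x.2) := by
  rw [Fv_eq, koop_sum]
  apply Finset.sum_congr rfl
  intro x _
  rw [koop_smul, koop_chi, smul_smul]

/-- norm of a combination of orthonormal vectors -/
theorem onorm {V ι : Type*} [NormedAddCommGroup V] [InnerProductSpace ℂ V] [DecidableEq ι] (S : Finset ι) (e : ι → V)
    (a : ι → ℂ) (h : ∀ x ∈ S, ∀ y ∈ S, inner ℂ (e x) (e y) = if x = y then (1 : ℂ) else 0) :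
    ‖∑ x ∈ S, a x • e x‖ ^ 2 = ∑ x ∈ S, ‖a x‖ ^ 2 := by
  have h1 : (inner ℂ (∑ x ∈ S, a x • e x) (∑ x ∈ S, a x • e x) : ℂ) = ∑ x ∈ S, ((‖a x‖ ^ 2 : ℝ) : ℂ) := by
    rw [sum_inner]
    apply Finset.sum_congr rfl
    intro x hx
    rw [inner_sum]
    rw [Finset.sum_eq_single x]
    · rw [inner_smul_left, inner_smul_right, h x hx x hx, if_pos rfl, mul_one, mul_comm, Complex.mul_conj,
        Complex.normSq_eq_norm_sq]
    · intro y hy hyx
      rw [inner_smul_left, inner_smul_right, h x hx y hy, if_neg (Ne.symm hyx), mul_zero, mul_zero]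
    · intro hx'
      exact absurd hx hx'
  have h2 : ‖∑ x ∈ S, a x • e x‖ ^ 2 = (inner ℂ (∑ x ∈ S, a x • e x) (∑ x ∈ S, a x • e x) : ℂ).re :=
    (norm_sq_eq_re_inner (𝕜 := ℂ) _)
  rw [h2, h1, ← Complex.ofReal_sum, Complex.ofReal_re]

theorem decode {k d : ℕ} (hI : S_Interp) (τ : ContinuousMultilinearMap ℂ (fun _ : Fin k => HH) (VV k))
    (hτ : ∀ f g, inner ℂ (τ f) (τ g) = ∏ i, inner ℂ (f i) (g i)) (P : Aut) (M : ℤ) (L : Fin d → ℤ) (J Y : ℕ)
    (c : ℤ → ℤ → ℂ) (φ : ℤ → ℂ)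
    (hinj : ∀ j ∈ Jset J, ∀ j' ∈ Jset J, ∀ n ∈ Bx Y d, ∀ n' ∈ Bx Y d, lfr M L j n = lfr M L j' n' →
      j = j' ∧ n = n')
    (v : ℝ) (ω : Fin d → ℝ) (hω : ∀ i, v * L i = ω i) (t : Fin k → ℝ) (j0 : Fin k → ℤ) (hj0 : j0 ∈ JK k J)
    (Q : ℝ → ℂ) (hQ : ∀ x y : ℝ, Int.fract x = Int.fract y → Q x = Q y) (ε : ℝ) (hε : 0 ≤ ε)
    (hsum : ∑ j ∈ JK k J, ∑ n ∈ DD k Y d,
        ‖Q ((v * M * ∑ l, t l * j l) + ∑ i, ω i * dot t (n i)) * (∏ l, φ (j l)) * (∏ i, ∏ l, c (j l) (n i l)) -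
          (if j = j0 then ∏ i, ∏ l, c (j l) (n i l) else 0)‖ ^ 2 ≤ ε ^ 2) :
    ∃ (N : Finset ℤ) (a : ℤ → ℂ),
      ‖∑ m ∈ N, a m • τ (fun i => koop (path P v (m * t i)) (Fv P M L Y c φ J)) -
        τ (fun i => Fj P M L Y c (j0 i))‖ ≤ ε := by
  classical
  set Z : (Fin k → ℤ) → (Fin d → Fin k → ℤ) → ℝ := fun j n =>
    (v * M * ∑ l, t l * j l) + ∑ i, ω i * dot t (n i) with hZ
  have hZ' : ∀ j n, Z j n = ∑ i, (lfr M L (j i) (fun m => n m i) : ℝ) * (v * t i) := by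
    intro j n
    simp only [hZ, lfr, dot]
    push_cast
    simp_rw [← hω, add_mul, Finset.mul_sum, Finset.sum_mul]
    rw [Finset.sum_add_distrib]
    congr 1
    · apply Finset.sum_congr rfl
      intro i _
      ring
    · rw [Finset.sum_comm]
      apply Finset.sum_congr rfl
      intro i _
      apply Finset.sum_congr rfl
      intro m _
      ring
  set E : (Fin k → ℤ) → (Fin d → Fin k → ℤ) → VV k := fun j n =>
    τ (fun i => chi P (lfr M L (j i) (fun m => n m i))) with hE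
  obtain ⟨N, a, hN⟩ := hI ((JK k J ×ˢ DD k Y d).image fun x => Z x.1 x.2) Q hQ
  refine ⟨N, a, ?_⟩
  -- first part
  have e1 : ∀ m : ℤ, τ (fun i => koop (path P v (m * t i)) (Fv P M L Y c φ J)) =
      ∑ x ∈ JK k J ×ˢ DD k Y d, ((∏ l, φ (x.1 l)) * (∏ i, ∏ l, c (x.1 l) (x.2 i l)) * ee (m * Z x.1 x.2)) •
        E x.1 x.2 := by
    intro m
    have h1 : (fun i => koop (path P v (m * t i)) (Fv P M L Y c φ J)) = fun i : Fin k =>
        ∑ x ∈ Jset J ×ˢ Bx Y d, (φ x.1 * (∏ i, c x.1 (x.2 i)) * ee (lfr M L x.1 x.2 * (v * (m * t i)))) •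
          chi P (lfr M L x.1 x.2) := by
      funext i
      exact koop_Fv P M L Y c φ J v _
    rw [h1, tau_expand τ P M L J Y (fun i j n => φ j * (∏ i, c j (n i)) * ee (lfr M L j n * (v * (m * t i)))),
      Finset.sum_product]
    apply Finset.sum_congr rfl
    intro j _
    apply Finset.sum_congr rfl
    intro n _
    congr 1
    rw [Finset.prod_mul_distrib, Finset.prod_mul_distrib, Finset.prod_comm]
    congr 1
    rw [hZ', Finset.mul_sum]
    have hprod : ∀ (S : Finset (Fin k)) (f : Fin k → ℝ), ee (∑ i ∈ S, f i) = ∏ i ∈ S, ee (f i) := by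
      intro S f
      induction S using Finset.induction_on with
      | empty => simp [ee]
      | insert a S ha ih => rw [Finset.sum_insert ha, Finset.prod_insert ha, ee_add, ih]
    rw [hprod]
    apply Finset.prod_congr rfl
    intro i _
    congr 1
    ring
  have e2 : ∑ m ∈ N, a m • τ (fun i => koop (path P v (m * t i)) (Fv P M L Y c φ J)) =
      ∑ x ∈ JK k J ×ˢ DD k Y d, (Q (Z x.1 x.2) * (∏ l, φ (x.1 l)) * (∏ i, ∏ l, c (x.1 l) (x.2 i l))) •
        E x.1 x.2 := by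
    simp_rw [e1, Finset.smul_sum, smul_smul]
    rw [Finset.sum_comm]
    apply Finset.sum_congr rfl
    intro x hx
    rw [← Finset.sum_smul]
    congr 1
    have h3 := hN (Z x.1 x.2) (Finset.mem_image_of_mem _ hx)
    rw [← h3, Finset.sum_mul, Finset.sum_mul]
    apply Finset.sum_congr rfl
    intro m _
    have h4 : ee (m * Z x.1 x.2) = Complex.exp (2 * Real.pi * Complex.I * m * Z x.1 x.2) := by
      unfold ee
      congr 1
      push_cast
      ring
    rw [h4]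
    ring
  -- second part
  have e3 : τ (fun i => Fj P M L Y c (j0 i)) =
      ∑ x ∈ JK k J ×ˢ DD k Y d, (if x.1 = j0 then ∏ i, ∏ l, c (x.1 l) (x.2 i l) else 0) • E x.1 x.2 := by
    have h1 : (fun i => Fj P M L Y c (j0 i)) = fun i : Fin k =>
        ∑ x ∈ Jset J ×ˢ Bx Y d, (if x.1 = j0 i then ∏ m, c x.1 (x.2 m) else 0) • chi P (lfr M L x.1 x.2) := by
      funext i
      unfold Fj
      rw [Finset.sum_product, Finset.sum_eq_single (j0 i)]
      · simp
      · intro j _ hj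
        simp [hj]
      · intro h
        unfold JK at hj0
        rw [Fintype.mem_piFinset] at hj0
        exact absurd (hj0 i) h
    rw [h1, tau_expand τ P M L J Y (fun i j n => if j = j0 i then ∏ m, c j (n m) else 0), Finset.sum_product]
    apply Finset.sum_congr rfl
    intro j _
    apply Finset.sum_congr rfl
    intro n _
    congr 1
    by_cases h : j = j0
    · subst h
      simp only [if_true]
      rw [Finset.prod_comm]
    · rw [if_neg h]
      obtain ⟨i, hi⟩ := Function.ne_iff.1 h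
      exact Finset.prod_eq_zero (Finset.mem_univ i) (if_neg hi)
  rw [e2, e3, ← Finset.sum_sub_distrib]
  simp_rw [← sub_smul]
  have h5 := onorm (JK k J ×ˢ DD k Y d) (fun x => E x.1 x.2)
    (fun x => Q (Z x.1 x.2) * (∏ l, φ (x.1 l)) * (∏ i, ∏ l, c (x.1 l) (x.2 i l)) -
      (if x.1 = j0 then ∏ i, ∏ l, c (x.1 l) (x.2 i l) else 0)) ?_
  · have h6 : ‖∑ x ∈ JK k J ×ˢ DD k Y d, (Q (Z x.1 x.2) * (∏ l, φ (x.1 l)) * (∏ i, ∏ l, c (x.1 l) (x.2 i l)) -
      (if x.1 = j0 then ∏ i, ∏ l, c (x.1 l) (x.2 i l) else 0)) • E x.1 x.2‖ ^ 2 ≤ ε ^ 2 := by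
      rw [h5, Finset.sum_product]
      exact hsum
    exact abs_le_of_sq_le_sq' h6 hε |>.2
  · rintro ⟨j, n⟩ hx ⟨j', n'⟩ hy
    rw [Finset.mem_product] at hx hy
    unfold JK DD Dg at hx hy
    simp only [Fintype.mem_piFinset] at hx hy
    simp only [hE]
    rw [hτ]
    simp_rw [chi_inner]
    by_cases h : ∀ i, lfr M L (j i) (fun m => n m i) = lfr M L (j' i) (fun m => n' m i)
    · have h7 : ∀ i, j i = j' i ∧ (fun m => n m i) = (fun m => n' m i) := by
        intro i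
        apply hinj _ (hx.1 i) _ (hy.1 i) _ _ _ _ (h i)
        · unfold Bx
          rw [Fintype.mem_piFinset]
          exact fun m => hx.2 m i
        · unfold Bx
          rw [Fintype.mem_piFinset]
          exact fun m => hy.2 m i
      have h8 : j = j' := funext fun i => (h7 i).1
      have h9 : n = n' := funext fun m => funext fun i => congrFun (h7 i).2 m
      subst h8 h9
      simp
    · have h7 : (j, n) ≠ (j', n') := by
        intro h8
        apply h
        intro i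
        rw [Prod.mk.injEq] at h8
        rw [h8.1, h8.2]
      rw [if_neg h7]
      push Not at h
      obtain ⟨i, hi⟩ := h
      exact Finset.prod_eq_zero (Finset.mem_univ i) (if_neg hi)

end Pool.Agent.W744.SF
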