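import Mathlib
import Pool.Agent.W744.SF.Expa

set_option autoImplicit false
set_option linter.unusedSectionVars false
set_option linter.unusedVariables false

/-!
The lacunary moduli.
-/

namespace Pool.Agent.W744.SF

open MeasureTheory Set Filter Topology
open scoped ENNReal symmDiff
open Pool.H359R3 Pool.H359R3.WH Pool.H359R3.IX

attribute [local instance] us

/-- large frequencies -/
def LL (B d : ℕ) (i : Fin d) : ℤ := (B : ℤ) ^ (2 ^ d - 2 ^ (i : ℕ))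

theorem pow_lt_d (d : ℕ) (i : Fin d) : 2 ^ (i : ℕ) < 2 ^ d := Nat.pow_lt_pow_right (by norm_num) i.2

theorem LL_mul (B d : ℕ) (i : Fin d) : LL B d i * (B : ℤ) ^ 2 ^ (i : ℕ) = (B : ℤ) ^ 2 ^ d := by
  unfold LL
  rw [← pow_add]
  congr 1
  have := pow_lt_d d i
  omega

theorem two_pow_inj (a b a' b' : ℕ) (h : a < b) (h' : a' < b') (he : 2 ^ b - 2 ^ a = 2 ^ b' - 2 ^ a') :
    a = a' ∧ b = b' := by
  have e1 : ∀ a b : ℕ, a < b → 2 ^ b - 2 ^ a = 2 ^ a * (2 ^ (b - a) - 1) := by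
    intro a b h
    rw [Nat.mul_sub, mul_one, ← pow_add]
    congr 2
    omega
  have hodd : ∀ n : ℕ, 0 < n → ¬ 2 ∣ 2 ^ n - 1 := by
    intro n hn
    obtain ⟨m, rfl⟩ := Nat.exists_eq_succ_of_ne_zero hn.ne'
    have h1 : 0 < 2 ^ m := by positivity
    rw [pow_succ]
    omega
  have key : ∀ a b a' b' : ℕ, a < b → a' < b' → 2 ^ b - 2 ^ a = 2 ^ b' - 2 ^ a' → a ≤ a' := by
    intro a b a' b' h h' he
    by_contra hc
    push Not at hc
    rw [e1 a b h, e1 a' b' h'] at he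
    obtain ⟨m, rfl⟩ : ∃ m, a = a' + (m + 1) := ⟨a - a' - 1, by omega⟩
    rw [pow_add, mul_assoc] at he
    have h2 := Nat.eq_of_mul_eq_mul_left (by positivity) he
    apply hodd (b' - a') (by omega)
    rw [← h2, pow_succ]
    exact ⟨2 ^ m * (2 ^ (b - (a' + (m + 1))) - 1), by ring⟩
  have h1 : a = a' := le_antisymm (key a b a' b' h h' he) (key a' b' a b h' h he.symm)
  subst h1
  refine ⟨rfl, ?_⟩
  have h2 : 2 ^ a < 2 ^ b := Nat.pow_lt_pow_right (by norm_num) h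
  have h3 : 2 ^ a < 2 ^ b' := Nat.pow_lt_pow_right (by norm_num) h'
  have h4 : 2 ^ b = 2 ^ b' := by omega
  exact Nat.pow_right_injective (le_refl 2) h4

theorem sep_omega (B d : ℕ) (hB : 1 ≤ B) (hB2 : (2 * (d : ℝ)) ^ 2 < B) (v1 : ℝ) (hv1 : 0 < v1) :
    Sep d (fun i => v1 / (B : ℝ) ^ 2 ^ (i : ℕ)) := by
  have hBr : (1 : ℝ) ≤ B := by exact_mod_cast hB
  have hB0 : (0 : ℝ) < B := by linarith
  intro i i' j j' hi hj hne
  have e : ∀ a b : Fin d, a < b → v1 / (B : ℝ) ^ 2 ^ (a : ℕ) / (v1 / (B : ℝ) ^ 2 ^ (b : ℕ)) =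
      (B : ℝ) ^ (2 ^ (b : ℕ) - 2 ^ (a : ℕ)) := by
    intro a b hab
    have h1 : 2 ^ (a : ℕ) < 2 ^ (b : ℕ) := Nat.pow_lt_pow_right (by norm_num) hab
    have h2 : (B : ℝ) ^ 2 ^ (b : ℕ) = (B : ℝ) ^ (2 ^ (b : ℕ) - 2 ^ (a : ℕ)) * (B : ℝ) ^ 2 ^ (a : ℕ) := by
      rw [← pow_add]
      congr 1
      omega
    rw [h2]
    field_simp
  simp only
  rw [e i i' hi, e j j' hj]
  have hexp : 2 ^ (i' : ℕ) - 2 ^ (i : ℕ) ≠ 2 ^ (j' : ℕ) - 2 ^ (j : ℕ) := by
    intro h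
    obtain ⟨h1, h2⟩ := two_pow_inj i i' j j' hi hj h
    exact hne (by rw [Prod.mk.injEq]; exact ⟨Fin.ext h1, Fin.ext h2⟩)
  have step : ∀ a b : ℕ, a < b → (2 * (d : ℝ)) ^ 2 * (B : ℝ) ^ a < (B : ℝ) ^ b := by
    intro a b hab
    have h1 : (B : ℝ) ^ (a + 1) ≤ (B : ℝ) ^ b := pow_le_pow_right₀ hBr hab
    have h2 : 0 < (B : ℝ) ^ a := by positivity
    calc (2 * (d : ℝ)) ^ 2 * (B : ℝ) ^ a < B * (B : ℝ) ^ a := mul_lt_mul_of_pos_right hB2 h2
      _ = (B : ℝ) ^ (a + 1) := by ring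
      _ ≤ _ := h1
  rcases lt_or_gt_of_ne hexp with h | h
  · exact Or.inl (step _ _ h)
  · exact Or.inr (step _ _ h)

theorem LL_pos (B d : ℕ) (hB : 1 ≤ B) (i : Fin d) : 0 < LL B d i := by
  unfold LL
  have : (0 : ℤ) < B := by exact_mod_cast hB
  positivity

/-- uniqueness of lacunary representations -/
theorem lac_uniq (B d : ℕ) (A : ℤ) (hA : 0 ≤ A) (hB : 1 ≤ B) (hBA : (d : ℤ) * A < B) (b : ℤ) (a : Fin d → ℤ)
    (ha : ∀ i, |a i| ≤ A) (h : b * (B : ℤ) ^ 2 ^ d + ∑ i, a i * LL B d i = 0) : b = 0 ∧ ∀ i, a i = 0 := by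
  have hB0 : (0 : ℤ) < B := by exact_mod_cast hB
  have hB1 : (1 : ℤ) ≤ B := by exact_mod_cast hB
  -- bound for sums of small terms
  have bound : ∀ (S : Finset (Fin d)) (e : ℕ), (∀ i ∈ S, LL B d i * B ≤ (B : ℤ) ^ e) →
      |∑ i ∈ S, a i * LL B d i| * B ≤ (d : ℤ) * A * (B : ℤ) ^ e := by
    intro S e hS
    have h1 : |∑ i ∈ S, a i * LL B d i| ≤ ∑ i ∈ S, A * LL B d i := by
      refine (Finset.abs_sum_le_sum_abs _ _).trans (Finset.sum_le_sum fun i _ => ?_)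
      rw [abs_mul, abs_of_pos (LL_pos B d hB i)]
      exact mul_le_mul_of_nonneg_right (ha i) (LL_pos B d hB i).le
    calc |∑ i ∈ S, a i * LL B d i| * B ≤ (∑ i ∈ S, A * LL B d i) * B := mul_le_mul_of_nonneg_right h1 hB0.le
      _ = ∑ i ∈ S, A * (LL B d i * B) := by
          rw [Finset.sum_mul]
          exact Finset.sum_congr rfl fun i _ => by ring
      _ ≤ ∑ i ∈ S, A * (B : ℤ) ^ e := Finset.sum_le_sum fun i hi => mul_le_mul_of_nonneg_left (hS i hi) hA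
      _ = S.card * (A * (B : ℤ) ^ e) := by rw [Finset.sum_const, nsmul_eq_mul]
      _ ≤ d * (A * (B : ℤ) ^ e) := by
          apply mul_le_mul_of_nonneg_right _ (by positivity)
          have := Finset.card_le_univ S
          rw [Fintype.card_fin] at this
          exact_mod_cast this
      _ = _ := by ring
  have hb : b = 0 := by
    by_contra hb
    have h1 : (1 : ℤ) ≤ |b| := Int.one_le_abs hb
    have h2 := bound Finset.univ (2 ^ d) (by
      intro i _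
      rw [← LL_mul B d i]
      apply mul_le_mul_of_nonneg_left _ (LL_pos B d hB i).le
      calc (B : ℤ) = (B : ℤ) ^ 1 := (pow_one _).symm
        _ ≤ (B : ℤ) ^ 2 ^ (i : ℕ) := pow_le_pow_right₀ hB1 Nat.one_le_two_pow)
    have h3 : ∑ i, a i * LL B d i = -(b * (B : ℤ) ^ 2 ^ d) := by linarith
    rw [h3, abs_neg, abs_mul, abs_of_pos (by positivity : (0:ℤ) < (B : ℤ) ^ 2 ^ d)] at h2
    have h4 : (0 : ℤ) < (B : ℤ) ^ 2 ^ d := by positivity
    have h5 : (B : ℤ) ^ 2 ^ d * B ≤ |b| * (B : ℤ) ^ 2 ^ d * B := by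
      apply mul_le_mul_of_nonneg_right _ hB0.le
      nlinarith
    nlinarith
  refine ⟨hb, ?_⟩
  rw [hb, zero_mul, zero_add] at h
  by_contra hne
  push Not at hne
  obtain ⟨i0, hi0⟩ := hne
  -- the smallest index with a nonzero coefficient
  have hS : (Finset.univ.filter (fun i : Fin d => a i ≠ 0)).Nonempty := ⟨i0, by simp [hi0]⟩
  set i := (Finset.univ.filter (fun i : Fin d => a i ≠ 0)).min' hS with hi
  have hai : a i ≠ 0 := by
    have := Finset.min'_mem _ hS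
    rw [← hi, Finset.mem_filter] at this
    exact this.2
  have hmin : ∀ j, a j ≠ 0 → i ≤ j := fun j hj => Finset.min'_le _ _ (by simp [hj])
  have h1 : (1 : ℤ) ≤ |a i| := Int.one_le_abs hai
  rw [← Finset.add_sum_erase Finset.univ (fun i => a i * LL B d i) (Finset.mem_univ i)] at h
  have h2 : ∑ j ∈ Finset.univ.erase i, a j * LL B d j =
      ∑ j ∈ (Finset.univ.filter (fun j : Fin d => i < j)), a j * LL B d j := by
    symm
    apply Finset.sum_subset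
    · intro j hj
      rw [Finset.mem_filter] at hj
      rw [Finset.mem_erase]
      exact ⟨ne_of_gt hj.2, Finset.mem_univ _⟩
    · intro j hj hj2
      rw [Finset.mem_erase] at hj
      rw [Finset.mem_filter] at hj2
      have : a j = 0 := by
        by_contra hc
        apply hj2
        exact ⟨Finset.mem_univ _, lt_of_le_of_ne (hmin j hc) (Ne.symm hj.1)⟩
      rw [this, zero_mul]
  rw [h2] at h
  have h3 := bound (Finset.univ.filter (fun j : Fin d => i < j)) (2 ^ d - 2 ^ (i : ℕ)) (by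
    intro j hj
    rw [Finset.mem_filter] at hj
    unfold LL
    rw [← pow_succ]
    apply pow_le_pow_right₀ hB1
    have h4 : 2 ^ (i : ℕ) < 2 ^ (j : ℕ) := Nat.pow_lt_pow_right (by norm_num) hj.2
    have h5 := pow_lt_d d j
    omega)
  have h4 : ∑ j ∈ (Finset.univ.filter (fun j : Fin d => i < j)), a j * LL B d j = -(a i * LL B d i) := by linarith
  rw [h4, abs_neg, abs_mul, abs_of_pos (LL_pos B d hB i)] at h3
  have h5 : LL B d i = (B : ℤ) ^ (2 ^ d - 2 ^ (i : ℕ)) := rfl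
  have h6 : 0 < LL B d i := LL_pos B d hB i
  rw [← h5] at h3
  have h7 : LL B d i * B ≤ |a i| * LL B d i * B := by
    apply mul_le_mul_of_nonneg_right _ hB0.le
    nlinarith
  nlinarith

theorem mem_Jset {J : ℕ} {j : ℤ} (h : j ∈ Jset J) : j ≠ 0 ∧ |j| ≤ J := by
  unfold Jset at h
  rw [Finset.mem_erase, Finset.mem_Icc] at h
  exact ⟨h.1, abs_le.2 h.2⟩

theorem mem_Bx {Y d : ℕ} {n : Fin d → ℤ} (h : n ∈ Bx Y d) (i : Fin d) : |n i| ≤ Y := by
  unfold Bx at h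
  rw [Fintype.mem_piFinset] at h
  exact abs_le.2 (Finset.mem_Icc.1 (h i))

theorem lfr_inj (B d Y J : ℕ) (hB : 1 ≤ B) (hBY : d * (2 * Y) < B) :
    ∀ j ∈ Jset J, ∀ j' ∈ Jset J, ∀ n ∈ Bx Y d, ∀ n' ∈ Bx Y d,
      lfr ((B : ℤ) ^ 2 ^ d) (LL B d) j n = lfr ((B : ℤ) ^ 2 ^ d) (LL B d) j' n' → j = j' ∧ n = n' := by
  intro j hj j' hj' n hn n' hn' h
  unfold lfr at h
  have h1 : (j - j') * (B : ℤ) ^ 2 ^ d + ∑ i, (n i - n' i) * LL B d i = 0 := by
    have : ∑ i, (n i - n' i) * LL B d i = ∑ i, n i * LL B d i - ∑ i, n' i * LL B d i := by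
      rw [← Finset.sum_sub_distrib]
      exact Finset.sum_congr rfl fun i _ => by ring
    rw [this]
    linarith
  obtain ⟨h2, h3⟩ := lac_uniq B d (2 * Y) (by positivity) hB (by exact_mod_cast hBY) (j - j') (fun i => n i - n' i)
    (fun i => by
      have h4 := mem_Bx hn i
      have h5 := mem_Bx hn' i
      calc |n i - n' i| ≤ |n i| + |n' i| := abs_sub _ _
        _ ≤ 2 * Y := by linarith) h1
  exact ⟨by linarith, funext fun i => by have := h3 i; linarith⟩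

theorem lfr_ne (B d Y J : ℕ) (hB : 1 ≤ B) (hBY : d * (2 * Y) < B) :
    ∀ j ∈ Jset J, ∀ n ∈ Bx Y d, lfr ((B : ℤ) ^ 2 ^ d) (LL B d) j n ≠ 0 := by
  intro j hj n hn h
  obtain ⟨h2, h3⟩ := lac_uniq B d (2 * Y) (by positivity) hB (by exact_mod_cast hBY) j n
    (fun i => by
      have h4 := mem_Bx hn i
      have h5 : (0 : ℤ) ≤ Y := by positivity
      linarith) h
  exact (mem_Jset hj).1 h2

/-- the modulation -/
noncomputable def GG (B d : ℕ) (g : ℝ → ℝ) (x : ℝ) : ℝ := ∑ i : Fin d, g (x / (B : ℝ) ^ 2 ^ (i : ℕ))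

theorem GG_lip (B d : ℕ) (g : ℝ → ℝ) (Λ : ℝ) (hB : 1 ≤ B) (hΛ : 0 ≤ Λ) (hg : ∀ x y, |g x - g y| ≤ Λ * |x - y|)
    (x y : ℝ) : |GG B d g x - GG B d g y| ≤ (d * Λ / B) * |x - y| := by
  have hB1 : (1 : ℝ) ≤ B := by exact_mod_cast hB
  have hB0 : (0 : ℝ) < B := by linarith
  unfold GG
  rw [← Finset.sum_sub_distrib]
  calc |∑ i : Fin d, (g (x / (B : ℝ) ^ 2 ^ (i : ℕ)) - g (y / (B : ℝ) ^ 2 ^ (i : ℕ)))| ≤
        ∑ i : Fin d, |g (x / (B : ℝ) ^ 2 ^ (i : ℕ)) - g (y / (B : ℝ) ^ 2 ^ (i : ℕ))| := Finset.abs_sum_le_sum_abs _ _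
    _ ≤ ∑ i : Fin d, (Λ / B) * |x - y| := by
        apply Finset.sum_le_sum
        intro i _
        refine (hg _ _).trans ?_
        rw [← sub_div, abs_div, abs_of_pos (by positivity : (0 : ℝ) < (B : ℝ) ^ 2 ^ (i : ℕ))]
        rw [div_mul_eq_mul_div, mul_div_assoc']
        apply div_le_div_of_nonneg_left (by positivity) hB0
        calc (B : ℝ) = (B : ℝ) ^ 1 := (pow_one _).symm
          _ ≤ (B : ℝ) ^ 2 ^ (i : ℕ) := pow_le_pow_right₀ hB1 Nat.one_le_two_pow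
    _ = _ := by
        rw [Finset.sum_const, Finset.card_univ, Fintype.card_fin, nsmul_eq_mul]
        ring

theorem per_nat (g : ℝ → ℝ) (hg : ∀ x, g (x + 1) = g x) (n : ℕ) (x : ℝ) : g (x + n) = g x := by
  induction n with
  | zero => simp
  | succ n ih =>
    rw [← ih, ← hg (x + n)]
    congr 1
    push_cast
    ring

theorem GG_per (B d : ℕ) (g : ℝ → ℝ) (hB : 1 ≤ B) (hg : ∀ x, g (x + 1) = g x) (x : ℝ) :
    GG B d g (x + ((B ^ 2 ^ d : ℕ) : ℝ)) = GG B d g x := by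
  have hB0 : (B : ℝ) ≠ 0 := by
    have : B ≠ 0 := by omega
    exact_mod_cast this
  unfold GG
  apply Finset.sum_congr rfl
  intro i _
  rw [← per_nat g hg (B ^ (2 ^ d - 2 ^ (i : ℕ))) (x / _)]
  congr 1
  have h1 : ((B ^ 2 ^ d : ℕ) : ℝ) = (B : ℝ) ^ (2 ^ d - 2 ^ (i : ℕ)) * (B : ℝ) ^ 2 ^ (i : ℕ) := by
    rw [← pow_add]
    push_cast
    congr 1
    have := pow_lt_d d i
    omega
  rw [h1]
  push_cast
  field_simp

end Pool.Agent.W744.SF
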