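import Mathlib
import Pool.Agent.W744.SF.Arith

set_option autoImplicit false
set_option linter.unusedSectionVars false
set_option linter.unusedVariables false

/-!
Approximation of the characters of the old rotation by the modulated characters; trigonometric approximation.
-/

namespace Pool.Agent.W744.SF

open MeasureTheory Set Filter Topology
open scoped ENNReal symmDiff
open Pool.H359R3 Pool.H359R3.WH Pool.H359R3.IX

attribute [local instance] us

theorem ee_sum {ι : Type*} (S : Finset ι) (f : ι → ℝ) : ee (∑ i ∈ S, f i) = ∏ i ∈ S, ee (f i) := by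
  classical
  induction S using Finset.induction_on with
  | empty => simp [ee]
  | insert a S ha ih => rw [Finset.sum_insert ha, Finset.prod_insert ha, ee_add, ih]

theorem norm_le_ae (f : Lp ℂ 2 lam) (C : ℝ) (hC : 0 ≤ C) (h : ∀ᵐ x ∂lam, ‖(f : ℝ → ℂ) x‖ ≤ C) : ‖f‖ ≤ C := by
  have := Lp.norm_le_of_ae_bound (p := 2) (f := f) hC h
  simpa [measureUnivNNReal] using this

/-- the modulated characters are uniformly close to the characters -/
theorem Fj_close (B d Y J : ℕ) (hB : 1 ≤ B) (g : ℝ → ℝ) (c : ℤ → ℤ → ℂ) (ε2 κ : ℝ) (hε2 : 0 ≤ ε2) (hκ : 0 ≤ κ)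
    (h1 : ∀ j ∈ Jset J, ∀ v : Fin d → ℝ,
      ‖Complex.exp (2 * Real.pi * Complex.I * j * ∑ i, (g (v i) : ℂ)) -
        ∑ n ∈ Fintype.piFinset (fun _ : Fin d => Finset.Icc (-(Y : ℤ)) Y),
          (∏ i, c j (n i)) * Complex.exp (2 * Real.pi * Complex.I * ∑ i, (n i : ℂ) * v i)‖ ≤ ε2)
    (P0 P : Aut) (hmod : Mod P0 P (B ^ 2 ^ d) (GG B d g) κ) (j : ℤ) (hj : j ∈ Jset J) :
    ‖chi P0 j - Fj P ((B : ℤ) ^ 2 ^ d) (LL B d) Y c j‖ ≤ 2 * Real.pi * (J * κ) + ε2 := by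
  have hB0 : (B : ℝ) ≠ 0 := by
    have : B ≠ 0 := by omega
    exact_mod_cast this
  apply norm_le_ae _ _ (by positivity)
  have a1 := Lp.coeFn_sub (chi P0 j) (Fj P ((B : ℤ) ^ 2 ^ d) (LL B d) Y c j)
  have a2 := chi_ae P0 j
  have a3 : (Fj P ((B : ℤ) ^ 2 ^ d) (LL B d) Y c j : ℝ → ℂ) =ᵐ[lam] fun x =>
      ∑ n ∈ Bx Y d, (∏ i, c j (n i)) * ee (lfr ((B : ℤ) ^ 2 ^ d) (LL B d) j n * P.1 x) := by
    unfold Fj
    have h2 : ∀ (S : Finset (Fin d → ℤ)), ((∑ n ∈ S, (∏ i, c j (n i)) • chi P (lfr ((B : ℤ) ^ 2 ^ d) (LL B d) j n) :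
        Lp ℂ 2 lam) : ℝ → ℂ) =ᵐ[lam] fun x =>
        ∑ n ∈ S, (∏ i, c j (n i)) * ee (lfr ((B : ℤ) ^ 2 ^ d) (LL B d) j n * P.1 x) := by
      intro S
      classical
      induction S using Finset.induction_on with
      | empty =>
        rw [Finset.sum_empty]
        filter_upwards [Lp.coeFn_zero ℂ 2 lam] with x hx
        simpa using hx
      | insert a S ha ih =>
        rw [Finset.sum_insert ha]
        filter_upwards [Lp.coeFn_add ((∏ i, c j (a i)) • chi P (lfr ((B : ℤ) ^ 2 ^ d) (LL B d) j a))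
          (∑ n ∈ S, (∏ i, c j (n i)) • chi P (lfr ((B : ℤ) ^ 2 ^ d) (LL B d) j n)), ih,
          Lp.coeFn_smul (∏ i, c j (a i)) (chi P (lfr ((B : ℤ) ^ 2 ^ d) (LL B d) j a)),
          chi_ae P (lfr ((B : ℤ) ^ 2 ^ d) (LL B d) j a)] with x h1 h2 h3 h4
        rw [h1, Pi.add_apply, h2, h3, Pi.smul_apply, h4, smul_eq_mul, Finset.sum_insert ha]
    exact h2 _
  filter_upwards [a1, a2, a3, aut_Ico P0] with x b1 b2 b3 b4
  rw [b1, Pi.sub_apply, b2, b3]
  have h2 := hmod.cl x b4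
  set w := P.1 x with hw
  have h3 := ee_cc j h2
  set Mr : ℝ := ((B ^ 2 ^ d : ℕ) : ℝ) with hMr
  have hMr' : Mr = (B : ℝ) ^ 2 ^ d := by rw [hMr]; push_cast; rfl
  have h4 : ‖ee (j * (Mr * w + GG B d g (Mr * w))) -
      ∑ n ∈ Bx Y d, (∏ i, c j (n i)) * ee (lfr ((B : ℤ) ^ 2 ^ d) (LL B d) j n * w)‖ ≤ ε2 := by
    have h5 := h1 j hj (fun i => Mr * w / (B : ℝ) ^ 2 ^ (i : ℕ))
    have e1 : ee (j * (Mr * w + GG B d g (Mr * w))) = ee (j * (Mr * w)) *
        Complex.exp (2 * Real.pi * Complex.I * j * ∑ i : Fin d, (g (Mr * w / (B : ℝ) ^ 2 ^ (i : ℕ)) : ℂ)) := by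
      rw [mul_add, ee_add]
      congr 1
      unfold ee GG
      congr 1
      push_cast
      ring
    have e2 : ∑ n ∈ Bx Y d, (∏ i, c j (n i)) * ee (lfr ((B : ℤ) ^ 2 ^ d) (LL B d) j n * w) = ee (j * (Mr * w)) *
        ∑ n ∈ Fintype.piFinset (fun _ : Fin d => Finset.Icc (-(Y : ℤ)) Y),
          (∏ i, c j (n i)) * Complex.exp (2 * Real.pi * Complex.I *
            ∑ i, (n i : ℂ) * ((Mr * w / (B : ℝ) ^ 2 ^ (i : ℕ) : ℝ) : ℂ)) := by
      rw [Finset.mul_sum]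
      apply Finset.sum_congr rfl
      intro n _
      have e3 : ee (lfr ((B : ℤ) ^ 2 ^ d) (LL B d) j n * w) = ee (j * (Mr * w)) *
          ee (∑ i, (n i : ℝ) * (Mr * w / (B : ℝ) ^ 2 ^ (i : ℕ))) := by
        rw [← ee_add]
        congr 1
        unfold lfr
        push_cast
        rw [add_mul, hMr', mul_assoc, Finset.sum_mul]
        congr 1
        apply Finset.sum_congr rfl
        intro i _
        have h6 : ((LL B d i : ℤ) : ℝ) * (B : ℝ) ^ 2 ^ (i : ℕ) = (B : ℝ) ^ 2 ^ d := by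
          have := congrArg (fun z : ℤ => (z : ℝ)) (LL_mul B d i)
          push_cast at this
          exact this
        rw [← h6]
        field_simp
      have e4 : ee (∑ i, (n i : ℝ) * (Mr * w / (B : ℝ) ^ 2 ^ (i : ℕ))) = Complex.exp (2 * Real.pi * Complex.I *
            ∑ i, (n i : ℂ) * ((Mr * w / (B : ℝ) ^ 2 ^ (i : ℕ) : ℝ) : ℂ)) := by
        unfold ee
        congr 2
        push_cast
        rfl
      rw [e3, e4]
      ring
    rw [e1, e2, ← mul_sub, norm_mul, ee_norm, one_mul]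
    exact h5
  have h6 : |(j : ℝ)| ≤ J := by exact_mod_cast (mem_Jset hj).2
  calc _ = ‖(ee (j * P0.1 x) - ee (j * (Mr * w + GG B d g (Mr * w)))) +
        (ee (j * (Mr * w + GG B d g (Mr * w))) -
        ∑ n ∈ Bx Y d, (∏ i, c j (n i)) * ee (lfr ((B : ℤ) ^ 2 ^ d) (LL B d) j n * w))‖ := by congr 1; ring
    _ ≤ _ + _ := norm_add_le _ _
    _ ≤ 2 * Real.pi * (|(j : ℝ)| * κ) + ε2 := add_le_add h3 h4
    _ ≤ 2 * Real.pi * (J * κ) + ε2 := by gcongr

/-- partial sums in the characters -/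
noncomputable def trs (P0 : Aut) (J : ℕ) (g : ℤ → ℂ) : HH := ∑ j ∈ Finset.Icc (-(J : ℤ)) J, g j • chi P0 j

theorem trs_ae (P0 : Aut) (J : ℕ) (g : ℤ → ℂ) : (trs P0 J g : ℝ → ℂ) =ᵐ[lam] fun x =>
    ∑ j ∈ Finset.Icc (-(J : ℤ)) J, g j * ee (j * P0.1 x) := by
  unfold trs
  have h2 : ∀ (S : Finset ℤ), ((∑ j ∈ S, g j • chi P0 j : Lp ℂ 2 lam) : ℝ → ℂ) =ᵐ[lam] fun x =>
      ∑ j ∈ S, g j * ee (j * P0.1 x) := by
    intro S
    classical
    induction S using Finset.induction_on with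
    | empty =>
      rw [Finset.sum_empty]
      filter_upwards [Lp.coeFn_zero ℂ 2 lam] with x hx
      simpa using hx
    | insert a S ha ih =>
      rw [Finset.sum_insert ha]
      filter_upwards [Lp.coeFn_add (g a • chi P0 a) (∑ j ∈ S, g j • chi P0 j), ih,
        Lp.coeFn_smul (g a) (chi P0 a), chi_ae P0 a] with x h1 h2 h3 h4
      rw [h1, Pi.add_apply, h2, h3, Pi.smul_apply, h4, smul_eq_mul, Finset.sum_insert ha]
  exact h2 _

theorem trig_approx (hT : S_Trig) (P0 : Aut) (f : HH) (ε : ℝ) (hε : 0 < ε) :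
    ∃ (J : ℕ) (g : ℤ → ℂ), ‖f - trs P0 J g‖ ≤ ε := by
  set f' : HH := koop (invA P0) f with hf'
  obtain ⟨J, g, hg⟩ := hT (f' : ℝ → ℂ) ε (Lp.memLp f') hε
  refine ⟨J, g, ?_⟩
  have h1 : f - trs P0 J g = koop P0 (f' - trs oneA J g) := by
    apply Lp.ext
    have b1 := P0.2.quasiMeasurePreserving.ae (koop_ae (invA P0) f)
    have b2 := P0.2.quasiMeasurePreserving.ae (trs_ae oneA J g)
    have b3 := P0.2.quasiMeasurePreserving.ae (Lp.coeFn_sub f' (trs oneA J g))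
    filter_upwards [Lp.coeFn_sub f (trs P0 J g), koop_ae P0 (f' - trs oneA J g), b1, b2, b3, trs_ae P0 J g]
      with x c1 c2 c3 c4 c5 c6
    rw [c1, c2, c5, Pi.sub_apply, Pi.sub_apply, c6, c4]
    have c3' : (f' : ℝ → ℂ) (P0.1 x) = (f : ℝ → ℂ) x := by
      rw [c3]
      congr 1
      exact P0.1.symm_apply_apply x
    rw [c3']
    rfl
  rw [h1, koop_norm, Lp.norm_def]
  have h2 : eLpNorm ((f' - trs oneA J g : HH) : ℝ → ℂ) 2 lam =
      eLpNorm (fun x => (f' : ℝ → ℂ) x - ∑ j ∈ Finset.Icc (-(J : ℤ)) J,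
        g j * Complex.exp (2 * Real.pi * Complex.I * j * x)) 2 lam := by
    apply eLpNorm_congr_ae
    filter_upwards [Lp.coeFn_sub f' (trs oneA J g), trs_ae oneA J g] with x c1 c2
    rw [c1, Pi.sub_apply, c2]
    congr 1
    apply Finset.sum_congr rfl
    intro j _
    congr 1
    unfold ee
    congr 1
    have : (oneA : Aut).1 x = x := rfl
    rw [this]
    push_cast
    ring
  rw [h2]
  have h3 := ENNReal.toReal_mono ENNReal.ofReal_ne_top hg
  rwa [ENNReal.toReal_ofReal hε.le] at h3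

theorem trs_extend (P0 : Aut) (J J' : ℕ) (hJ : J ≤ J') (g : ℤ → ℂ) :
    trs P0 J' (fun j => if |j| ≤ J then g j else 0) = trs P0 J g := by
  unfold trs
  have h1 : ∑ j ∈ Finset.Icc (-(J : ℤ)) J, g j • chi P0 j =
      ∑ j ∈ Finset.Icc (-(J : ℤ)) J, (if |j| ≤ J then g j else 0) • chi P0 j := by
    apply Finset.sum_congr rfl
    intro j hj
    rw [if_pos (abs_le.2 (Finset.mem_Icc.1 hj))]
  rw [h1]
  symm
  apply Finset.sum_subset
  · apply Finset.Icc_subset_Icc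
    · have : (J : ℤ) ≤ J' := by exact_mod_cast hJ
      linarith
    · exact_mod_cast hJ
  · intro j _ hj
    rw [if_neg, zero_smul]
    intro h
    exact hj (Finset.mem_Icc.2 (abs_le.1 h))

/-- common frequency bound for finitely many functions -/
theorem trig_multi (hT : S_Trig) (P0 : Aut) (m : ℕ) (f : Fin m → HH) (ε : ℝ) (hε : 0 < ε) :
    ∃ (J : ℕ) (g : Fin m → ℤ → ℂ), ∀ i, ‖f i - trs P0 J (g i)‖ ≤ ε := by
  choose J g hg using fun i => trig_approx hT P0 (f i) ε hε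
  refine ⟨Finset.univ.sup J, fun i j => if |j| ≤ J i then g i j else 0, fun i => ?_⟩
  rw [trs_extend P0 (J i) (Finset.univ.sup J) (Finset.le_sup (Finset.mem_univ i)) (g i)]
  exact hg i

theorem trs_split (P0 : Aut) (J : ℕ) (g : ℤ → ℂ) :
    trs P0 J g = g 0 • one + ∑ j ∈ Jset J, g j • chi P0 j := by
  unfold trs Jset
  rw [← Finset.add_sum_erase _ _ (show (0 : ℤ) ∈ Finset.Icc (-(J : ℤ)) J by simp), chi_zero]

theorem pr_trs (P0 : Aut) (J : ℕ) (g : ℤ → ℂ) : pr (trs P0 J g) = ∑ j ∈ Jset J, g j • chi P0 j := by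
  rw [trs_split, pr_add, pr_smul, pr_one, smul_zero, zero_add, pr_sum]
  apply Finset.sum_congr rfl
  intro j hj
  rw [pr_smul, pr_chi P0 j (mem_Jset hj).1]

theorem pr_Fv {d : ℕ} (P : Aut) (M : ℤ) (L : Fin d → ℤ) (Y : ℕ) (c : ℤ → ℤ → ℂ) (φ : ℤ → ℂ) (J : ℕ)
    (hne : ∀ j ∈ Jset J, ∀ n ∈ Bx Y d, lfr M L j n ≠ 0) : pr (Fv P M L Y c φ J) = Fv P M L Y c φ J := by
  rw [Fv_eq, pr_sum]
  apply Finset.sum_congr rfl
  rintro ⟨j, n⟩ hx
  rw [Finset.mem_product] at hx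
  rw [pr_smul, pr_chi P _ (hne j hx.1 n hx.2)]

end Pool.Agent.W744.SF
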