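import Mathlib
import Pool.Agent.W744.SF.Step1

set_option autoImplicit false
set_option linter.unusedSectionVars false
set_option linter.unusedVariables false

/-!
The dense step.
-/

namespace Pool.Agent.W744.SF

open MeasureTheory Set Filter Topology
open scoped ENNReal symmDiff
open Pool.H359R3 Pool.H359R3.WH Pool.H359R3.IX

attribute [local instance] us

theorem chi_norm (P : Aut) (l : ℤ) : ‖chi P l‖ = 1 := by
  have h1 : ‖chi P l‖ ^ 2 = (inner ℂ (chi P l) (chi P l) : ℂ).re := norm_sq_eq_re_inner (𝕜 := ℂ) _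
  rw [chi_inner, if_pos rfl, Complex.one_re] at h1
  have h2 := norm_nonneg (chi P l)
  nlinarith

/-- choice of the parameters -/
theorem params (K0 p0 d Y J : ℕ) (hK0 : 0 < K0) (Λ T R κs κc : ℝ) (k : ℕ) (hΛ : 0 ≤ Λ) (hT : 0 ≤ T) (hR : 0 ≤ R)
    (hκs : 0 < κs) (hκc : 0 < κc) :
    ∃ c0 B : ℕ, 0 < c0 ∧ 1 ≤ B ∧ (2 * (d : ℝ)) ^ 2 < B ∧ d * (2 * Y) < B ∧
      2 / ((K0 * c0 : ℕ) : ℝ) + d * Λ / B ≤ κs ∧
      (d * Λ / B) * (((p0 * c0 + 1 : ℕ) : ℝ) / ((K0 * c0 : ℕ) : ℝ) * R) ≤ κc / 4 ∧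
      1 / ((K0 * c0 : ℕ) : ℝ) * R ≤ κc / 4 ∧
      4 * ((k * T) * Y) * (d * ((((p0 * c0 + 1 : ℕ) : ℝ) / ((K0 * c0 : ℕ) : ℝ)) / B)) < 1 := by
  obtain ⟨c0, hc0⟩ := exists_nat_gt (4 / κs + 4 * R / κc + 1)
  have hc0r : (1 : ℝ) < c0 := by
    have : 0 ≤ 4 / κs + 4 * R / κc := by positivity
    linarith
  have hc0p : 0 < c0 := by
    have : (0 : ℝ) < c0 := by linarith
    exact_mod_cast this
  have hK0r : (1 : ℝ) ≤ K0 := by exact_mod_cast hK0
  have hKc : (c0 : ℝ) ≤ ((K0 * c0 : ℕ) : ℝ) := by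
    push_cast
    nlinarith
  set v0 : ℝ := (p0 : ℝ) + 1 with hv0
  have hv1 : ((p0 * c0 + 1 : ℕ) : ℝ) / ((K0 * c0 : ℕ) : ℝ) ≤ v0 := by
    rw [div_le_iff₀ (by linarith)]
    push_cast
    push_cast at hKc
    have : (0 : ℝ) ≤ p0 := by positivity
    nlinarith
  have hv1' : 0 ≤ ((p0 * c0 + 1 : ℕ) : ℝ) / ((K0 * c0 : ℕ) : ℝ) := by positivity
  have hv0' : 0 ≤ v0 := by positivity
  obtain ⟨B, hB⟩ := exists_nat_gt (2 * (d * Λ) / κs + 4 * (d * Λ) * (v0 * R) / κc + (2 * (d : ℝ)) ^ 2 + d * (2 * Y) +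
    4 * ((k * T) * Y) * (d * v0) + 1)
  have t1 : 0 ≤ 2 * (d * Λ) / κs := by positivity
  have t2 : 0 ≤ 4 * (d * Λ) * (v0 * R) / κc := by positivity
  have t3 : 0 ≤ (2 * (d : ℝ)) ^ 2 := by positivity
  have t4 : (0 : ℝ) ≤ d * (2 * Y) := by positivity
  have t5 : (0 : ℝ) ≤ 4 * ((k * T) * Y) * (d * v0) := by positivity
  have hBr : (1 : ℝ) < B := by linarith
  have hB0 : (0 : ℝ) < B := by linarith
  refine ⟨c0, B, hc0p, by exact_mod_cast hBr.le, by linarith, ?_, ?_, ?_, ?_, ?_⟩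
  · have : ((d * (2 * Y) : ℕ) : ℝ) < B := by
      push_cast
      linarith
    exact_mod_cast this
  · have a1 : 2 / ((K0 * c0 : ℕ) : ℝ) ≤ κs / 2 := by
      rw [div_le_iff₀ (by linarith)]
      have h1 : 4 / κs < c0 := by
        have : 0 ≤ 4 * R / κc := by positivity
        linarith
      rw [div_lt_iff₀ hκs] at h1
      nlinarith
    have a2 : d * Λ / B ≤ κs / 2 := by
      rw [div_le_iff₀ hB0]
      have h1 : 2 * (d * Λ) / κs < B := by linarith
      rw [div_lt_iff₀ hκs] at h1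
      nlinarith
    linarith
  · have a1 : (d * Λ / B) * (((p0 * c0 + 1 : ℕ) : ℝ) / ((K0 * c0 : ℕ) : ℝ) * R) ≤ (d * Λ / B) * (v0 * R) := by
      apply mul_le_mul_of_nonneg_left _ (by positivity)
      exact mul_le_mul_of_nonneg_right hv1 hR
    refine a1.trans ?_
    rw [div_mul_eq_mul_div, div_le_iff₀ hB0]
    have h1 : 4 * (d * Λ) * (v0 * R) / κc < B := by linarith
    rw [div_lt_iff₀ hκc] at h1
    nlinarith
  · rw [div_mul_eq_mul_div, one_mul, div_le_iff₀ (by linarith)]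
    have h1 : 4 * R / κc < c0 := by
      have : 0 ≤ 4 / κs := by positivity
      linarith
    rw [div_lt_iff₀ hκc] at h1
    nlinarith
  · have a1 : 4 * ((k * T) * Y) * (d * ((((p0 * c0 + 1 : ℕ) : ℝ) / ((K0 * c0 : ℕ) : ℝ)) / B)) ≤
        4 * ((k * T) * Y) * (d * (v0 / B)) := by
      apply mul_le_mul_of_nonneg_left _ (by positivity)
      apply mul_le_mul_of_nonneg_left _ (by positivity)
      exact div_le_div_of_nonneg_right hv1 hB0.le
    refine lt_of_le_of_lt a1 ?_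
    rw [mul_div_assoc', mul_div_assoc', div_lt_one hB0]
    linarith

theorem dense_step (hMain : S_Main) (hI : S_Interp) (hTrig : S_Trig) (k : ℕ) (hk : 1 ≤ k)
    (τ : ContinuousMultilinearMap ℂ (fun _ : Fin k => HH) (VV k))
    (hτ : ∀ f g, inner ℂ (τ f) (τ g) = ∏ i, inner ℂ (f i) (g i)) (T : ℝ) (hT : 0 ≤ T) (h : Fin k → HH)
    (ε : ℝ) (hε : 0 < ε) (U : Set C(ℝ, Aut)) (W : Set HH) (hU : IsOpen U) (hW : IsOpen W)
    (hUne : (U ∩ DD0).Nonempty) (hWne : W.Nonempty) :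
    ∃ φ ∈ U ∩ DD0, ∃ f ∈ W, ∀ t : Fin k → ℝ, StrictMono t → (∀ i, 0 < t i) → (∀ i, t i ≤ T) →
      ∃ (N : Finset ℤ) (a : ℤ → ℂ),
        ‖∑ m ∈ N, a m • τ (fun i => koop (φ (m * t i)) (pr f)) - τ (fun i => pr (h i))‖ < ε := by
  classical
  obtain ⟨_, hφU, K0, _, ι0, p0, rfl⟩ := hUne
  obtain ⟨f0, hf0⟩ := hWne
  obtain ⟨η, hη, hηW⟩ := Metric.isOpen_iff.1 hW f0 hf0
  set P0 : Aut := rz K0 ι0 with hP0
  have hK0 : 0 < K0 := NeZero.pos K0
  have hK0r : (0 : ℝ) < K0 := by exact_mod_cast hK0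
  -- continuity of the tensor map
  obtain ⟨δ', hδ', hcont⟩ : ∃ δ' > 0, ∀ a : Fin k → HH, (∀ i, ‖a i - pr (h i)‖ < δ') →
      ‖τ a - τ (fun i => pr (h i))‖ < ε / 2 := by
    have h1 := Metric.continuousAt_iff.1 (τ.cont.continuousAt (x := fun i => pr (h i))) (ε / 2) (by positivity)
    obtain ⟨δ', hδ', h2⟩ := h1
    refine ⟨δ', hδ', fun a ha => ?_⟩
    rw [← dist_eq_norm]
    apply h2
    rw [dist_pi_lt_iff hδ']
    intro i
    rw [dist_eq_norm]
    exact ha i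
  -- trigonometric approximation
  obtain ⟨J, gg, hgg⟩ := trig_multi hTrig P0 (k + 1) (Fin.cons f0 h) (min (η / 4) (δ' / 4))
    (lt_min (by positivity) (by positivity))
  set gf : ℤ → ℂ := gg 0 with hgf
  have hgf1 : ‖f0 - trs P0 J gf‖ ≤ η / 4 := by
    have := hgg 0
    rw [Fin.cons_zero] at this
    exact this.trans (min_le_left _ _)
  have hgh1 : ∀ i : Fin k, ‖h i - trs P0 J (gg i.succ)‖ ≤ δ' / 4 := by
    intro i
    have := hgg i.succ
    rw [Fin.cons_succ] at this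
    exact this.trans (min_le_right _ _)
  -- amplitudes
  set η' : ℝ := η / (8 * (2 * J + 1)) with hη'
  have hη'0 : 0 < η' := by positivity
  set φc : ℤ → ℂ := fun j => if gf j = 0 then (η' : ℂ) else gf j with hφc
  have hφne : ∀ j ∈ Jset J, φc j ≠ 0 := by
    intro j _
    simp only [hφc]
    split_ifs with h0
    · exact_mod_cast hη'0.ne'
    · exact h0
  have hφd : ∀ j, ‖φc j - gf j‖ ≤ η' := by
    intro j
    simp only [hφc]
    split_ifs with h0
    · rw [h0, sub_zero, Complex.norm_real, Real.norm_eq_abs, abs_of_pos hη'0]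
    · rw [sub_self, norm_zero]
      exact hη'0.le
  set C1 : ℝ := ∑ j ∈ Jset J, ‖φc j‖ + ∑ i : Fin k, ∑ j ∈ Jset J, ‖gg i.succ j‖ + 1 with hC1
  have hs1 : 0 ≤ ∑ j ∈ Jset J, ‖φc j‖ := Finset.sum_nonneg fun _ _ => norm_nonneg _
  have hs2 : 0 ≤ ∑ i : Fin k, ∑ j ∈ Jset J, ‖gg i.succ j‖ :=
    Finset.sum_nonneg fun _ _ => Finset.sum_nonneg fun _ _ => norm_nonneg _
  have hC1p : 1 ≤ C1 := by rw [hC1]; linarith
  set ε3 : ℝ := min η δ' / (4 * C1) with hε3
  have hmin : 0 < min η δ' := lt_min hη hδ'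
  have hε3p : 0 < ε3 := by positivity
  have hε3a : ε3 * C1 ≤ η / 4 := by
    have : ε3 * C1 = min η δ' / 4 := by rw [hε3]; field_simp
    rw [this]
    linarith [min_le_left η δ']
  have hε3b : ε3 * C1 ≤ δ' / 4 := by
    have : ε3 * C1 = min η δ' / 4 := by rw [hε3]; field_simp
    rw [this]
    linarith [min_le_right η δ']
  set C2 : ℝ := ∑ j ∈ JK k J, ‖∏ i, gg i.succ (j i)‖ + 1 with hC2
  have hs3 : 0 ≤ ∑ j ∈ JK k J, ‖∏ i, gg i.succ (j i)‖ := Finset.sum_nonneg fun _ _ => norm_nonneg _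
  have hC2p : 1 ≤ C2 := by rw [hC2]; linarith
  set ε2 : ℝ := min (ε3 / 2) (ε / (4 * C2)) with hε2
  have hε2p : 0 < ε2 := lt_min (by positivity) (by positivity)
  have hε2a : ε2 ≤ ε3 / 2 := min_le_left _ _
  have hε2b : ε2 * C2 ≤ ε / 4 := by
    calc ε2 * C2 ≤ ε / (4 * C2) * C2 := mul_le_mul_of_nonneg_right (min_le_right _ _) (by linarith)
      _ = ε / 4 := by field_simp
  obtain ⟨g, Λ, c, Y, d, hgper, hΛ, hglip, hd, hY, hm1, hm2⟩ := hMain k J φc ε2 hk hφne hε2p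
  -- closeness of flows
  obtain ⟨R, n, δ, hδ, red⟩ := path_red U hU P0 ((p0 : ℝ) / K0) hφU
  obtain ⟨κc, hκc, hclose⟩ := close_crit P0 F0.C F0.meas n δ hδ
  set κs : ℝ := min (ε3 / (4 * Real.pi * (J + 1))) (κc / 8) with hκs
  have hκsp : 0 < κs := lt_min (by positivity) (by positivity)
  obtain ⟨c0, B, hc0, hB1, hB2, hB3, hp1, hp2, hp3, hp4⟩ := params K0 p0 d Y J hK0 Λ T R κs κc k hΛ hT
    (by positivity) hκsp hκc
  have hBr : (1 : ℝ) ≤ B := by exact_mod_cast hB1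
  have hB0 : (0 : ℝ) < B := by linarith
  set M : ℕ := B ^ 2 ^ d with hM
  have hMp : 0 < M := by rw [hM]; positivity
  have hMr : (0 : ℝ) < M := by exact_mod_cast hMp
  have : NeZero c0 := ⟨hc0.ne'⟩
  have : NeZero M := ⟨hMp.ne'⟩
  have hKc : 0 < K0 * c0 := by positivity
  have : NeZero (K0 * c0) := ⟨hKc.ne'⟩
  have : NeZero (K0 * c0 * M) := ⟨by positivity⟩
  have hKcr : (0 : ℝ) < ((K0 * c0 : ℕ) : ℝ) := by exact_mod_cast hKc
  set Λ' : ℝ := d * Λ / B with hΛ'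
  have hΛ'0 : 0 ≤ Λ' := by positivity
  obtain ⟨ι, hmod⟩ := exists_mod K0 c0 M ι0 (GG B d g) Λ' (GG_lip B d g Λ hB1 hΛ hglip) hΛ'0
  set P : Aut := rz (K0 * c0 * M) ι with hP
  set v1 : ℝ := ((p0 * c0 + 1 : ℕ) : ℝ) / ((K0 * c0 : ℕ) : ℝ) with hv1
  have hv1p : 0 < v1 := by positivity
  set v : ℝ := ((p0 * c0 + 1 : ℕ) : ℝ) / ((K0 * c0 * M : ℕ) : ℝ) with hv
  have hMv : M * v = v1 := by
    rw [hv, hv1]
    push_cast
    push_cast at hKcr
    field_simp
  have hv10 : v1 - (p0 : ℝ) / K0 = 1 / ((K0 * c0 : ℕ) : ℝ) := by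
    rw [hv1]
    push_cast
    have : (c0 : ℝ) ≠ 0 := by exact_mod_cast hc0.ne'
    field_simp
    ring
  set κ : ℝ := 2 / ((K0 * c0 : ℕ) : ℝ) + Λ' with hκ
  have hκ0 : 0 ≤ κ := by positivity
  have hφin : path P v ∈ U := by
    apply red
    intro t ht
    apply hclose
    filter_upwards [aut_Ico P0] with x hx
    refine cc_symm (cc_mono (mod_close P0 P M (GG B d g) κ Λ' hmod (GG_lip B d g Λ hB1 hΛ hglip)
      (GG_per B d g hB1 hgper) v v1 ((p0 : ℝ) / K0) hMv x t hx) ?_)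
    rw [abs_mul, abs_mul, hv10, abs_of_pos hv1p, abs_of_pos (by positivity : (0 : ℝ) < 1 / ((K0 * c0 : ℕ) : ℝ))]
    have a1 : Λ' * (v1 * |t|) ≤ κc / 4 := by
      refine le_trans ?_ hp2
      gcongr
    have a2 : 1 / ((K0 * c0 : ℕ) : ℝ) * |t| ≤ κc / 4 := by
      refine le_trans ?_ hp3
      gcongr
    have a3 : κ ≤ κc / 8 := hp1.trans (min_le_right _ _)
    linarith
  -- modulated characters are close to the characters
  have hFclose : ∀ j ∈ Jset J, ‖chi P0 j - Fj P ((B : ℤ) ^ 2 ^ d) (LL B d) Y c j‖ ≤ ε3 := by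
    intro j hj
    refine (Fj_close B d Y J hB1 g c ε2 κ hε2p.le hκ0 hm1 P0 P hmod j hj).trans ?_
    have a1 : κ ≤ ε3 / (4 * Real.pi * (J + 1)) := hp1.trans (min_le_left _ _)
    have a2 : 2 * Real.pi * (J * κ) ≤ ε3 / 2 := by
      rw [le_div_iff₀ (by positivity)] at a1
      have : 0 < Real.pi := Real.pi_pos
      nlinarith
    linarith
  set f : HH := gf 0 • one + Fv P ((B : ℤ) ^ 2 ^ d) (LL B d) Y c φc J with hf
  have hprf : pr f = Fv P ((B : ℤ) ^ 2 ^ d) (LL B d) Y c φc J := by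
    rw [hf, pr_add, pr_smul, pr_one, smul_zero, zero_add,
      pr_Fv P _ _ Y c φc J (lfr_ne B d Y J hB1 hB3)]
  refine ⟨path P v, ⟨hφin, K0 * c0 * M, inferInstance, ι, p0 * c0 + 1, rfl⟩, f, ?_, ?_⟩
  · -- the vector is close
    apply hηW
    rw [Metric.mem_ball, dist_eq_norm]
    have e1 : f - f0 = (∑ j ∈ Jset J, φc j • (Fj P ((B : ℤ) ^ 2 ^ d) (LL B d) Y c j - chi P0 j) +
        ∑ j ∈ Jset J, (φc j - gf j) • chi P0 j) - (f0 - trs P0 J gf) := by
      rw [hf, trs_split, Fv]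
      simp_rw [smul_sub, sub_smul, Finset.sum_sub_distrib]
      abel
    have b1 : ‖∑ j ∈ Jset J, φc j • (Fj P ((B : ℤ) ^ 2 ^ d) (LL B d) Y c j - chi P0 j)‖ ≤ η / 4 := by
      refine (norm_sum_le _ _).trans ?_
      refine (Finset.sum_le_sum (g := fun j => ‖φc j‖ * ε3) fun j hj => ?_).trans ?_
      · rw [norm_smul, norm_sub_rev]
        exact mul_le_mul_of_nonneg_left (hFclose j hj) (norm_nonneg _)
      · rw [← Finset.sum_mul]
        refine le_trans ?_ hε3a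
        rw [mul_comm]
        apply mul_le_mul_of_nonneg_left _ hε3p.le
        rw [hC1]
        linarith
    have b2 : ‖∑ j ∈ Jset J, (φc j - gf j) • chi P0 j‖ ≤ η / 8 := by
      refine (norm_sum_le _ _).trans ?_
      refine (Finset.sum_le_sum (g := fun j => η') fun j hj => ?_).trans ?_
      · rw [norm_smul, chi_norm, mul_one]
        exact hφd j
      · rw [Finset.sum_const, nsmul_eq_mul]
        have hcard : ((Jset J).card : ℝ) ≤ 2 * J + 1 := by
          have h1 : (Jset J).card ≤ (Finset.Icc (-(J : ℤ)) J).card := Finset.card_le_card (Finset.erase_subset _ _)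
          rw [Int.card_Icc] at h1
          have h2 : (Jset J).card ≤ 2 * J + 1 := by omega
          exact_mod_cast h2
        calc ((Jset J).card : ℝ) * η' ≤ (2 * J + 1) * η' := mul_le_mul_of_nonneg_right hcard hη'0.le
          _ = η / 8 := by rw [hη']; field_simp
    rw [e1]
    calc _ ≤ ‖_ + _‖ + ‖f0 - trs P0 J gf‖ := norm_sub_le _ _
      _ ≤ (η / 4 + η / 8) + η / 4 := add_le_add ((norm_add_le _ _).trans (add_le_add b1 b2)) hgf1
      _ < η := by linarith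
  · intro t ht1 ht2 ht3
    rw [hprf]
    set V : ℤ → VV k := fun m => τ (fun i => koop (path P v (m * t i)) (Fv P ((B : ℤ) ^ 2 ^ d) (LL B d) Y c φc J))
      with hV
    set ω : Fin d → ℝ := fun i => v1 / (B : ℝ) ^ 2 ^ (i : ℕ) with hω
    have hωp : ∀ i, 0 < ω i := fun i => by simp only [hω]; positivity
    have hωs : ∑ i, ω i ≤ d * (v1 / B) := by
      calc ∑ i, ω i ≤ ∑ _i : Fin d, v1 / B := by
            apply Finset.sum_le_sum
            intro i _
            simp only [hω]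
            apply div_le_div_of_nonneg_left hv1p.le hB0
            calc (B : ℝ) = (B : ℝ) ^ 1 := (pow_one _).symm
              _ ≤ (B : ℝ) ^ 2 ^ (i : ℕ) := pow_le_pow_right₀ hBr Nat.one_le_two_pow
        _ = d * (v1 / B) := by rw [Finset.sum_const, Finset.card_univ, Fintype.card_fin, nsmul_eq_mul]
    have hts : ∑ l, t l ≤ k * T := by
      calc ∑ l, t l ≤ ∑ _l : Fin k, T := Finset.sum_le_sum fun l _ => ht3 l
        _ = k * T := by rw [Finset.sum_const, Finset.card_univ, Fintype.card_fin, nsmul_eq_mul]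
    have hts0 : 0 ≤ ∑ l, t l := Finset.sum_nonneg fun l _ => (ht2 l).le
    have hsmall : 4 * ((∑ l, t l) * Y) * ∑ i, ω i < 1 := by
      refine lt_of_le_of_lt ?_ hp4
      have h1 : 0 ≤ ∑ i, ω i := Finset.sum_nonneg fun i _ => (hωp i).le
      have hY0 : (0 : ℝ) ≤ Y := by positivity
      have h2 : 4 * ((∑ l, t l) * Y) ≤ 4 * ((k * T) * Y) := by
        have := mul_le_mul_of_nonneg_right hts hY0
        linarith
      have h3 : 0 ≤ 4 * ((k * T) * Y) := by positivity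
      exact mul_le_mul h2 hωs h1 h3
    have hdec : ∀ j0 ∈ JK k J, ∃ w ∈ Submodule.span ℂ (range V),
        ‖w - τ (fun i => Fj P ((B : ℤ) ^ 2 ^ d) (LL B d) Y c (j0 i))‖ ≤ ε2 := by
      intro j0 hj0
      obtain ⟨Q, hQ1, hQ2⟩ := hm2 ω hωp (sep_omega B d hB1 hB2 v1 hv1p) t ht1 ht2 hsmall
        (fun j => v * (((B : ℤ) ^ 2 ^ d : ℤ) : ℝ) * ∑ l, t l * j l) j0 hj0
      obtain ⟨N, a, hNa⟩ := decode hI τ hτ P ((B : ℤ) ^ 2 ^ d) (LL B d) J Y c φc (lfr_inj B d Y J hB1 hB3) v ω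
        (by
          intro i
          simp only [hω]
          have h1 := congrArg (fun z : ℤ => (z : ℝ)) (LL_mul B d i)
          push_cast at h1
          have h2 : (M : ℝ) = (B : ℝ) ^ 2 ^ d := by rw [hM]; push_cast; rfl
          rw [← hMv, h2, ← h1]
          field_simp) t j0 hj0 Q hQ1 ε2 hε2p.le hQ2
      refine ⟨∑ m ∈ N, a m • V m, ?_, hNa⟩
      exact Submodule.sum_mem _ fun m _ => Submodule.smul_mem _ _ (Submodule.subset_span (mem_range_self m))
    choose! w hw1 hw2 using hdec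
    -- the target
    set av : Fin k → HH := fun i => ∑ j ∈ Jset J, gg i.succ j • Fj P ((B : ℤ) ^ 2 ^ d) (LL B d) Y c j with hav
    have hav1 : ∀ i, ‖av i - pr (h i)‖ < δ' := by
      intro i
      have e1 : av i - pr (h i) = ∑ j ∈ Jset J, gg i.succ j • (Fj P ((B : ℤ) ^ 2 ^ d) (LL B d) Y c j - chi P0 j) -
          pr (h i - trs P0 J (gg i.succ)) := by
        have h1 : pr (h i - trs P0 J (gg i.succ)) = pr (h i) - ∑ j ∈ Jset J, gg i.succ j • chi P0 j := by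
          rw [← pr_trs, sub_eq_add_neg, ← neg_one_smul ℂ (trs P0 J (gg i.succ)), pr_add, pr_smul, neg_one_smul,
            ← sub_eq_add_neg]
        rw [h1]
        simp_rw [hav, smul_sub, Finset.sum_sub_distrib]
        abel
      rw [e1]
      have b1 : ‖∑ j ∈ Jset J, gg i.succ j • (Fj P ((B : ℤ) ^ 2 ^ d) (LL B d) Y c j - chi P0 j)‖ ≤ δ' / 4 := by
        refine (norm_sum_le _ _).trans ?_
        refine (Finset.sum_le_sum (g := fun j => ‖gg i.succ j‖ * ε3) fun j hj => ?_).trans ?_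
        · rw [norm_smul, norm_sub_rev]
          exact mul_le_mul_of_nonneg_left (hFclose j hj) (norm_nonneg _)
        · rw [← Finset.sum_mul]
          refine le_trans ?_ hε3b
          rw [mul_comm]
          apply mul_le_mul_of_nonneg_left _ hε3p.le
          have h2 : ∑ j ∈ Jset J, ‖gg i.succ j‖ ≤ ∑ i : Fin k, ∑ j ∈ Jset J, ‖gg i.succ j‖ :=
            Finset.single_le_sum (f := fun i : Fin k => ∑ j ∈ Jset J, ‖gg i.succ j‖)
              (fun _ _ => Finset.sum_nonneg fun _ _ => norm_nonneg _) (Finset.mem_univ i)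
          rw [hC1]
          linarith
      calc _ ≤ _ + ‖pr (h i - trs P0 J (gg i.succ))‖ := norm_sub_le _ _
        _ ≤ δ' / 4 + δ' / 4 := add_le_add b1 ((pr_norm _).trans (hgh1 i))
        _ < δ' := by linarith
    have e2 : τ av = ∑ j0 ∈ JK k J, (∏ i, gg i.succ (j0 i)) •
        τ (fun i => Fj P ((B : ℤ) ^ 2 ^ d) (LL B d) Y c (j0 i)) := by
      have h1 := MultilinearMap.map_sum_finset τ.toMultilinearMap
        (fun i (j : ℤ) => gg i.succ j • Fj P ((B : ℤ) ^ 2 ^ d) (LL B d) Y c j) (fun _ => Jset J)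
      have h2 : τ av = ∑ r ∈ JK k J, τ (fun i => gg i.succ (r i) • Fj P ((B : ℤ) ^ 2 ^ d) (LL B d) Y c (r i)) := h1
      rw [h2]
      apply Finset.sum_congr rfl
      intro r _
      exact τ.map_smul_univ (fun i => gg i.succ (r i)) (fun i => Fj P ((B : ℤ) ^ 2 ^ d) (LL B d) Y c (r i))
    have hwmem : ∑ j0 ∈ JK k J, (∏ i, gg i.succ (j0 i)) • w j0 ∈ Submodule.span ℂ (range V) :=
      Submodule.sum_mem _ fun j0 hj0 => Submodule.smul_mem _ _ (hw1 j0 hj0)
    have hwn : ‖∑ j0 ∈ JK k J, (∏ i, gg i.succ (j0 i)) • w j0 - τ av‖ ≤ ε / 4 := by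
      rw [e2, ← Finset.sum_sub_distrib]
      refine (norm_sum_le _ _).trans ?_
      refine (Finset.sum_le_sum (g := fun j0 => ‖∏ i, gg i.succ (j0 i)‖ * ε2) fun j0 hj0 => ?_).trans ?_
      · rw [← smul_sub, norm_smul]
        exact mul_le_mul_of_nonneg_left (hw2 j0 hj0) (norm_nonneg _)
      · rw [← Finset.sum_mul]
        refine le_trans ?_ hε2b
        rw [mul_comm]
        apply mul_le_mul_of_nonneg_left _ hε2p.le
        rw [hC2]
        linarith
    obtain ⟨cf, hcf⟩ := (Finsupp.mem_span_range_iff_exists_finsupp).1 hwmem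
    refine ⟨cf.support, cf, ?_⟩
    have e3 : ∑ m ∈ cf.support, cf m • V m = ∑ j0 ∈ JK k J, (∏ i, gg i.succ (j0 i)) • w j0 := hcf
    have e4 : ∑ m ∈ cf.support, cf m • V m - τ (fun i => pr (h i)) =
        (∑ j0 ∈ JK k J, (∏ i, gg i.succ (j0 i)) • w j0 - τ av) + (τ av - τ (fun i => pr (h i))) := by
      rw [e3]
      abel
    rw [e4]
    have h5 := hcont av hav1
    calc _ ≤ _ + _ := norm_add_le _ _
      _ ≤ ε / 4 + ‖τ av - τ (fun i => pr (h i))‖ := add_le_add hwn le_rfl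
      _ < ε := by linarith

end Pool.Agent.W744.SF
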