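import Mathlib
import Pool.Agent.W744.SF.Step2
import Pool.Agent.W744.SF.Gen

set_option autoImplicit false
set_option linter.unusedSectionVars false
set_option linter.unusedVariables false

/-!
Assembly: the statement on the model space.
-/

namespace Pool.Agent.W744.SF

open MeasureTheory Set Filter Topology
open scoped ENNReal symmDiff
open Pool.H359R3 Pool.H359R3.WH Pool.H359R3.IX

attribute [local instance] us

/-- compact exhaustion of the open simplex -/
def Sx (k T : ℕ) : Set (Fin k → ℝ) :=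
  {t | (∀ i, 1 / ((T : ℝ) + 1) ≤ t i ∧ t i ≤ T) ∧ ∀ i j, i < j → t i + 1 / ((T : ℝ) + 1) ≤ t j}

theorem Sx_compact (k T : ℕ) : IsCompact (Sx k T) := by
  have h1 : Sx k T ⊆ Set.pi univ (fun _ : Fin k => Icc (1 / ((T : ℝ) + 1)) (T : ℝ)) := by
    intro t ht i _
    exact ht.1 i
  refine IsCompact.of_isClosed_subset (isCompact_univ_pi fun _ => isCompact_Icc) ?_ h1
  unfold Sx
  simp only [ofPred_and, ofPred_forall]
  refine IsClosed.inter ?_ ?_
  · exact isClosed_iInter fun i => (isClosed_le continuous_const (continuous_apply i)).inter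
      (isClosed_le (continuous_apply i) continuous_const)
  · refine isClosed_iInter fun i => isClosed_iInter fun j => isClosed_iInter fun _ => ?_
    exact isClosed_le ((continuous_apply i).add continuous_const) (continuous_apply j)

theorem Sx_mem (k T : ℕ) (t : Fin k → ℝ) (ht : t ∈ Sx k T) : StrictMono t ∧ (∀ i, 0 < t i) ∧ ∀ i, t i ≤ T := by
  have h0 : (0 : ℝ) < 1 / ((T : ℝ) + 1) := by positivity
  refine ⟨fun i j hij => ?_, fun i => lt_of_lt_of_le h0 (ht.1 i).1, fun i => (ht.1 i).2⟩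
  have := ht.2 i j hij
  linarith

theorem Sx_exhaust (k : ℕ) (t : Fin k → ℝ) (h1 : StrictMono t) (h2 : ∀ i, 0 < t i) : ∃ T : ℕ, t ∈ Sx k T := by
  have hsmall : ∀ δ : ℝ, 0 < δ → ∀ᶠ T : ℕ in atTop, 1 / ((T : ℝ) + 1) ≤ δ := by
    intro δ hδ
    exact (tendsto_one_div_add_atTop_nhds_zero_nat (𝕜 := ℝ)).eventually (Iic_mem_nhds hδ)
  have e1 : ∀ᶠ T : ℕ in atTop, ∀ i, 1 / ((T : ℝ) + 1) ≤ t i := eventually_all.2 fun i => hsmall _ (h2 i)
  have e2 : ∀ᶠ T : ℕ in atTop, ∀ i, t i ≤ (T : ℝ) :=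
    eventually_all.2 fun i => (tendsto_natCast_atTop_atTop (R := ℝ)).eventually (eventually_ge_atTop (t i))
  have e3 : ∀ᶠ T : ℕ in atTop, ∀ i j, i < j → t i + 1 / ((T : ℝ) + 1) ≤ t j := by
    refine eventually_all.2 fun i => eventually_all.2 fun j => ?_
    by_cases hij : i < j
    · filter_upwards [hsmall (t j - t i) (sub_pos.2 (h1 hij))] with T hT _
      linarith
    · exact Eventually.of_forall fun T h => absurd h hij
  obtain ⟨T, h3, h4, h5⟩ := (e1.and (e2.and e3)).exists
  exact ⟨T, fun i => ⟨h3 i, h4 i⟩, h5⟩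

/-- the open conditions -/
def OO (k : ℕ) (τ : ContinuousMultilinearMap ℂ (fun _ : Fin k => HH) (VV k)) (T : ℕ) (ε : ℝ) (h : Fin k → HH) :
    Set (C(ℝ, Aut) × HH) :=
  {x | ∀ t ∈ Sx k T, ∃ (N : Finset ℤ) (a : ℤ → ℂ),
    ‖∑ m ∈ N, a m • τ (fun i => koop (x.1 (m * t i)) (pr x.2)) - τ (fun i => pr (h i))‖ < ε}

theorem OO_open (hK : S_Koop) (k : ℕ) (τ : ContinuousMultilinearMap ℂ (fun _ : Fin k => HH) (VV k)) (T : ℕ) (ε : ℝ)
    (h : Fin k → HH) : IsOpen (OO k τ T ε h) := by
  have hKc : Continuous (fun p : Aut × HH => koop p.1 p.2) := hK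
  rw [isOpen_iff_mem_nhds]
  intro x hx
  refine (Sx_compact k T).eventually_forall_of_forall_eventually ?_
  intro t ht
  obtain ⟨N, a, hNa⟩ := hx t ht
  have hc : Continuous (fun z : (C(ℝ, Aut) × HH) × (Fin k → ℝ) =>
      ‖∑ m ∈ N, a m • τ (fun i => koop (z.1.1 (m * z.2 i)) (pr z.1.2)) - τ (fun i => pr (h i))‖) := by
    refine continuous_norm.comp (Continuous.sub ?_ continuous_const)
    refine continuous_finsetSum _ fun m _ => ?_
    have hcc : Continuous (fun z : (C(ℝ, Aut) × HH) × (Fin k → ℝ) =>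
        τ (fun i => koop (z.1.1 (m * z.2 i)) (pr z.1.2))) := ?_
    exact hcc.const_smul (a m)
    refine τ.cont.comp (continuous_pi fun i => ?_)
    refine hKc.comp (Continuous.prodMk ?_ ?_)
    · exact continuous_eval.comp ((continuous_fst.comp continuous_fst).prodMk
        (continuous_const.mul ((continuous_apply i).comp continuous_snd)))
    · exact pr_cont.comp (continuous_snd.comp continuous_fst)
  filter_upwards [hc.continuousAt.eventually (gt_mem_nhds hNa)] with z hz
  exact ⟨N, a, hz⟩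

theorem model (hMain : S_Main) (hI : S_Interp) (hTrig : S_Trig) (hTens : S_Tens) (hKoop : S_Koop) (hCyc : S_Cyc) :
    S_Model := by
  classical
  choose τ hτ1 hτ2 using fun k => hTens ℝ lam k
  have : Fact ((2 : ℝ≥0∞) ≠ ∞) := ⟨by simp⟩
  have hsc : SecondCountableTopology HH := MeasureTheory.Lp.SecondCountableTopology
  -- index of the conditions
  let I : Type := Σ k : ℕ, ℕ × ℕ × (Fin k → ℕ)
  have hIne : Nonempty I := ⟨⟨0, 0, 0, fun _ => 0⟩⟩
  obtain ⟨e, he⟩ := exists_surjective_nat I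
  let O' : I → Set (C(ℝ, Aut) × HH) := fun z => if 1 ≤ z.1 then
    OO z.1 (τ z.1) z.2.1 (1 / ((z.2.2.1 : ℝ) + 1)) (fun i => TopologicalSpace.denseSeq HH (z.2.2.2 i)) else univ
  have hO' : ∀ z, IsOpen (O' z) := by
    intro z
    simp only [O']
    split_ifs
    · exact OO_open hKoop _ _ _ _ _
    · exact isOpen_univ
  have hgen := flow_generic hCyc (B := HH) (fun n => O' (e n)) (fun n => hO' _) (by
    intro n U W hU hW hUne hWne
    generalize e n = z
    by_cases hz : 1 ≤ z.1
    · obtain ⟨φ, hφ, f, hf, h1⟩ := dense_step hMain hI hTrig z.1 hz (τ z.1) (hτ2 z.1) z.2.1 (by positivity)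
        (fun i => TopologicalSpace.denseSeq HH (z.2.2.2 i)) (1 / ((z.2.2.1 : ℝ) + 1)) (by positivity) U W hU hW hUne hWne
      refine ⟨φ, hφ, f, hf, ?_⟩
      simp only [O']
      rw [if_pos hz]
      intro t ht
      obtain ⟨a1, a2, a3⟩ := Sx_mem _ _ t ht
      exact h1 t a1 a2 a3
    · obtain ⟨φ, hφ⟩ := hUne
      obtain ⟨f, hf⟩ := hWne
      refine ⟨φ, hφ, f, hf, ?_⟩
      simp only [O']
      rw [if_neg hz]
      trivial)
  refine Filter.mem_of_superset hgen ?_
  rintro T ⟨φ, ⟨f, hf⟩, hfl, hT⟩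
  refine ⟨fun s => φ s, ⟨φ.continuous, hfl, (pr f : ℝ → ℂ), Lp.memLp _, ?_, ?_⟩, hT⟩
  · rw [← inner_one, inner_one_pr]
  · intro k hk t ht1 ht2 h hh1 hh2 ε hε
    -- the functions as vectors
    let hv : Fin k → HH := fun i => (hh1 i).toLp (h i)
    have hv_ae : ∀ i, (hv i : ℝ → ℂ) =ᵐ[lam] h i := fun i => MemLp.coeFn_toLp _
    have hprv : ∀ i, pr (hv i) = hv i := by
      intro i
      apply pr_of_zero
      rw [inner_one, integral_congr_ae (hv_ae i), hh2 i]
    obtain ⟨δ', hδ', hcont⟩ : ∃ δ' > 0, ∀ a : Fin k → HH, (∀ i, ‖a i - hv i‖ < δ') →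
        ‖τ k (fun i => pr (a i)) - τ k (fun i => pr (hv i))‖ < ε / 2 := by
      have hc : Continuous (fun a : Fin k → HH => τ k (fun i => pr (a i))) :=
        (τ k).cont.comp (continuous_pi fun i => pr_cont.comp (continuous_apply i))
      obtain ⟨δ', hδ', h2⟩ := Metric.continuousAt_iff.1 (hc.continuousAt (x := hv)) (ε / 2) (by positivity)
      refine ⟨δ', hδ', fun a ha => ?_⟩
      rw [← dist_eq_norm]
      apply h2
      rw [dist_pi_lt_iff hδ']
      intro i
      rw [dist_eq_norm]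
      exact ha i
    have hdense : ∀ i, ∃ n : ℕ, ‖TopologicalSpace.denseSeq HH n - hv i‖ < δ' := by
      intro i
      obtain ⟨n, hn⟩ := (TopologicalSpace.denseRange_denseSeq HH).exists_dist_lt (hv i) hδ'
      refine ⟨n, ?_⟩
      rw [← dist_eq_norm, dist_comm]
      exact hn
    choose idx hidx using hdense
    obtain ⟨Tn, hTn⟩ := Sx_exhaust k t ht1 ht2
    obtain ⟨m, hm⟩ := exists_nat_one_div_lt (half_pos hε)
    obtain ⟨n, hn⟩ := he ⟨k, Tn, m, idx⟩
    have h3 := hf n
    simp only [O'] at h3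
    rw [hn, if_pos hk] at h3
    obtain ⟨N, a, hNa⟩ := h3 t hTn
    refine ⟨N, a, ?_⟩
    have h4 := hcont (fun i => TopologicalSpace.denseSeq HH (idx i)) hidx
    have h5 : ‖τ k hv - ∑ m ∈ N, a m • τ k (fun i => koop (φ (m * t i)) (pr f))‖ < ε := by
      have e1 : τ k hv = τ k (fun i => pr (hv i)) := by
        congr 1
        funext i
        exact (hprv i).symm
      rw [e1, norm_sub_rev]
      have hNa' : ‖∑ m ∈ N, a m • τ k (fun i => koop (φ (m * t i)) (pr f)) -
        τ k (fun i => pr (TopologicalSpace.denseSeq HH (idx i)))‖ < 1 / ((m : ℝ) + 1) := hNa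
      calc _ = ‖(∑ m ∈ N, a m • τ k (fun i => koop (φ (m * t i)) (pr f)) -
            τ k (fun i => pr (TopologicalSpace.denseSeq HH (idx i)))) +
            (τ k (fun i => pr (TopologicalSpace.denseSeq HH (idx i))) - τ k (fun i => pr (hv i)))‖ := by
              congr 1; abel
        _ ≤ _ + _ := norm_add_le _ _
        _ < ε := by linarith
    -- back to functions
    have hrep : ((τ k hv - ∑ m ∈ N, a m • τ k (fun i => koop (φ (m * t i)) (pr f)) : VV k) : (Fin k → ℝ) → ℂ)
        =ᵐ[Measure.pi fun _ : Fin k => lam]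
        fun x => ∏ i, h i (x i) - ∑ n ∈ N, a n * ∏ i, (pr f : ℝ → ℂ) ((φ (n * t i)).1 (x i)) := by
      have r1 : (τ k hv : (Fin k → ℝ) → ℂ) =ᵐ[Measure.pi fun _ : Fin k => lam] fun x => ∏ i, h i (x i) := by
        have : ∀ᵐ x ∂(Measure.pi fun _ : Fin k => lam), ∀ i, (hv i : ℝ → ℂ) (x i) = h i (x i) := by
          rw [ae_all_iff]
          intro i
          exact (Measure.quasiMeasurePreserving_eval (fun _ : Fin k => lam) i).ae (hv_ae i)
        filter_upwards [hτ1 k hv, this] with x h6 h7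
        rw [h6]
        exact Finset.prod_congr rfl fun i _ => h7 i
      have r2 : ∀ m : ℤ, (τ k (fun i => koop (φ (m * t i)) (pr f)) : (Fin k → ℝ) → ℂ)
          =ᵐ[Measure.pi fun _ : Fin k => lam] fun x => ∏ i, (pr f : ℝ → ℂ) ((φ (m * t i)).1 (x i)) := by
        intro m
        have : ∀ᵐ x ∂(Measure.pi fun _ : Fin k => lam), ∀ i, (koop (φ (m * t i)) (pr f) : ℝ → ℂ) (x i) =
            (pr f : ℝ → ℂ) ((φ (m * t i)).1 (x i)) := by
          rw [ae_all_iff]
          intro i
          exact (Measure.quasiMeasurePreserving_eval (fun _ : Fin k => lam) i).ae (koop_ae (φ (m * t i)) (pr f))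
        filter_upwards [hτ1 k (fun i => koop (φ (m * t i)) (pr f)), this] with x h6 h7
        rw [h6]
        exact Finset.prod_congr rfl fun i _ => h7 i
      have r3 : ∀ (S : Finset ℤ), ((∑ m ∈ S, a m • τ k (fun i => koop (φ (m * t i)) (pr f)) : VV k) :
          (Fin k → ℝ) → ℂ) =ᵐ[Measure.pi fun _ : Fin k => lam]
          fun x => ∑ n ∈ S, a n * ∏ i, (pr f : ℝ → ℂ) ((φ (n * t i)).1 (x i)) := by
        intro S
        induction S using Finset.induction_on with
        | empty =>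
          rw [Finset.sum_empty]
          filter_upwards [Lp.coeFn_zero ℂ 2 (Measure.pi fun _ : Fin k => lam)] with x hx
          simpa using hx
        | insert b S hb ih =>
          rw [Finset.sum_insert hb]
          filter_upwards [Lp.coeFn_add (a b • τ k (fun i => koop (φ (b * t i)) (pr f)))
            (∑ m ∈ S, a m • τ k (fun i => koop (φ (m * t i)) (pr f))), ih,
            Lp.coeFn_smul (a b) (τ k (fun i => koop (φ (b * t i)) (pr f))), r2 b] with x h1 h2 h3 h4
          rw [h1, Pi.add_apply, h2, h3, Pi.smul_apply, h4, smul_eq_mul, Finset.sum_insert hb]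
      filter_upwards [Lp.coeFn_sub (τ k hv) (∑ m ∈ N, a m • τ k (fun i => koop (φ (m * t i)) (pr f))), r1, r3 N]
        with x h1 h2 h3
      rw [h1, Pi.sub_apply, h2, h3]
    rw [← eLpNorm_congr_ae hrep]
    rw [Lp.norm_def] at h5
    rw [ENNReal.lt_ofReal_iff_toReal_lt (Lp.eLpNorm_ne_top _)]
    exact h5

end Pool.Agent.W744.SF
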