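import Mathlib
import Pool.Agent.W744.SF.Stubs
import Pool.Agent.H359R3.IX8

set_option autoImplicit false
set_option linter.unusedSectionVars false
set_option linter.unusedVariables false

/-!
The action of the automorphism group on square integrable functions is continuous.
-/

namespace Pool.Agent.W744.SF.Koop

open MeasureTheory Set Filter Topology
open scoped ENNReal symmDiff
open Pool.H359R3 Pool.H359R3.WH Pool.H359R3.IX
open Pool.Agent.W744.SF

attribute [local instance] us

noncomputable def kp (T : Aut) (g : Lp ℂ 2 lam) : Lp ℂ 2 lam := Lp.compMeasurePreserving (⇑T.1) T.2 g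

theorem kp_sub (T : Aut) (g h : Lp ℂ 2 lam) : kp T g - kp T h = kp T (g - h) := by
  unfold kp
  rw [map_sub]

theorem kp_add (T : Aut) (g h : Lp ℂ 2 lam) : kp T (g + h) = kp T g + kp T h := by
  unfold kp
  rw [map_add]

theorem kp_norm (T : Aut) (g : Lp ℂ 2 lam) : ‖kp T g‖ = ‖g‖ := by
  unfold kp
  rw [Lp.norm_compMeasurePreserving]

theorem cont_ind (c : ℂ) (s : Set ℝ) (hs : MeasurableSet s) (hμs : lam s < ∞) :
    Continuous (fun T : Aut => kp T (indicatorConstLp 2 hs hμs.ne c)) := by
  rw [continuous_iff_continuousAt]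
  intro T0
  unfold ContinuousAt
  have h1 := of_tendsto_un F0 (@nhds Aut us.toTopologicalSpace T0) id T0 Filter.tendsto_id s hs hμs
  unfold kp
  simp only [Lp.indicatorConstLp_compMeasurePreserving]
  exact tendsto_indicatorConstLp_set (by simp) h1

theorem cont_fix (g : Lp ℂ 2 lam) : Continuous (fun T : Aut => kp T g) := by
  have hp : (2 : ℝ≥0∞) ≠ ∞ := by simp
  refine Lp.induction hp (motive := fun g : Lp ℂ 2 lam => Continuous (fun T : Aut => kp T g)) ?_ ?_ ?_ g
  · intro c s hs hμs
    exact cont_ind c s hs hμs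
  · intro f g hf hg _ h1 h2
    have : (fun T : Aut => kp T (hf.toLp f + hg.toLp g)) = fun T => kp T (hf.toLp f) + kp T (hg.toLp g) := by
      funext T
      exact kp_add T _ _
    show Continuous (fun T : Aut => kp T (hf.toLp f + hg.toLp g))
    rw [this]
    exact h1.add h2
  · refine isClosed_of_closure_subset ?_
    intro f hf
    show Continuous (fun T : Aut => kp T f)
    rw [continuous_iff_continuousAt]
    intro T0
    rw [ContinuousAt, Metric.tendsto_nhds]
    intro ε hε
    obtain ⟨g, hg, hfg⟩ := Metric.mem_closure_iff.1 hf (ε / 3) (by positivity)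
    have hg' : Continuous (fun T : Aut => kp T g) := hg
    have h1 := Metric.tendsto_nhds.1 (hg'.tendsto T0) (ε / 3) (by positivity)
    filter_upwards [h1] with T hT
    have e1 : dist (kp T f) (kp T g) < ε / 3 := by
      rw [dist_eq_norm, kp_sub, kp_norm, ← dist_eq_norm]
      exact hfg
    have e2 : dist (kp T0 g) (kp T0 f) < ε / 3 := by
      rw [dist_comm, dist_eq_norm, kp_sub, kp_norm, ← dist_eq_norm]
      exact hfg
    have e3 := dist_triangle4 (kp T f) (kp T g) (kp T0 g) (kp T0 f)
    linarith

theorem main : S_Koop := by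
  show Continuous (fun p : Aut × Lp ℂ 2 lam => kp p.1 p.2)
  rw [continuous_iff_continuousAt]
  rintro ⟨T0, g0⟩
  rw [ContinuousAt, Metric.tendsto_nhds]
  intro ε hε
  have h1 := Metric.tendsto_nhds.1 ((cont_fix g0).tendsto T0) (ε / 2) (by positivity)
  have h2 : ∀ᶠ g : Lp ℂ 2 lam in 𝓝 g0, dist g g0 < ε / 2 := Metric.ball_mem_nhds g0 (by positivity)
  have h3 := h1.prod_nhds h2
  filter_upwards [h3] with p hp
  have e1 : dist (kp p.1 p.2) (kp p.1 g0) < ε / 2 := by
    rw [dist_eq_norm, kp_sub, kp_norm, ← dist_eq_norm]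
    exact hp.2
  have e3 := dist_triangle (kp p.1 p.2) (kp p.1 g0) (kp T0 g0)
  have := hp.1
  show dist (kp p.1 p.2) (kp T0 g0) < ε
  linarith

end Pool.Agent.W744.SF.Koop
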