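import Mathlib
import Pool.Agent.W744.SF.Stubs
import Pool.Agent.H359R3.IX8
import Pool.Agent.H359R3.MX10

set_option autoImplicit false
set_option linter.unusedSectionVars false
set_option linter.unusedVariables false

/-!
Transport of residual sets from the model space to the unit interval.
-/

namespace Pool.Agent.W744.SF

open MeasureTheory Set Filter Topology
open scoped ENNReal symmDiff
open Pool.H359R3 Pool.H359R3.WH Pool.H359R3.IX

attribute [local instance] us

abbrev PX : Type := {T : unitInterval ≃ᵐ unitInterval //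
          MeasurePreserving (⇑T) (volume : Measure unitInterval) (volume : Measure unitInterval)}

section tr

variable (e : unitInterval ≃ᵐ ℝ) (he : MeasurePreserving e (volume : Measure unitInterval) lam)

/-- conjugation -/
def cX (T : PX) : Aut :=
  ⟨e.symm.trans (T.1.trans e), (he.comp T.2).comp (MeasurePreserving.symm e he)⟩

/-- conjugation back -/
def bX (T : Aut) : PX :=
  ⟨e.trans (T.1.trans e.symm), ((MeasurePreserving.symm e he).comp T.2).comp he⟩

theorem cX_bX (T : Aut) : cX e he (bX e he T) = T := by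
  apply Subtype.ext
  apply MeasurableEquiv.ext
  funext x
  show e (e.symm (T.1 (e (e.symm x)))) = T.1 x
  rw [e.apply_symm_apply, e.apply_symm_apply]

theorem cX_apply (T : PX) (x : unitInterval) : (cX e he T).1 (e x) = e (T.1 x) := by
  show e (T.1 (e.symm (e x))) = e (T.1 x)
  rw [e.symm_apply_apply]

theorem bX_apply (S : Aut) (x : unitInterval) : e ((bX e he S).1 x) = S.1 (e x) := by
  show e (e.symm (S.1 (e x))) = S.1 (e x)
  rw [e.apply_symm_apply]

theorem img_eq (S T : PX) (A : Set unitInterval) (hA : MeasurableSet A) :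
    (volume : Measure unitInterval) (symmDiff ((⇑S.1) '' A) ((⇑T.1) '' A)) =
      lam (((invA (cX e he S)).1 ⁻¹' (e.symm ⁻¹' A)) ∆ ((invA (cX e he T)).1 ⁻¹' (e.symm ⁻¹' A))) := by
  have hA' : MeasurableSet (e.symm ⁻¹' A) := e.symm.measurable hA
  rw [← he.measure_preimage (((invA (cX e he S)).1.measurable hA').symmDiff
    ((invA (cX e he T)).1.measurable hA')).nullMeasurableSet]
  congr 1
  have key : ∀ (R : PX) (x : unitInterval), (e x ∈ (invA (cX e he R)).1 ⁻¹' (e.symm ⁻¹' A)) ↔ x ∈ (⇑R.1) '' A := by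
    intro R x
    have h1 : (invA (cX e he R)).1 (e x) = e (R.1.symm x) := by
      show e (R.1.symm (e.symm (e x))) = _
      rw [e.symm_apply_apply]
    rw [mem_preimage, h1, mem_preimage, e.symm_apply_apply]
    constructor
    · intro h
      exact ⟨_, h, R.1.apply_symm_apply x⟩
    · rintro ⟨y, hy, rfl⟩
      rw [R.1.symm_apply_apply]
      exact hy
  ext x
  rw [mem_preimage, Set.mem_symmDiff, Set.mem_symmDiff, key, key]

/-- the topology of the statement -/
def tX : TopologicalSpace PX := TopologicalSpace.generateFrom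
        {U : Set {T : unitInterval ≃ᵐ unitInterval //
            MeasurePreserving (⇑T) (volume : Measure unitInterval) (volume : Measure unitInterval)} |
          ∃ T₀ : {T : unitInterval ≃ᵐ unitInterval //
            MeasurePreserving (⇑T) (volume : Measure unitInterval) (volume : Measure unitInterval)},
          ∃ A : Set unitInterval, MeasurableSet A ∧ ∃ ε : ℝ, 0 < ε ∧
            U = {S : {T : unitInterval ≃ᵐ unitInterval //
                  MeasurePreserving (⇑T) (volume : Measure unitInterval)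
                    (volume : Measure unitInterval)} |
                (volume : Measure unitInterval) (symmDiff ((⇑S.1) '' A) ((⇑T₀.1) '' A))
                  < ENNReal.ofReal ε}}

theorem invA_invA (T : Aut) : invA (invA T) = T := by
  apply Subtype.ext
  apply MeasurableEquiv.ext
  rfl

theorem cX_cont : @Continuous _ _ tX us.toTopologicalSpace (cX e he) := by
  rw [@continuous_iff_continuousAt _ _ tX us.toTopologicalSpace]
  intro T0
  have h1 : Tendsto (fun T => invA (cX e he T)) (@nhds _ tX T0) (@nhds _ us.toTopologicalSpace (invA (cX e he T0))) := by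
    refine tendsto_un F0 _ _ _ fun i => ?_
    rw [ENNReal.tendsto_nhds_zero]
    intro η hη
    obtain ⟨δ, hδ, hδη⟩ : ∃ δ : ℝ, 0 < δ ∧ ENNReal.ofReal δ ≤ η := by
      by_cases h : η = ∞
      · exact ⟨1, one_pos, by rw [h]; exact le_top⟩
      · exact ⟨η.toReal, ENNReal.toReal_pos hη.ne' h, by rw [ENNReal.ofReal_toReal h]⟩
    have hA : MeasurableSet (e ⁻¹' F0.C i) := e.measurable (F0.meas i)
    have hopen : @IsOpen PX tX {S : PX | (volume : Measure unitInterval)
        (symmDiff ((⇑S.1) '' (e ⁻¹' F0.C i)) ((⇑T0.1) '' (e ⁻¹' F0.C i))) < ENNReal.ofReal δ} :=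
      TopologicalSpace.isOpen_generateFrom_of_mem ⟨T0, e ⁻¹' F0.C i, hA, δ, hδ, rfl⟩
    have hmem : T0 ∈ {S : PX | (volume : Measure unitInterval)
        (symmDiff ((⇑S.1) '' (e ⁻¹' F0.C i)) ((⇑T0.1) '' (e ⁻¹' F0.C i))) < ENNReal.ofReal δ} := by
      show (volume : Measure unitInterval) (symmDiff _ _) < _
      rw [symmDiff_self]
      simpa using hδ
    filter_upwards [@IsOpen.mem_nhds _ tX _ _ hopen hmem] with S hS
    have hS' : (volume : Measure unitInterval)
        (symmDiff ((⇑S.1) '' (e ⁻¹' F0.C i)) ((⇑T0.1) '' (e ⁻¹' F0.C i))) < ENNReal.ofReal δ := hS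
    rw [img_eq e he S T0 _ hA] at hS'
    have h2 : e.symm ⁻¹' (e ⁻¹' F0.C i) = F0.C i := by
      ext x
      simp
    rw [h2] at hS'
    exact (hS'.trans_le hδη).le
  have h2 := tend_inv F0 _ _ _ h1
  have h3 : (fun T => invA (invA (cX e he T))) = cX e he := by
    funext T
    exact invA_invA _
  rw [h3, invA_invA] at h2
  exact h2

theorem tX_eq : tX = TopologicalSpace.induced (cX e he) us.toTopologicalSpace := by
  apply le_antisymm
  · rw [← continuous_iff_le_induced]
    exact cX_cont e he
  · apply le_generateFrom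
    rintro _ ⟨T₀, A, hA, δ, hδ, rfl⟩
    have hA' : MeasurableSet (e.symm ⁻¹' A) := e.symm.measurable hA
    have hc : @IsOpen Aut us.toTopologicalSpace {S : Aut | lam (((invA S).1 ⁻¹' (e.symm ⁻¹' A)) ∆
        ((invA (cX e he T₀)).1 ⁻¹' (e.symm ⁻¹' A))) < ENNReal.ofReal δ} := by
      rw [isOpen_iff_mem_nhds]
      intro S hS
      have h1 := of_tendsto_un F0 (@nhds Aut us.toTopologicalSpace S) (fun R => invA R) (invA S)
        (tend_inv F0 _ id S Filter.tendsto_id) (e.symm ⁻¹' A) hA' (measure_lt_top _ _)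
      have h2 := tend_of_sd _ _ _ ((invA (cX e he T₀)).1 ⁻¹' (e.symm ⁻¹' A))
        (measure_lt_top _ _) h1
      exact h2.eventually (gt_mem_nhds hS)
    refine ⟨_, hc, ?_⟩
    ext S
    show lam (((invA (cX e he S)).1 ⁻¹' (e.symm ⁻¹' A)) ∆
        ((invA (cX e he T₀)).1 ⁻¹' (e.symm ⁻¹' A))) < ENNReal.ofReal δ ↔ _
    rw [← img_eq e he S T₀ A hA]
    rfl

theorem transport_X (R : Set Aut) (hR : R ∈ residual Aut) :
    (cX e he) ⁻¹' R ∈ @residual PX tX := by
  have ho : @IsOpenMap _ _ tX us.toTopologicalSpace (cX e he) := by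
    intro U hU
    rw [tX_eq e he] at hU
    obtain ⟨V, hV, rfl⟩ := hU
    rw [image_preimage_eq_of_subset]
    · exact hV
    · intro T _
      exact ⟨bX e he T, cX_bX e he T⟩
  exact @tendsto_residual_of_isOpenMap _ _ tX us.toTopologicalSpace (cX e he) (cX_cont e he) ho R hR

/-- continuity of images -/
theorem img_cont (Φ : ℝ → Aut) (hΦ : Continuous Φ) (A : Set unitInterval) (hA : MeasurableSet A) (t₀ : ℝ) :
    Tendsto (fun s : ℝ => (volume : Measure unitInterval)
              (symmDiff ((⇑(bX e he (Φ s)).1) '' A) ((⇑(bX e he (Φ t₀)).1) '' A)))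
            (𝓝 t₀) (𝓝 0) := by
  have hA' : MeasurableSet (e.symm ⁻¹' A) := e.symm.measurable hA
  have h1 := of_tendsto_un F0 (𝓝 t₀) (fun s => invA (Φ s)) (invA (Φ t₀))
        (tend_inv F0 _ Φ (Φ t₀) (hΦ.tendsto t₀)) (e.symm ⁻¹' A) hA' (measure_lt_top _ _)
  refine h1.congr fun s => ?_
  rw [img_eq e he _ _ A hA, cX_bX, cX_bX]

/-- the flow law for powers -/
theorem flow_pow (Φ : ℝ → Aut) (hfl : ∀ s t : ℝ, ∀ᵐ x ∂lam, (Φ (s + t)).1 x = (Φ s).1 ((Φ t).1 x)) (t : ℝ) (n : ℤ) :
    ∀ᵐ x : unitInterval ∂(volume : Measure unitInterval),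
      e ((⇑(((bX e he (Φ t)).1.toEquiv : Equiv.Perm unitInterval) ^ n)) x) = (Φ (n * t)).1 (e x) := by
  have h0 : ∀ᵐ x ∂lam, (Φ 0).1 x = x := by
    filter_upwards [hfl 0 0] with x hx
    rw [add_zero] at hx
    exact ((Φ 0).1.injective hx).symm
  have hnat : ∀ m : ℕ, ∀ᵐ x : unitInterval ∂(volume : Measure unitInterval),
      e ((⇑(((bX e he (Φ t)).1.toEquiv : Equiv.Perm unitInterval) ^ m)) x) = (Φ (m * t)).1 (e x) := by
    intro m
    induction m with
    | zero =>
      filter_upwards [he.quasiMeasurePreserving.ae h0] with x hx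
      rw [pow_zero, Nat.cast_zero, zero_mul, hx]
      rfl
    | succ m ih =>
      have h1 : ∀ᵐ x : unitInterval ∂(volume : Measure unitInterval),
          e ((⇑(((bX e he (Φ t)).1.toEquiv : Equiv.Perm unitInterval) ^ m)) ((bX e he (Φ t)).1 x)) =
            (Φ (m * t)).1 (e ((bX e he (Φ t)).1 x)) :=
        (bX e he (Φ t)).2.quasiMeasurePreserving.ae ih
      filter_upwards [h1, he.quasiMeasurePreserving.ae (hfl (m * t) t)] with x hx1 hx2
      have h2 : ((m + 1 : ℕ) : ℝ) * t = m * t + t := by push_cast; ring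
      rw [h2, hx2, ← bX_apply e he, ← hx1, pow_succ]
      rfl
  cases n with
  | ofNat m =>
    filter_upwards [hnat m] with x hx
    simpa using hx
  | negSucc m =>
    have h1 := hnat (m + 1)
    -- the inverse
    have hmp : MeasurePreserving (⇑(bX e he (Φ (Int.negSucc m * t))).1) (volume : Measure unitInterval) volume :=
      (bX e he (Φ (Int.negSucc m * t))).2
    have h3 := hmp.quasiMeasurePreserving.ae h1
    have h4 := he.quasiMeasurePreserving.ae (hfl (((m + 1 : ℕ) : ℝ) * t) (Int.negSucc m * t))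
    have e0 : (((m + 1 : ℕ) : ℝ) * t) + ((Int.negSucc m : ℤ) : ℝ) * t = 0 := by
      push_cast
      ring
    filter_upwards [h3, h4, he.quasiMeasurePreserving.ae h0] with x hx3 hx4 hx0
    rw [e0, hx0] at hx4
    rw [bX_apply, ← hx4] at hx3
    have hx5 := e.injective hx3
    rw [zpow_negSucc]
    have : (⇑((((bX e he (Φ t)).1.toEquiv : Equiv.Perm unitInterval) ^ (m + 1))⁻¹)) x =
        (bX e he (Φ (Int.negSucc m * t))).1 x := by
      rw [Equiv.Perm.inv_eq_iff_eq]
      exact hx5.symm
    rw [this, bX_apply]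

end tr

end Pool.Agent.W744.SF
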