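import Mathlib
import Pool.Agent.W744.SF.Tr1

set_option autoImplicit false
set_option linter.unusedSectionVars false
set_option linter.unusedVariables false

/-!
From the model space to the unit interval.
-/

namespace Pool.Agent.W744.SF

open MeasureTheory Set Filter Topology
open scoped ENNReal symmDiff
open Pool.H359R3 Pool.H359R3.WH Pool.H359R3.IX

attribute [local instance] us

theorem memLp_prod (hTens : S_Tens) {X : Type} [MeasurableSpace X] (μ : Measure X) [IsProbabilityMeasure μ] (k : ℕ)
    (f : Fin k → X → ℂ) (hf : ∀ i, MemLp (f i) 2 μ) :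
    MemLp (fun x : Fin k → X => ∏ i, f i (x i)) 2 (Measure.pi fun _ : Fin k => μ) := by
  obtain ⟨τ, hτ, _⟩ := hTens X μ k
  have h1 := Lp.memLp (τ fun i => (hf i).toLp (f i))
  refine h1.ae_eq ?_
  have : ∀ᵐ x ∂(Measure.pi fun _ : Fin k => μ), ∀ i, ((hf i).toLp (f i) : X → ℂ) (x i) = f i (x i) := by
    rw [ae_all_iff]
    intro i
    exact (Measure.quasiMeasurePreserving_eval (fun _ : Fin k => μ) i).ae (MemLp.coeFn_toLp (hf i))
  filter_upwards [hτ (fun i => (hf i).toLp (f i)), this] with x h6 h7
  rw [h6]
  exact Finset.prod_congr rfl fun i _ => h7 i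

theorem transfer (hTens : S_Tens) : S_Transfer := by
  intro hSpan hModel
  obtain ⟨e, he⟩ := Pool.H359R3.MX.exists_iso (volume : Measure unitInterval)
  have h := transport_X e he _ hModel
  show _ ∈ @residual PX tX
  refine Filter.mem_of_superset h ?_
  rintro T ⟨Φ, ⟨hΦc, hfl, f, hfL, hf0, hcyc⟩, hT⟩
  refine ⟨fun s => bX e he (Φ s), ?_, ?_, ?_, ?_⟩
  · intro s t
    filter_upwards [he.quasiMeasurePreserving.ae (hfl s t)] with x hx
    apply e.injective
    rw [bX_apply, hx, bX_apply, bX_apply]
  · intro A hA t₀
    exact img_cont e he Φ hΦc A hA t₀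
  · filter_upwards [he.quasiMeasurePreserving.ae hT] with x hx
    apply e.injective
    rw [bX_apply, hx, cX_apply]
  · intro k hk t ht1 ht2
    have hfe : MemLp (fun x : unitInterval => f (e x)) 2 (volume : Measure unitInterval) :=
      hfL.comp_measurePreserving he
    have hfe0 : ∫ x : unitInterval, f (e x) = 0 := by
      rw [he.integral_comp e.measurableEmbedding f, hf0]
    have hF : MemLp (fun x : Fin k → unitInterval => ∏ i, f (e (x i))) 2
        (Measure.pi fun _ : Fin k => (volume : Measure unitInterval)) :=
      memLp_prod hTens _ k (fun _ => fun x => f (e x)) (fun _ => hfe)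
    refine ⟨fun x => ∏ i, f (e (x i)), hF, ?_, ?_⟩
    · intro i g hg hgi
      exact (hSpan unitInterval volume k).1 (fun _ => fun x => f (e x)) (fun _ => hfe) (fun _ => hfe0) i g hg hgi
    · intro h0 hh hh2 ε hε
      set P : Measure (Fin k → unitInterval) := Measure.pi fun _ : Fin k => (volume : Measure unitInterval) with hP
      -- the vectors
      let u : ℤ → (Fin k → unitInterval) → ℂ := fun n x => ∏ i, f (e
        ((⇑(((bX e he (Φ (t i))).1.toEquiv : Equiv.Perm unitInterval) ^ n)) (x i)))
      have hpw : ∀ (i : Fin k) (n : ℤ), MeasurePreserving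
          (⇑(((bX e he (Φ (t i))).1.toEquiv : Equiv.Perm unitInterval) ^ n)) (volume : Measure unitInterval) volume := by
        intro i n
        have h1 : ∀ (S : PX) (m : ℕ), MeasurePreserving (⇑((S.1.toEquiv : Equiv.Perm unitInterval) ^ m))
            (volume : Measure unitInterval) volume := by
          intro S m
          induction m with
          | zero => exact MeasurePreserving.id _
          | succ m ih =>
            rw [pow_succ]
            exact ih.comp S.2
        cases n with
        | ofNat m =>
          have := h1 (bX e he (Φ (t i))) m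
          simpa using this
        | negSucc m =>
          have := h1 ⟨(bX e he (Φ (t i))).1.symm, MeasurePreserving.symm _ (bX e he (Φ (t i))).2⟩ (m + 1)
          rw [zpow_negSucc, ← inv_pow]
          exact this
      have hu : ∀ n, MemLp (u n) 2 P := by
        intro n
        exact memLp_prod hTens _ k (fun i => fun x => f (e
          ((⇑(((bX e he (Φ (t i))).1.toEquiv : Equiv.Perm unitInterval) ^ n)) x)))
          (fun i => hfe.comp_measurePreserving (hpw i n))
      let W : Submodule ℂ (Lp ℂ 2 P) := (Submodule.span ℂ (range fun n => (hu n).toLp (u n))).topologicalClosure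
      have hWc : IsClosed (W : Set (Lp ℂ 2 P)) := Submodule.isClosed_topologicalClosure _
      have hlin : ∀ (N : Finset ℤ) (c : ℤ → ℂ), ((∑ n ∈ N, c n • (hu n).toLp (u n) : Lp ℂ 2 P) :
          (Fin k → unitInterval) → ℂ) =ᵐ[P] fun x => ∑ n ∈ N, c n * u n x := by
        intro N c
        induction N using Finset.induction_on with
        | empty =>
          rw [Finset.sum_empty]
          filter_upwards [Lp.coeFn_zero ℂ 2 P] with x hx
          rw [hx]
          simp
        | insert b S hb ih =>
          rw [Finset.sum_insert hb]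
          filter_upwards [Lp.coeFn_add (c b • (hu b).toLp (u b)) (∑ n ∈ S, c n • (hu n).toLp (u n)), ih,
            Lp.coeFn_smul (c b) ((hu b).toLp (u b)), MemLp.coeFn_toLp (hu b)] with x h1 h2 h3 h4
          rw [h1, Pi.add_apply, h2, h3, Pi.smul_apply, h4, smul_eq_mul, Finset.sum_insert hb]
      have hmemW : ∀ g : Lp ℂ 2 P, g ∈ W ↔ ∀ η : ℝ, 0 < η → ∃ (N : Finset ℤ) (c : ℤ → ℂ),
          ‖g - ∑ n ∈ N, c n • (hu n).toLp (u n)‖ < η := by
        intro g
        have h1 : g ∈ W ↔ g ∈ closure (Submodule.span ℂ (range fun n => (hu n).toLp (u n)) : Set (Lp ℂ 2 P)) := by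
          rw [← Submodule.topologicalClosure_coe]
          rfl
        rw [h1, Metric.mem_closure_iff]
        constructor
        · intro h2 η hη
          obtain ⟨b, hb, hb2⟩ := h2 η hη
          obtain ⟨c, hc⟩ := Finsupp.mem_span_range_iff_exists_finsupp.1 hb
          refine ⟨c.support, fun n => c n, ?_⟩
          rw [dist_eq_norm] at hb2
          rw [← hc] at hb2
          exact hb2
        · intro h2 η hη
          obtain ⟨N, c, hN⟩ := h2 η hη
          refine ⟨∑ n ∈ N, c n • (hu n).toLp (u n), ?_, ?_⟩
          · exact Submodule.sum_mem _ fun n _ => Submodule.smul_mem _ _ (Submodule.subset_span ⟨n, rfl⟩)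
          · rw [dist_eq_norm]
            exact hN
      have hnorm : ∀ (g : Lp ℂ 2 P) (N : Finset ℤ) (c : ℤ → ℂ) (g0 : (Fin k → unitInterval) → ℂ),
          (g : (Fin k → unitInterval) → ℂ) =ᵐ[P] g0 → ∀ η : ℝ,
          (‖g - ∑ n ∈ N, c n • (hu n).toLp (u n)‖ < η ↔
            eLpNorm (fun x => g0 x - ∑ n ∈ N, c n * u n x) 2 P < ENNReal.ofReal η) := by
        intro g N c g0 hg η
        have e1 : ((g - ∑ n ∈ N, c n • (hu n).toLp (u n) : Lp ℂ 2 P) : (Fin k → unitInterval) → ℂ) =ᵐ[P]
            fun x => g0 x - ∑ n ∈ N, c n * u n x := by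
          filter_upwards [Lp.coeFn_sub g (∑ n ∈ N, c n • (hu n).toLp (u n)), hg, hlin N c] with x h1 h2 h3
          rw [h1, Pi.sub_apply, h2, h3]
        rw [← eLpNorm_congr_ae e1, Lp.norm_def, ENNReal.lt_ofReal_iff_toReal_lt (Lp.eLpNorm_ne_top _)]
      have hmem := (hSpan unitInterval volume k).2 W hWc ?_ h0 hh hh2
      · obtain ⟨N, c, hN⟩ := (hmemW _).1 hmem ε hε
        refine ⟨N, c, ?_⟩
        exact (hnorm _ N c h0 (MemLp.coeFn_toLp hh) ε).1 hN
      · intro p hp hp0 F hFp
        rw [hmemW]
        intro η hη
        have hes := MeasurePreserving.symm e he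
        obtain ⟨N, c, hN⟩ := hcyc k hk t ht1 ht2 (fun i => fun y => p i (e.symm y))
          (fun i => (hp i).comp_measurePreserving hes)
          (fun i => by rw [hes.integral_comp e.symm.measurableEmbedding (p i), hp0 i]) η hη
        refine ⟨N, c, ?_⟩
        rw [hnorm F N c _ hFp η]
        have hE : MeasurePreserving (fun x : Fin k → unitInterval => fun i => e (x i)) P
            (Measure.pi fun _ : Fin k => lam) :=
          measurePreserving_pi (fun _ => (volume : Measure unitInterval)) (fun _ => lam) (fun _ => he)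
        have hmeas : AEStronglyMeasurable (fun x : Fin k → ℝ => ∏ i, p i (e.symm (x i)) -
            ∑ n ∈ N, c n * ∏ i, f ((Φ (n * t i)).1 (x i))) (Measure.pi fun _ : Fin k => lam) := by
          refine AEStronglyMeasurable.sub ?_ ?_
          · exact (memLp_prod hTens lam k (fun i => fun y => p i (e.symm y))
              (fun i => (hp i).comp_measurePreserving hes)).1
          · refine Finset.aestronglyMeasurable_fun_sum _ fun n _ => ?_
            exact ((memLp_prod hTens lam k (fun i => fun y => f ((Φ (n * t i)).1 y))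
              (fun i => hfL.comp_measurePreserving (Φ (n * t i)).2)).1).const_mul (c n)
        have h5 := eLpNorm_comp_measurePreserving (p := 2) hmeas hE
        rw [← h5] at hN
        refine lt_of_eq_of_lt (eLpNorm_congr_ae ?_) hN
        have hall : ∀ᵐ x ∂P, ∀ n ∈ N, ∀ i, e ((⇑(((bX e he (Φ (t i))).1.toEquiv : Equiv.Perm unitInterval) ^ n)) (x i)) =
            (Φ (n * t i)).1 (e (x i)) := by
          rw [eventually_all_finset]
          intro n _
          rw [ae_all_iff]
          intro i
          exact (Measure.quasiMeasurePreserving_eval (fun _ : Fin k => (volume : Measure unitInterval)) i).ae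
            (flow_pow e he Φ hfl (t i) n)
        filter_upwards [hall] with x hx
        show _ = ∏ i, p i (e.symm (e (x i))) - ∑ n ∈ N, c n * ∏ i, f ((Φ (n * t i)).1 (e (x i)))
        simp only [e.symm_apply_apply]
        congr 1
        refine Finset.sum_congr rfl fun n hn => ?_
        congr 1
        refine Finset.prod_congr rfl fun i _ => ?_
        rw [hx n hn i]

end Pool.Agent.W744.SF
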